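import Mathlib

set_option autoImplicit false

/-!
# Right-angled Artin groups
-/

namespace Pool.Agent.W391

open scoped commutatorElement

/-- The right-angled Artin group of a simple graph: generated by the vertices, subject to the
commutation of adjacent vertices. -/
abbrev RAAG {V : Type} (Γ : SimpleGraph V) : Type :=
  PresentedGroup {r : FreeGroup V | ∃ u v, Γ.Adj u v ∧ r = ⁅FreeGroup.of u, FreeGroup.of v⁆}

end Pool.Agent.W391
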