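import Pool.Agent.W391.Kill
import Pool.Agent.W391.RaagDef

set_option autoImplicit false

/-!
# Right-angled Artin groups and the complement of a spider
-/

namespace Pool.Agent.W391

open scoped commutatorElement

/-- the generator attached to a vertex -/
def rgen {V : Type} (Γ : SimpleGraph V) (v : V) : RAAG Γ := PresentedGroup.of v

theorem rgen_comm {V : Type} {Γ : SimpleGraph V} {u v : V} (h : Γ.Adj u v) :
    rgen Γ u * rgen Γ v = rgen Γ v * rgen Γ u := by
  rw [← commutatorElement_eq_one_iff_mul_comm]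
  have := PresentedGroup.one_of_mem
    (rels := {r : FreeGroup V | ∃ u v, Γ.Adj u v ∧ r = ⁅FreeGroup.of u, FreeGroup.of v⁆})
    (x := ⁅FreeGroup.of u, FreeGroup.of v⁆) ⟨u, v, h, rfl⟩
  rw [map_commutatorElement] at this
  exact this

/-- universal property -/
def rlift {V : Type} {Γ : SimpleGraph V} {K : Type} [Group K] (f : V → K)
    (h : ∀ u v, Γ.Adj u v → f u * f v = f v * f u) : RAAG Γ →* K :=
  PresentedGroup.toGroup (f := f) (by
    rintro r ⟨u, v, huv, rfl⟩
    rw [map_commutatorElement, FreeGroup.lift_apply_of, FreeGroup.lift_apply_of,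
      commutatorElement_eq_one_iff_mul_comm]
    exact h u v huv)

@[simp] theorem rlift_rgen {V : Type} {Γ : SimpleGraph V} {K : Type} [Group K] (f : V → K)
    (h : ∀ u v, Γ.Adj u v → f u * f v = f v * f u) (v : V) : rlift f h (rgen Γ v) = f v :=
  PresentedGroup.toGroup.of _

/-- The vertices of the spider with `d` legs of length two: the body `c`, the knees `x i`, the
feet `y i`. -/
inductive SpV (d : ℕ) : Type
  | c : SpV d
  | x (i : Fin d) : SpV d
  | y (i : Fin d) : SpV d
  deriving DecidableEq, Fintype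

/-- The spider: the body is joined to the knees, each knee is joined to its foot. -/
def spider (d : ℕ) : SimpleGraph (SpV d) := SimpleGraph.fromRel (fun u v =>
  (u = SpV.c ∧ ∃ i, v = SpV.x i) ∨ ∃ i, u = SpV.x i ∧ v = SpV.y i)

/-- The complement of the spider. -/
abbrev Gam (d : ℕ) : SimpleGraph (SpV d) := (spider d)ᶜ

theorem spider_iff {d : ℕ} (u v : SpV d) : (spider d).Adj u v ↔
    (u = .c ∧ ∃ i, v = .x i) ∨ (v = .c ∧ ∃ i, u = .x i) ∨ (∃ i, u = .x i ∧ v = .y i) ∨
      ∃ i, v = .x i ∧ u = .y i := by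
  unfold spider
  rw [SimpleGraph.fromRel_adj]
  constructor
  · rintro ⟨-, (⟨h1, i, h2⟩ | ⟨i, h1, h2⟩) | ⟨h1, i, h2⟩ | ⟨i, h1, h2⟩⟩
    · exact Or.inl ⟨h1, i, h2⟩
    · exact Or.inr (Or.inr (Or.inl ⟨i, h1, h2⟩))
    · exact Or.inr (Or.inl ⟨h1, i, h2⟩)
    · exact Or.inr (Or.inr (Or.inr ⟨i, h1, h2⟩))
  · rintro (⟨rfl, i, rfl⟩ | ⟨rfl, i, rfl⟩ | ⟨i, rfl, rfl⟩ | ⟨i, rfl, rfl⟩)
    · exact ⟨by simp, Or.inl (Or.inl ⟨rfl, i, rfl⟩)⟩
    · exact ⟨by simp, Or.inr (Or.inl ⟨rfl, i, rfl⟩)⟩
    · exact ⟨by simp, Or.inl (Or.inr ⟨i, rfl, rfl⟩)⟩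
    · exact ⟨by simp, Or.inr (Or.inr ⟨i, rfl, rfl⟩)⟩

theorem adj_cy {d : ℕ} (i : Fin d) : (Gam d).Adj .c (.y i) := by
  rw [SimpleGraph.compl_adj, spider_iff]; simp

theorem adj_yy {d : ℕ} {i j : Fin d} (h : i ≠ j) : (Gam d).Adj (.y i) (.y j) := by
  rw [SimpleGraph.compl_adj, spider_iff]; simp [h]

theorem adj_xy {d : ℕ} {i j : Fin d} (h : i ≠ j) : (Gam d).Adj (.x i) (.y j) := by
  rw [SimpleGraph.compl_adj, spider_iff]
  simp only [ne_eq, reduceCtorEq, not_false_eq_true, false_and, exists_false,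
    SpV.x.injEq, SpV.y.injEq, false_or, or_false, true_and]
  rintro ⟨k, rfl, rfl⟩
  exact h rfl

section model

/-- the alternating group on five letters -/
abbrev K5 : Type := alternatingGroup (Fin 5)

/-- a three-cycle -/
def t1 : K5 := ⟨Equiv.swap 0 1 * Equiv.swap 1 2, Equiv.Perm.mem_alternatingGroup.2 (by
  rw [map_mul, Equiv.Perm.sign_swap (by decide), Equiv.Perm.sign_swap (by decide)]; rfl)⟩

/-- another three-cycle -/
def t2 : K5 := ⟨Equiv.swap 1 2 * Equiv.swap 2 3, Equiv.Perm.mem_alternatingGroup.2 (by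
  rw [map_mul, Equiv.Perm.sign_swap (by decide), Equiv.Perm.sign_swap (by decide)]; rfl)⟩

theorem t1_ne : t1 ≠ 1 := by
  intro h
  have h1 := congrArg (fun a : K5 => a.1 2) h
  revert h1
  decide

theorem t12_ne : t1 * t2 ≠ t2 * t1 := by
  intro h
  have h1 := congrArg (fun a : K5 => (a.1 0, a.1 1, a.1 2, a.1 3)) h
  revert h1
  decide

theorem exists_conj {u v : K5} (hu : u ≠ 1) (hv : v ≠ 1) : ∃ g : K5, ⁅u, g * v * g⁻¹⁆ ≠ 1 := by
  by_contra hcon
  push Not at hcon
  have : IsSimpleGroup K5 := alternatingGroup.isSimpleGroup (by simp)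
  have h1 : Subgroup.normalClosure {v} = ⊤ := by
    rcases (Subgroup.normalClosure_normal (s := {v})).eq_bot_or_eq_top with h | h
    · exfalso
      apply hv
      have : v ∈ Subgroup.normalClosure {v} := Subgroup.subset_normalClosure rfl
      rw [h, Subgroup.mem_bot] at this
      exact this
    · exact h
  have h2 : Subgroup.normalClosure {v} ≤ Subgroup.centralizer {u} := by
    unfold Subgroup.normalClosure
    rw [Subgroup.closure_le]
    intro w hw
    rw [Group.mem_conjugatesOfSet_iff] at hw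
    obtain ⟨a, ha, hw⟩ := hw
    rw [Set.mem_singleton_iff] at ha
    subst ha
    obtain ⟨g, rfl⟩ := isConj_iff.1 hw
    rw [SetLike.mem_coe, Subgroup.mem_centralizer_iff]
    intro b hb
    rw [Set.mem_singleton_iff] at hb
    subst hb
    exact commutatorElement_eq_one_iff_mul_comm.1 (hcon g)
  rw [h1] at h2
  have h3 : u ∈ Subgroup.center K5 := by
    rw [Subgroup.mem_center_iff]
    intro g
    have := h2 (Subgroup.mem_top g)
    rw [Subgroup.mem_centralizer_iff] at this
    exact (this u rfl).symm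
  rcases (inferInstance : (Subgroup.center K5).Normal).eq_bot_or_eq_top with h | h
  · rw [h, Subgroup.mem_bot] at h3
    exact hu h3
  · have h4 : ∀ a b : K5, a * b = b * a := by
      intro a b
      have h5 : a ∈ Subgroup.center K5 := by rw [h]; exact Subgroup.mem_top a
      rw [Subgroup.mem_center_iff] at h5
      exact (h5 b).symm
    exact t12_ne (h4 t1 t2)

variable {d : ℕ}

/-- the acting group -/
abbrev QQ (d : ℕ) : Type := Multiplicative (ℤ × (Fin d → ZMod 2))

/-- base functions -/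
def fx (θ : ℤ → Fin d × K5) (i : Fin d) (q : QQ d) : K5 :=
  if (θ q.toAdd.1).1 = i ∧ q.toAdd.2 i = 0 then (θ q.toAdd.1).2 else 1

/-- images of the vertices -/
def vx (θ : ℤ → Fin d × K5) : SpV d → K5 ≀ᵣ QQ d
  | .c => ⟨1, Multiplicative.ofAdd (1, 0)⟩
  | .x i => ⟨fx θ i, 1⟩
  | .y i => ⟨1, Multiplicative.ofAdd (0, Pi.single i 1)⟩

theorem vx_comm (θ : ℤ → Fin d × K5) (u v : SpV d) (h : (Gam d).Adj u v) :
    vx θ u * vx θ v = vx θ v * vx θ u := by
  rw [SimpleGraph.compl_adj, spider_iff] at h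
  obtain ⟨hne, h⟩ := h
  -- the pairs of generators of the acting group
  have key : ∀ i j : Fin d, i ≠ j → vx θ (.x i) * vx θ (.y j) = vx θ (.y j) * vx θ (.x i) := by
    intro i j hij
    apply RegularWreathProduct.ext
    · funext q
      simp only [vx, RegularWreathProduct.mul_left, Pi.mul_apply, Pi.one_apply, mul_one, one_mul]
      unfold fx
      simp only [toAdd_mul, toAdd_inv, toAdd_ofAdd, Prod.fst_add, Prod.fst_neg,
        Prod.snd_add, Prod.snd_neg, neg_zero, zero_add, Pi.add_apply, Pi.neg_apply,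
        Pi.single_eq_of_ne hij]
    · simp only [vx, RegularWreathProduct.mul_right, one_mul, mul_one]
  rcases u with _ | i | i
  · rcases v with _ | j | j
    · exact absurd rfl hne
    · exfalso; apply h; simp
    · apply RegularWreathProduct.ext
      · rfl
      · exact mul_comm _ _
  · rcases v with _ | j | j
    · exfalso; apply h; simp
    · have hij : i ≠ j := by rintro rfl; exact hne rfl
      apply RegularWreathProduct.ext
      · funext q
        simp only [vx, RegularWreathProduct.mul_left, Pi.mul_apply, inv_one, one_mul]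
        unfold fx
        by_cases h1 : (θ q.toAdd.1).1 = i ∧ q.toAdd.2 i = 0
        · have h2 : ¬ ((θ q.toAdd.1).1 = j ∧ q.toAdd.2 j = 0) := by
            rintro ⟨h3, -⟩
            exact hij (h1.1.symm.trans h3)
          rw [if_pos h1, if_neg h2, one_mul, mul_one]
        · rw [if_neg h1, one_mul, mul_one]
      · rfl
    · have hij : i ≠ j := by
        rintro rfl
        apply h; simp
      exact key i j hij
  · rcases v with _ | j | j
    · apply RegularWreathProduct.ext
      · rfl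
      · exact mul_comm _ _
    · have hij : j ≠ i := by
        rintro rfl
        apply h; simp
      exact (key j i hij).symm
    · apply RegularWreathProduct.ext
      · rfl
      · exact mul_comm _ _

/-- the test homomorphisms -/
noncomputable def Psi (θ : ℤ → Fin d × K5) : RAAG (Gam d) →* K5 ≀ᵣ QQ d :=
  rlift (vx θ) (vx_comm θ)

/-- the commutators of knees and feet -/
def xiG (d : ℕ) (i : Fin d) : RAAG (Gam d) := ⁅rgen (Gam d) (.x i), rgen (Gam d) (.y i)⁆

/-- the body -/
def cG (d : ℕ) : RAAG (Gam d) := rgen (Gam d) .c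

theorem Psi_c_pow (θ : ℤ → Fin d × K5) (n : ℕ) :
    Psi θ (cG d ^ n) = ⟨1, Multiplicative.ofAdd ((n : ℤ), 0)⟩ := by
  rw [map_pow]
  have h : Psi θ (cG d) = ⟨1, Multiplicative.ofAdd (1, 0)⟩ := by
    unfold Psi cG
    rw [rlift_rgen]; rfl
  rw [h]
  have : ∀ n : ℕ, (RegularWreathProduct.mk (D := K5) (Q := QQ d) 1
      (Multiplicative.ofAdd ((1 : ℤ), 0))) ^ n = ⟨1, Multiplicative.ofAdd ((n : ℤ), 0)⟩ := by
    intro n
    induction n with
    | zero =>
      rw [pow_zero]
      rfl
    | succ n ih =>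
      rw [pow_succ, ih]
      apply RegularWreathProduct.ext
      · funext q
        simp only [RegularWreathProduct.mul_left, Pi.mul_apply, Pi.one_apply, mul_one]
      · simp only [RegularWreathProduct.mul_right, ← ofAdd_add, Prod.mk_add_mk, add_zero]
        push_cast
        rfl
  exact this n

/-- representation of an iterated commutator by a function on windows -/
def Rep (n : ℕ) (T : RAAG (Gam d)) : Prop :=
  ∃ Φ : (ℕ → Fin d × K5) → K5,
    (∀ ϑ ϑ' : ℕ → Fin d × K5, (∀ k < n, ϑ k = ϑ' k) → Φ ϑ = Φ ϑ') ∧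
    (∀ (g : K5) (ϑ : ℕ → Fin d × K5),
      Φ (fun k => ((ϑ k).1, g * (ϑ k).2 * g⁻¹)) = g * Φ ϑ * g⁻¹) ∧
    (∃ ϑ, Φ ϑ ≠ 1) ∧
    ∀ θ : ℤ → Fin d × K5, (Psi θ T).right = 1 ∧
      ∀ p : ℤ, (Psi θ T).left (Multiplicative.ofAdd (p, 0)) = Φ (fun k => θ (p - k))

theorem rep_base (i : Fin d) : Rep 1 (xiG d i) := by
  refine ⟨fun ϑ => if (ϑ 0).1 = i then (ϑ 0).2 else 1, ?_, ?_, ?_, ?_⟩
  · intro ϑ ϑ' h
    simp only [h 0 (by norm_num)]
  · intro g ϑ
    by_cases h : (ϑ 0).1 = i
    · simp [h]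
    · simp [h]
  · refine ⟨fun _ => (i, t1), ?_⟩
    simp only [if_true]
    exact t1_ne
  · intro θ
    have h1 : Psi θ (xiG d i) = ⁅vx θ (.x i), vx θ (.y i)⁆ := by
      unfold Psi xiG
      rw [map_commutatorElement, rlift_rgen, rlift_rgen]
    rw [h1]
    constructor
    · simp only [commutatorElement_def, RegularWreathProduct.mul_right,
        RegularWreathProduct.inv_right, vx]
      rw [inv_one, one_mul, mul_one, mul_inv_cancel]
    · intro p
      simp only [commutatorElement_def, RegularWreathProduct.mul_left,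
        RegularWreathProduct.mul_right, RegularWreathProduct.inv_right,
        RegularWreathProduct.inv_left, vx, Pi.mul_apply, Pi.one_apply, Pi.inv_apply, inv_one,
        one_mul, mul_one]
      unfold fx
      simp only [toAdd_mul, toAdd_inv, toAdd_ofAdd, Prod.fst_add, Prod.fst_neg,
        Prod.snd_add, Prod.snd_neg, neg_zero, zero_add, Pi.add_apply, Pi.neg_apply,
        Pi.single_eq_same, Pi.zero_apply, add_zero, and_true, Nat.cast_zero, sub_zero]
      have h2 : ¬ ((θ p).1 = i ∧ (-1 : ZMod 2) = 0) := by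
        rintro ⟨-, h⟩
        revert h
        decide
      rw [if_neg h2, inv_one, mul_one]

theorem rep_comm {n m : ℕ} {T T' : RAAG (Gam d)} (h : Rep n T) (h' : Rep m T') :
    Rep (n + m) ⁅T, cG d ^ n * T' * (cG d ^ n)⁻¹⁆ := by
  obtain ⟨Φ, h1, h2, ⟨ϑ1, h3⟩, h4⟩ := h
  obtain ⟨Φ', h1', h2', ⟨ϑ2, h3'⟩, h4'⟩ := h'
  refine ⟨fun ϑ => ⁅Φ ϑ, Φ' (fun k => ϑ (n + k))⁆, ?_, ?_, ?_, ?_⟩
  · intro ϑ ϑ' hk
    simp only
    rw [h1 ϑ ϑ' (fun k hk' => hk k (by omega)),
      h1' (fun k => ϑ (n + k)) (fun k => ϑ' (n + k)) (fun k hk' => hk _ (by omega))]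
  · intro g ϑ
    simp only
    rw [h2 g ϑ, h2' g (fun k => ϑ (n + k))]
    simp only [commutatorElement_def]
    group
  · obtain ⟨g, hg⟩ := exists_conj h3 h3'
    refine ⟨fun k => if k < n then ϑ1 k else ((ϑ2 (k - n)).1, g * (ϑ2 (k - n)).2 * g⁻¹), ?_⟩
    simp only
    rw [h1 _ ϑ1 (fun k hk => by rw [if_pos hk])]
    have e : (fun k => if n + k < n then ϑ1 (n + k) else
        ((ϑ2 (n + k - n)).1, g * (ϑ2 (n + k - n)).2 * g⁻¹)) =
        fun k => ((ϑ2 k).1, g * (ϑ2 k).2 * g⁻¹) := by
      funext k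
      rw [if_neg (by omega), Nat.add_sub_cancel_left]
    rw [e, h2']
    exact hg
  · intro θ
    obtain ⟨h5, h6⟩ := h4 θ
    obtain ⟨h5', h6'⟩ := h4' θ
    rw [map_commutatorElement, map_mul, map_mul, map_inv, Psi_c_pow]
    constructor
    · simp only [commutatorElement_def, RegularWreathProduct.mul_right,
        RegularWreathProduct.inv_right, h5, h5']
      rw [inv_one, mul_one, mul_one, mul_inv_cancel, inv_one, one_mul, one_mul]
    · intro p
      simp only [commutatorElement_def, RegularWreathProduct.mul_left,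
        RegularWreathProduct.mul_right, RegularWreathProduct.inv_right,
        RegularWreathProduct.inv_left, Pi.mul_apply, Pi.one_apply, Pi.inv_apply, inv_one,
        one_mul, mul_one, h5, h5', mul_inv_cancel]
      have e1 : (Multiplicative.ofAdd ((n : ℤ), (0 : Fin d → ZMod 2)))⁻¹ *
          Multiplicative.ofAdd (p, 0) = Multiplicative.ofAdd (p - n, 0) := by
        rw [← ofAdd_neg, ← ofAdd_add]
        congr 1
        apply Prod.ext
        · simp only [Prod.fst_add, Prod.fst_neg]; ring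
        · simp
      rw [e1, h6, h6']
      have e2 : (fun k : ℕ => θ (p - n - k)) = fun k : ℕ => θ (p - ((n + k : ℕ) : ℤ)) := by
        funext k
        congr 1
        push_cast
        ring
      rw [e2]

theorem Tr.rep {X : Fin d → Set ℕ} {n : ℕ} {T : RAAG (Gam d)} {Z : Set ℕ}
    (h : Tr (xiG d) (cG d) X n T Z) : Rep n T := by
  induction h with
  | base i => exact rep_base i
  | comm _ _ ih ih' => exact rep_comm ih ih'

theorem Rep.ne {n : ℕ} {T : RAAG (Gam d)} (h : Rep n T) : T ≠ 1 := by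
  rintro rfl
  obtain ⟨Φ, h1, h2, ⟨ϑ, h3⟩, h4⟩ := h
  apply h3
  have h5 := (h4 (fun z => ϑ (-z).toNat)).2 0
  rw [map_one] at h5
  have e : (fun k : ℕ => ϑ (-((0 : ℤ) - k)).toNat) = ϑ := by
    funext k
    congr 1
    simp
  rw [e] at h5
  rw [← h5]
  rfl

end model

end Pool.Agent.W391
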