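import Pool.Agent.W217.BE.Stm

/-!
# Minimal free resolutions over a Noetherian local ring
-/

set_option autoImplicit false

namespace Pool.Agent.W391.BEMINRES

open Pool.Agent.W217.BE

theorem step (B : Type) [CommRing B] [IsLocalRing B] (N : Type) [AddCommGroup N] [Module B N]
    [Module.Finite B N] : ∃ (n : ℕ) (e : (Fin n → B) →ₗ[B] N), Function.Surjective e ∧
      ∀ x, e x = 0 → ∀ j, x j ∈ IsLocalRing.maximalIdeal B := by
  classical
  have hex : ∃ n : ℕ, ∃ e : (Fin n → B) →ₗ[B] N, Function.Surjective e :=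
    Module.Finite.exists_fin' B N
  obtain ⟨e, he⟩ := Nat.find_spec hex
  refine ⟨Nat.find hex, e, he, fun x hx j => ?_⟩
  by_contra hj
  obtain ⟨k, hk⟩ : ∃ k, Nat.find hex = k + 1 := by
    have := j.2
    exact ⟨Nat.find hex - 1, by omega⟩
  have hmin : ¬ ∃ e : (Fin k → B) →ₗ[B] N, Function.Surjective e :=
    Nat.find_min hex (by omega)
  apply hmin
  generalize Nat.find hex = n at *
  subst hk
  have hu : IsUnit (x j) := by
    by_contra h
    exact hj ((IsLocalRing.mem_maximalIdeal _).2 h)
  obtain ⟨u, hu⟩ := hu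
  let ins : (Fin k → B) →ₗ[B] (Fin (k + 1) → B) :=
    { toFun := fun y => j.insertNth (0 : B) y
      map_add' := by
        intro y z
        funext i
        refine Fin.succAboveCases j ?_ ?_ i
        · simp
        · intro i
          simp
      map_smul' := by
        intro c y
        funext i
        refine Fin.succAboveCases j ?_ ?_ i
        · simp
        · intro i
          simp }
  have hins : ∀ y : Fin k → B, ins y = (j.insertNth (0 : B) y : Fin (k + 1) → B) :=
    fun y => rfl
  refine ⟨e.comp ins, fun z => ?_⟩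
  obtain ⟨w, hw⟩ := he z
  have hw' : e (w - (w j * (u⁻¹ : Bˣ)) • x) = z := by
    rw [map_sub, map_smul, hx, smul_zero, sub_zero, hw]
  refine ⟨fun i => (w - (w j * (u⁻¹ : Bˣ)) • x) (j.succAbove i), ?_⟩
  rw [← hw', LinearMap.comp_apply]
  congr 1
  funext i
  rw [hins]
  refine Fin.succAboveCases j ?_ ?_ i
  · rw [Fin.insertNth_apply_same]
    simp only [Pi.sub_apply, Pi.smul_apply, smul_eq_mul, ← hu]
    rw [mul_assoc, Units.inv_mul, mul_one, sub_self]
  · intro i
    rw [Fin.insertNth_apply_succAbove]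

theorem main : MINRES := by
  intro B _ _ _ N _ _ _
  classical
  obtain ⟨n0, ε, hε, hε'⟩ := step B N
  have hst : ∀ s : (Σ n : ℕ, Submodule B (Fin n → B)), ∃ (n : ℕ) (e : (Fin n → B) →ₗ[B] s.2),
      Function.Surjective e ∧ ∀ x, e x = 0 → ∀ j, x j ∈ IsLocalRing.maximalIdeal B :=
    fun s => step B s.2
  choose nx e he he' using hst
  let next : (Σ n : ℕ, Submodule B (Fin n → B)) → (Σ n : ℕ, Submodule B (Fin n → B)) :=
    fun s => ⟨nx s, LinearMap.ker (e s)⟩
  let D : ∀ s : (Σ n : ℕ, Submodule B (Fin n → B)), (Fin (next s).1 → B) →ₗ[B] (Fin s.1 → B) :=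
    fun s => s.2.subtype.comp (e s)
  have hDr : ∀ s, LinearMap.range (D s) = s.2 := by
    intro s
    rw [LinearMap.range_comp, LinearMap.range_eq_top.2 (he s), Submodule.map_top,
      Submodule.range_subtype]
  have hDk : ∀ s, LinearMap.ker (D s) = (next s).2 := by
    intro s
    rw [LinearMap.ker_comp, Submodule.ker_subtype]
    rfl
  let sq : ℕ → (Σ n : ℕ, Submodule B (Fin n → B)) :=
    fun i => Nat.rec ⟨n0, LinearMap.ker ε⟩ (fun _ s => next s) i
  have hsq : ∀ i, sq (i + 1) = next (sq i) := fun i => rfl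
  have hm : ∀ i, ∀ x ∈ (sq i).2, ∀ j, x j ∈ IsLocalRing.maximalIdeal B := by
    intro i
    cases i with
    | zero => exact fun x hx j => hε' x hx j
    | succ i => exact fun x hx j => he' (sq i) x hx j
  refine ⟨fun i => (sq i).1, fun i => D (sq i), ε, ⟨hε, ?_, ?_⟩, ?_⟩
  · exact hDr (sq 0)
  · intro i
    exact (hDr (sq (i + 1))).trans (hDk (sq i)).symm
  · intro i x j
    apply hm i
    rw [← hDr (sq i)]
    exact LinearMap.mem_range_self _ x

end Pool.Agent.W391.BEMINRES

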