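import Mathlib

set_option autoImplicit false

/-!
# Components of sets of integers and linear triple systems

`mt X Y` is the union of the components (maximal intervals) of `X ∪ Y` meeting both `X` and `Y`.
A family `X i` has private points if every component of `X i` contains a point outside all other
`X j`.  Private points survive the passage to triples of a linear triple system, and the
multiplicity grows only by four.
-/

namespace Pool.Agent.W391

/-- components of a set of natural numbers -/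
structure IsC (X : Set ℕ) (a b : ℕ) : Prop where
  le : a ≤ b
  mem : ∀ n, a ≤ n → n ≤ b → n ∈ X
  left : ∀ n, n + 1 = a → n ∉ X
  right : b + 1 ∉ X

theorem IsC.absorb {X : Set ℕ} {a b s t p : ℕ} (h : IsC X a b)
    (hst : ∀ n, s ≤ n → n ≤ t → n ∈ X) (h1 : a ≤ p) (h2 : p ≤ b) (h3 : s ≤ p) (h4 : p ≤ t) :
    a ≤ s ∧ t ≤ b := by
  constructor
  · by_contra hc
    exact h.left (a - 1) (by omega) (hst _ (by omega) (by omega))
  · by_contra hc
    exact h.right (hst _ (by omega) (by omega))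

theorem IsC.unique {X : Set ℕ} {a b s t p : ℕ} (h : IsC X a b) (h' : IsC X s t)
    (h1 : a ≤ p) (h2 : p ≤ b) (h3 : s ≤ p) (h4 : p ≤ t) : a = s ∧ b = t := by
  have e1 := h.absorb h'.mem h1 h2 h3 h4
  have e2 := h'.absorb h.mem h3 h4 h1 h2
  omega

theorem exists_right {X : Set ℕ} {N : ℕ} (hN : ∀ n ∈ X, n < N) {p : ℕ} (hp : p ∈ X) :
    ∃ b, p ≤ b ∧ (∀ n, p ≤ n → n ≤ b → n ∈ X) ∧ b + 1 ∉ X := by
  classical
  have h : ∃ b, p ≤ b ∧ b + 1 ∉ X := by
    refine ⟨p + N, by omega, fun h => ?_⟩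
    have := hN _ h
    omega
  refine ⟨Nat.find h, (Nat.find_spec h).1, ?_, (Nat.find_spec h).2⟩
  intro n h1 h2
  induction n, h1 using Nat.le_induction with
  | base => exact hp
  | succ n h3 ih =>
    by_contra hc
    exact Nat.find_min h (show n < Nat.find h by omega) ⟨h3, hc⟩

theorem exists_left {X : Set ℕ} {p : ℕ} (hp : p ∈ X) :
    ∃ a, a ≤ p ∧ (∀ n, a ≤ n → n ≤ p → n ∈ X) ∧ ∀ n, n + 1 = a → n ∉ X := by
  induction p with
  | zero => exact ⟨0, le_rfl, fun n _ h => by obtain rfl : n = 0 := by omega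
                                              exact hp, fun n h => by omega⟩
  | succ p ih =>
    by_cases h : p ∈ X
    · obtain ⟨a, h1, h2, h3⟩ := ih h
      refine ⟨a, by omega, fun n h4 h5 => ?_, h3⟩
      rcases Nat.lt_or_ge p n with h6 | h6
      · obtain rfl : n = p + 1 := by omega
        exact hp
      · exact h2 n h4 h6
    · refine ⟨p + 1, le_rfl, fun n h4 h5 => ?_, fun n h4 => ?_⟩
      · obtain rfl : n = p + 1 := by omega
        exact hp
      · obtain rfl : n = p := by omega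
        exact h

theorem exists_comp {X : Set ℕ} {N : ℕ} (hN : ∀ n ∈ X, n < N) {p : ℕ} (hp : p ∈ X) :
    ∃ a b, IsC X a b ∧ a ≤ p ∧ p ≤ b := by
  obtain ⟨b, h1, h2, h3⟩ := exists_right hN hp
  obtain ⟨a, h4, h5, h6⟩ := exists_left hp
  refine ⟨a, b, ⟨by omega, fun n h7 h8 => ?_, h6, h3⟩, h4, h1⟩
  rcases Nat.le_total p n with h | h
  · exact h2 n h h8
  · exact h5 n h7 h

/-- connectedness of two points inside a set -/
def Cn (Z : Set ℕ) (p q : ℕ) : Prop := ∀ n, (p ≤ n ∧ n ≤ q) ∨ (q ≤ n ∧ n ≤ p) → n ∈ Z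

theorem Cn.trans {Z : Set ℕ} {p q r : ℕ} (h1 : Cn Z p q) (h2 : Cn Z q r) : Cn Z p r := by
  intro n hn
  by_cases h : (p ≤ n ∧ n ≤ q) ∨ (q ≤ n ∧ n ≤ p)
  · exact h1 n h
  · exact h2 n (by omega)

theorem Cn.symm {Z : Set ℕ} {p q : ℕ} (h1 : Cn Z p q) : Cn Z q p := fun n hn => h1 n (by omega)

/-- the union of the components of `X ∪ Y` meeting both `X` and `Y` -/
def mt (X Y : Set ℕ) : Set ℕ := {p | (∃ q ∈ X, Cn (X ∪ Y) p q) ∧ ∃ r ∈ Y, Cn (X ∪ Y) p r}

theorem mt_subset {X Y : Set ℕ} : mt X Y ⊆ X ∪ Y := by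
  rintro p ⟨⟨q, -, h⟩, -⟩
  exact h p (by omega)

theorem mt_conn {X Y : Set ℕ} {p q : ℕ} (hp : p ∈ mt X Y) (h : Cn (X ∪ Y) q p) : q ∈ mt X Y := by
  obtain ⟨⟨r, hr, h1⟩, s, hs, h2⟩ := hp
  exact ⟨⟨r, hr, h.trans h1⟩, s, hs, h.trans h2⟩

theorem mt_bd {X Y : Set ℕ} {N : ℕ} (hX : ∀ n ∈ X, n < N) (hY : ∀ n ∈ Y, n < N) :
    ∀ n ∈ mt X Y, n < N := by
  intro n hn
  rcases mt_subset hn with h | h
  · exact hX n h
  · exact hY n h

/-- a component of `mt X Y` absorbs the intervals of `X ∪ Y` which it meets -/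
theorem IsC.absorb_mt {X Y : Set ℕ} {a b s t p : ℕ} (h : IsC (mt X Y) a b)
    (hst : ∀ n, s ≤ n → n ≤ t → n ∈ X ∪ Y) (h1 : a ≤ p) (h2 : p ≤ b) (h3 : s ≤ p) (h4 : p ≤ t) :
    a ≤ s ∧ t ≤ b := by
  refine h.absorb (fun n h5 h6 => ?_) h1 h2 h3 h4
  refine mt_conn (h.mem p h1 h2) ?_
  intro m hm
  exact hst m (by omega) (by omega)

theorem mt_comp {X Y : Set ℕ} {N : ℕ} (hX : ∀ n ∈ X, n < N) (hY : ∀ n ∈ Y, n < N) {a b : ℕ}
    (h : IsC (mt X Y) a b) : (∃ s t, IsC X s t ∧ a ≤ s ∧ t ≤ b) ∧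
      ∃ s t, IsC Y s t ∧ a ≤ s ∧ t ≤ b := by
  obtain ⟨⟨q, hq, h1⟩, r, hr, h2⟩ := h.mem a le_rfl h.le
  have hle := h.le
  constructor
  · have h3 : a ≤ q ∧ q ≤ b := by
      have := h.absorb_mt (s := min a q) (t := max a q) (p := a)
        (fun n h4 h5 => h1 n (by omega)) le_rfl h.le (by omega) (by omega)
      omega
    obtain ⟨s, t, h4, h5, h6⟩ := exists_comp hX hq
    have h7 := h.absorb_mt (fun n h8 h9 => Or.inl (h4.mem n h8 h9)) h3.1 h3.2 h5 h6
    exact ⟨s, t, h4, h7.1, h7.2⟩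
  · have h3 : a ≤ r ∧ r ≤ b := by
      have := h.absorb_mt (s := min a r) (t := max a r) (p := a)
        (fun n h4 h5 => h2 n (by omega)) le_rfl h.le (by omega) (by omega)
      omega
    obtain ⟨s, t, h4, h5, h6⟩ := exists_comp hY hr
    have h7 := h.absorb_mt (fun n h8 h9 => Or.inr (h4.mem n h8 h9)) h3.1 h3.2 h5 h6
    exact ⟨s, t, h4, h7.1, h7.2⟩

/-- private points -/
def Priv {ι : Type} (X : ι → Set ℕ) : Prop :=
  ∀ i a b, IsC (X i) a b → ∃ p, a ≤ p ∧ p ≤ b ∧ ∀ j, p ∈ X j → j = i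

/-- multiplicity -/
def Mult {ι : Type} (X : ι → Set ℕ) (m : ℕ) : Prop :=
  ∀ (p : ℕ) (S : Finset ι), (∀ i ∈ S, p ∈ X i) → S.card ≤ m

/-- `Y` is covered by the three sets `X (R k)` and each of its components contains a component
of each of them -/
def Cov {ι : Type} (X : ι → Set ℕ) (R : Fin 3 → ι) (Y : Set ℕ) : Prop :=
  (∀ n ∈ Y, ∃ k, n ∈ X (R k)) ∧
    ∀ a b, IsC Y a b → ∀ k, ∃ s t, IsC (X (R k)) s t ∧ a ≤ s ∧ t ≤ b

theorem cov_mt {ι : Type} {X : ι → Set ℕ} {N : ℕ} (hN : ∀ i, ∀ n ∈ X i, n < N) (R : Fin 3 → ι) :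
    Cov X R (mt (mt (X (R 0)) (X (R 1))) (X (R 2))) := by
  constructor
  · intro n hn
    rcases mt_subset hn with h | h
    · rcases mt_subset h with h | h
      · exact ⟨0, h⟩
      · exact ⟨1, h⟩
    · exact ⟨2, h⟩
  · intro a b h k
    have h1 := mt_comp (mt_bd (hN _) (hN _)) (hN _) h
    obtain ⟨⟨s, t, h2, h3, h4⟩, h5⟩ := h1
    have h6 := mt_comp (hN _) (hN _) h2
    obtain ⟨⟨s0, t0, h7, h8, h9⟩, s1, t1, h10, h11, h12⟩ := h6
    match k with
    | 0 => exact ⟨s0, t0, h7, by omega, by omega⟩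
    | 1 => exact ⟨s1, t1, h10, by omega, by omega⟩
    | 2 => exact h5

section step

variable {ι κ : Type} {X : ι → Set ℕ} {Y : κ → Set ℕ} {R : κ → Fin 3 → ι}

/-- a component of `X i` inside a set covered by `X (R r k)` -/
theorem comp_in (hP : Priv X) (hC : ∀ r, Cov X (R r) (Y r)) {i : ι} {s t : ℕ}
    (h : IsC (X i) s t) {r : κ} (hs : ∀ n, s ≤ n → n ≤ t → n ∈ Y r) : ∃ k, R r k = i := by
  obtain ⟨p, h1, h2, h3⟩ := hP i s t h
  obtain ⟨k, hk⟩ := (hC r).1 p (hs p h1 h2)
  exact ⟨k, h3 _ hk⟩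

/-- nested components -/
theorem nested (hP : Priv X) (hC : ∀ r, Cov X (R r) (Y r)) {r r' : κ} {a b : ℕ}
    (h : IsC (Y r) a b) (hs : ∀ n, a ≤ n → n ≤ b → n ∈ Y r') (k : Fin 3) : ∃ l, R r' l = R r k := by
  obtain ⟨s, t, h1, h2, h3⟩ := (hC r).2 a b h k
  exact comp_in hP hC h1 (fun n h4 h5 => hs n (by omega) (by omega))

variable (hlin : ∀ r r' k l k' l', k ≠ l → R r k = R r' k' → R r l = R r' l' → r = r')

include hlin in
theorem step_priv (hP : Priv X) (hC : ∀ r, Cov X (R r) (Y r)) {N : ℕ}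
    (hN : ∀ r, ∀ n ∈ Y r, n < N) : Priv Y := by
  intro r a b h
  by_contra hcon
  push Not at hcon
  have hle := h.le
  -- every point is covered by another member
  have hcov : ∀ p, a ≤ p → p ≤ b → ∃ r', r' ≠ r ∧ p ∈ Y r' := by
    intro p h1 h2
    obtain ⟨j, h3, h4⟩ := hcon p h1 h2
    exact ⟨j, h4, h3⟩
  -- components of other members are not contained in `[a, b]`
  have hout : ∀ r' s t, r' ≠ r → IsC (Y r') s t → a ≤ s → t ≤ b → False := by
    intro r' s t h1 h2 h3 h4
    have h5 : ∀ k, ∃ l, R r l = R r' k :=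
      nested hP hC h2 (fun n h6 h7 => h.mem n (by omega) (by omega))
    obtain ⟨l0, e0⟩ := h5 0
    obtain ⟨l1, e1⟩ := h5 1
    exact h1 (hlin r' r 0 1 l0 l1 (by decide) e0.symm e1.symm)
  -- the longest initial segment covered by another member
  classical
  let Q : ℕ → Prop := fun t => ∃ r' s, r' ≠ r ∧ IsC (Y r') s t ∧ s ≤ a ∧ a ≤ t
  have hQ0 : ∃ t, t ≤ N ∧ Q t := by
    obtain ⟨r', h1, h2⟩ := hcov a le_rfl h.le
    obtain ⟨s, t, h3, h4, h5⟩ := exists_comp (hN r') h2
    have := hN r' t (h3.mem t h3.le le_rfl)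
    exact ⟨t, by omega, r', s, h1, h3, h4, h5⟩
  obtain ⟨t0, ht0, hQt0⟩ := hQ0
  set t := Nat.findGreatest Q N with htdef
  have hQt : Q t := Nat.findGreatest_spec ht0 hQt0
  obtain ⟨r1, s1, h1, h2, h3, h4⟩ := hQt
  have htb : t < b := by
    by_contra hc
    push Not at hc
    -- then `[a,b]` is inside `Y r1`
    have h5 : ∀ k, ∃ l, R r1 l = R r k :=
      nested hP hC h (fun n h6 h7 => h2.mem n (by omega) (by omega))
    obtain ⟨l0, e0⟩ := h5 0
    obtain ⟨l1, e1⟩ := h5 1
    exact h1 (hlin r r1 0 1 l0 l1 (by decide) e0.symm e1.symm).symm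
  obtain ⟨r2, h5, h6⟩ := hcov (t + 1) (by omega) (by omega)
  obtain ⟨s2, t2, h7, h8, h9⟩ := exists_comp (hN r2) h6
  have ht2 : b < t2 := by
    by_contra hc
    push Not at hc
    rcases Nat.lt_or_ge s2 a with h10 | h10
    · have h11 := hN r2 t2 (h7.mem t2 h7.le le_rfl)
      have h12 : Q t2 := ⟨r2, s2, h5, h7, by omega, by omega⟩
      have h13 := Nat.le_findGreatest (P := Q) (n := N) (by omega) h12
      rw [← htdef] at h13
      omega
    · exact hout r2 s2 t2 h5 h7 h10 hc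
  -- private points of the three components
  have hpt : ∀ k, ∃ p, a ≤ p ∧ p ≤ b ∧ ∀ j, p ∈ X j → j = R r k := by
    intro k
    obtain ⟨s, t', h10, h11, h12⟩ := (hC r).2 a b h k
    obtain ⟨p, h13, h14, h15⟩ := hP _ _ _ h10
    exact ⟨p, by omega, by omega, h15⟩
  choose p hp1 hp2 hp3 using hpt
  have hside : ∀ k, (p k ≤ t ∧ ∃ l, R r1 l = R r k) ∨ (t < p k ∧ ∃ l, R r2 l = R r k) := by
    intro k
    rcases Nat.lt_or_ge t (p k) with h10 | h10
    · right
      refine ⟨h10, ?_⟩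
      have := hp2 k
      obtain ⟨l, hl⟩ := (hC r2).1 (p k) (h7.mem _ (by omega) (by omega))
      exact ⟨l, hp3 k _ hl⟩
    · left
      refine ⟨h10, ?_⟩
      have := hp1 k
      obtain ⟨l, hl⟩ := (hC r1).1 (p k) (h2.mem _ (by omega) (by omega))
      exact ⟨l, hp3 k _ hl⟩
  have two : ∀ k l, k ≠ l → (p k ≤ t ↔ p l ≤ t) → False := by
    intro k l hkl hiff
    rcases hside k with ⟨h10, l1, e1⟩ | ⟨h10, l1, e1⟩
    · rcases hside l with ⟨h11, l2, e2⟩ | ⟨h11, l2, e2⟩
      · exact h1 (hlin r r1 k l l1 l2 hkl e1.symm e2.symm).symm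
      · omega
    · rcases hside l with ⟨h11, l2, e2⟩ | ⟨h11, l2, e2⟩
      · omega
      · exact h5 (hlin r r2 k l l1 l2 hkl e1.symm e2.symm).symm
  by_cases c0 : p 0 ≤ t
  · by_cases c1 : p 1 ≤ t
    · exact two 0 1 (by decide) (by tauto)
    · by_cases c2 : p 2 ≤ t
      · exact two 0 2 (by decide) (by tauto)
      · exact two 1 2 (by decide) (by tauto)
  · by_cases c1 : p 1 ≤ t
    · by_cases c2 : p 2 ≤ t
      · exact two 1 2 (by decide) (by tauto)
      · exact two 0 2 (by decide) (by tauto)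
    · exact two 0 1 (by decide) (by tauto)

include hlin in
theorem step_mult (hP : Priv X) (hC : ∀ r, Cov X (R r) (Y r)) {N m : ℕ}
    (hN : ∀ r, ∀ n ∈ Y r, n < N) (hM : Mult X m) : Mult Y (m + 4) := by
  classical
  intro p S hS
  by_cases hne : S.Nonempty
  swap
  · rw [Finset.not_nonempty_iff_eq_empty.1 hne]; simp
  -- components through `p`
  have hcomp : ∀ r : κ, ∃ ab : ℕ × ℕ, r ∈ S → IsC (Y r) ab.1 ab.2 ∧ ab.1 ≤ p ∧ p ≤ ab.2 := by
    intro r
    by_cases h : r ∈ S
    · obtain ⟨a, b, h1, h2, h3⟩ := exists_comp (hN r) (hS r h)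
      exact ⟨(a, b), fun _ => ⟨h1, h2, h3⟩⟩
    · exact ⟨(0, 0), fun h' => absurd h' h⟩
  choose ab hab using hcomp
  obtain ⟨r0, hr0, hmin⟩ := S.exists_min_image (fun r => (ab r).1) hne
  have hnest : ∀ r ∈ S, ∀ r' ∈ S, r ≠ r' → (ab r').1 ≤ (ab r).1 → (ab r).2 ≤ (ab r').2 →
      False := by
    intro r hr r' hr' hrr h1 h2
    have h3 := (hab r hr).1
    have h4 := (hab r' hr').1
    have h5 : ∀ k, ∃ l, R r' l = R r k :=
      nested hP hC h3 (fun n h6 h7 => h4.mem n (by omega) (by omega))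
    obtain ⟨l0, e0⟩ := h5 0
    obtain ⟨l1, e1⟩ := h5 1
    exact hrr (hlin r r' 0 1 l0 l1 (by decide) e0.symm e1.symm)
  -- the counting function
  let PX : Finset ι := (S.biUnion fun r => Finset.image (R r) Finset.univ).filter (fun i => p ∈ X i)
  have hPX : PX.card ≤ m := hM p PX (fun i hi => (Finset.mem_filter.1 hi).2)
  let u : κ → Finset (Fin 3) := fun r => Finset.univ.filter (fun k =>
    ∃ s t, IsC (X (R r0 k)) s t ∧ (ab r).1 ≤ s ∧ t < p)
  let v : κ → Finset ι := fun r => PX.filter (fun i =>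
    ∃ s t, IsC (X i) s t ∧ (ab r).1 ≤ s ∧ s ≤ p ∧ p ≤ t)
  have hkey : ∀ r ∈ S, ∀ r' ∈ S, (ab r).1 < (ab r').1 →
      (u r').card + (v r').card < (u r).card + (v r).card := by
    intro r hr r' hr' hlt
    have h3 := (hab r hr).1
    have h4 := (hab r' hr').1
    have hp1 := (hab r hr).2
    have hp2 := (hab r' hr').2
    have hrr : r ≠ r' := by rintro rfl; omega
    have hb : (ab r).2 < (ab r').2 := by
      by_contra hc
      exact hnest r' hr' r hr hrr.symm hlt.le (by omega)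
    have hu : u r' ⊆ u r := by
      intro k hk
      simp only [u, Finset.mem_filter, Finset.mem_univ, true_and] at hk ⊢
      obtain ⟨s, t, h5, h6, h7⟩ := hk
      exact ⟨s, t, h5, by omega, h7⟩
    have hv : v r' ⊆ v r := by
      intro k hk
      simp only [v, Finset.mem_filter] at hk ⊢
      obtain ⟨h0, s, t, h5, h6, h7⟩ := hk
      exact ⟨h0, s, t, h5, by omega, h7⟩
    -- a label of `r` which is not a label of `r'`
    obtain ⟨k, hk⟩ : ∃ k, ∀ l, R r' l ≠ R r k := by
      by_contra hc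
      push Not at hc
      obtain ⟨l0, e0⟩ := hc 0
      obtain ⟨l1, e1⟩ := hc 1
      exact hrr (hlin r r' 0 1 l0 l1 (by decide) e0.symm e1.symm)
    have hin : ∀ s t, IsC (X (R r k)) s t → (ab r').1 ≤ s → t ≤ (ab r').2 → False := by
      intro s t h5 h6 h7
      obtain ⟨l, hl⟩ := comp_in hP hC h5 (r := r') (fun n h8 h9 => h4.mem n (by omega) (by omega))
      exact hk l hl
    obtain ⟨s, t, h5, h6, h7⟩ := (hC r).2 _ _ h3 k
    have hs : s < (ab r').1 := by
      by_contra hc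
      exact hin s t h5 (by omega) (by omega)
    rcases Nat.lt_or_ge t p with htp | htp
    · -- left case
      have hr0c := (hab r0 hr0).1
      have hr0p := (hab r0 hr0).2
      have hmin' : (ab r0).1 ≤ (ab r).1 := hmin r hr
      obtain ⟨l, hl⟩ := comp_in hP hC h5 (r := r0)
        (fun n h8 h9 => hr0c.mem n (by omega) (by omega))
      have hlt : (u r').card < (u r).card := by
        apply Finset.card_lt_card
        refine ⟨hu, fun hcon => ?_⟩
        have hl1 : l ∈ u r := by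
          simp only [u, Finset.mem_filter, Finset.mem_univ, true_and]
          rw [hl]
          exact ⟨s, t, h5, h6, htp⟩
        have hl2 := hcon hl1
        simp only [u, Finset.mem_filter, Finset.mem_univ, true_and] at hl2
        rw [hl] at hl2
        obtain ⟨s', t', h8, h9, h10⟩ := hl2
        exact hin s' t' h8 h9 (by omega)
      have := Finset.card_le_card hv
      omega
    · -- middle case
      have hlt : (v r').card < (v r).card := by
        apply Finset.card_lt_card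
        refine ⟨hv, fun hcon => ?_⟩
        have hl1 : R r k ∈ v r := by
          simp only [v, PX, Finset.mem_filter, Finset.mem_biUnion, Finset.mem_image,
            Finset.mem_univ, true_and]
          exact ⟨⟨⟨r, hr, k, rfl⟩, h5.mem p (by omega) (by omega)⟩, s, t, h5, h6, by omega, htp⟩
        have hl2 := hcon hl1
        simp only [v, Finset.mem_filter] at hl2
        obtain ⟨-, s', t', h8, h9, h10, h11⟩ := hl2
        have := h5.unique h8 (p := p) (by omega) (by omega) (by omega) (by omega)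
        omega
      have := Finset.card_le_card hu
      omega
  have hinjS : Set.InjOn (fun r => (u r).card + (v r).card) (S : Set κ) := by
    intro r hr r' hr' he
    by_contra hrr
    simp only at he
    rcases lt_trichotomy (ab r).1 (ab r').1 with h | h | h
    · have := hkey r hr r' hr' h; omega
    · rcases Nat.le_total (ab r).2 (ab r').2 with h' | h'
      · exact hnest r hr r' hr' hrr h.ge h'
      · exact hnest r' hr' r hr (Ne.symm hrr) h.le h'
    · have := hkey r' hr' r hr h; omega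
  have hmaps : Set.MapsTo (fun r => (u r).card + (v r).card) (S : Set κ)
      (Finset.range (m + 4) : Set ℕ) := by
    intro r _
    simp only [Finset.coe_range, Set.mem_Iio]
    have h1 : (u r).card ≤ 3 := by
      calc (u r).card ≤ (Finset.univ : Finset (Fin 3)).card := Finset.card_le_card (by simp [u])
        _ = 3 := by simp
    have h2 : (v r).card ≤ m := (Finset.card_le_card (Finset.filter_subset _ _)).trans hPX
    omega
  have := Finset.card_le_card_of_injOn _ hmaps hinjS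
  simpa using this

end step

end Pool.Agent.W391
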