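import Pool.Agent.H599R3.SV.Fin
import Pool.Agent.H540R3.DG10

set_option autoImplicit false

/-!
# Essential hyperplanes
-/

namespace Pool.Agent.W391

open H540DG Pool.Agent.H599R3.RH Pool.Agent.H599R3.SV

variable {A : Type} {P : Pres A}

/-- essential hyperplanes of an element -/
def E (g : U P) (H : Hyp P) : Prop := os g (qo g H) ≠ 0

theorem zp_mem {W : List A} {g l : U P} (hg : Pi W g W) (hl : l ∈ Subgroup.zpowers g) :
    Pi W l W := (Subgroup.zpowers_le.2 (show g ∈ Dg P W from hg)) hl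

theorem zp_comm {g l f : U P} (hf : f * g = g * f) (hl : l ∈ Subgroup.zpowers g) :
    f * l = l * f := by
  have h1 : g ∈ Subgroup.centralizer {f} := by
    rw [Subgroup.mem_centralizer_iff]
    intro x hx
    rw [Set.mem_singleton_iff] at hx
    subst hx
    exact hf
  have h2 := (Subgroup.zpowers_le.2 h1) hl
  rw [Subgroup.mem_centralizer_iff] at h2
  exact h2 f rfl

theorem E.tr {g : U P} {H : Hyp P} (h : E g H) :
    ∃ l ∈ Subgroup.zpowers g, uu g (l • H) ≠ 0 := by
  classical
  have h1 := Finsupp.mapDomain_support (Finsupp.mem_support_iff.2 h)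
  rw [Finset.mem_image] at h1
  obtain ⟨J, h2, h3⟩ := h1
  obtain ⟨l, hl, h4⟩ := qo_eq.1 h3
  exact ⟨l, hl, by rw [h4]; exact Finsupp.mem_support_iff.1 h2⟩

theorem E.vz {W : List A} {g : U P} (hg : Pi W g W) {H : Hyp P} (h : E g H) : Vz W H := by
  obtain ⟨l, hl, h1⟩ := h.tr
  have h2 := vz_of_uu hg h1
  have h3 := vz_smul (zp_mem hg hl).symm h2
  rwa [inv_smul_smul] at h3

theorem E.smul_iff {g l : U P} (hl : l * g = g * l) (H : Hyp P) : E g (l • H) ↔ E g H := by
  unfold E
  rw [os_inv hl]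

theorem E.smul_self (g : U P) (H : Hyp P) : E g (g • H) ↔ E g H := E.smul_iff rfl H

theorem E.ne_fix {W : List A} {g : U P} {H : Hyp P} (hH : Vz W H) (hg : g • H = H) : ¬ E g H := by
  intro h
  have := H.lt
  rcases disj hH hg h with h1 | h1 <;> linarith

theorem ab_pair {W : List A} {a b : U P} (ha : Pi W a W) (hb : Pi W b W) (hab : a * b = b * a) :
    Ab W (Subgroup.closure {a, b}) := by
  constructor
  · intro x hx
    have h1 : Subgroup.closure {a, b} ≤ Dg P W := by
      rw [Subgroup.closure_le]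
      rintro z (rfl | hz)
      · exact ha
      · rw [Set.mem_singleton_iff] at hz
        subst hz
        exact hb
    exact h1 hx
  · intro x hx y hy
    have h1 : ∀ s ∈ ({a, b} : Set (U P)), ∀ t ∈ ({a, b} : Set (U P)), s * t = t * s := by
      rintro s (rfl | hs) t (rfl | ht)
      · rfl
      · rw [Set.mem_singleton_iff] at ht; subst ht; exact hab
      · rw [Set.mem_singleton_iff] at hs; subst hs; exact hab.symm
      · rw [Set.mem_singleton_iff] at hs ht; subst hs; subst ht; rfl
    have h2 : Subgroup.closure {a, b} ≤ Subgroup.centralizer ({a, b} : Set (U P)) := by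
      rw [Subgroup.closure_le]
      intro s hs
      rw [SetLike.mem_coe, Subgroup.mem_centralizer_iff]
      intro t ht
      exact h1 t ht s hs
    have h3 : Subgroup.closure {a, b} ≤
        Subgroup.centralizer (Subgroup.closure {a, b} : Set (U P)) := by
      rw [Subgroup.closure_le]
      intro s hs
      rw [SetLike.mem_coe, Subgroup.mem_centralizer_iff]
      intro t ht
      have := h2 ht
      rw [Subgroup.mem_centralizer_iff] at this
      exact (this s hs).symm
    have h4 := h3 hx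
    rw [Subgroup.mem_centralizer_iff] at h4
    exact (h4 y hy).symm

/-- hyperplanes essential for one of two commuting elements and not for the other -/
theorem fixE {W : List A} {a b : U P} (ha : Pi W a W) (hb : Pi W b W) (hab : a * b = b * a)
    {H : Hyp P} (h1 : E b H) (h2 : ¬ E a H) : a • H = H := by
  have hΓ := ab_pair ha hb hab
  have ma : a ∈ Subgroup.closure {a, b} := Subgroup.subset_closure (Or.inl rfl)
  have mb : b ∈ Subgroup.closure {a, b} := Subgroup.subset_closure (Or.inr rfl)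
  have h3 : cc (Subgroup.closure {a, b}) a (qg _ H) = 0 := by
    by_contra h4
    exact h2 ((cc_iff hΓ ma H).1 h4)
  have h4 := (cc_iff hΓ mb H).2 h1
  obtain ⟨i, hi, h5⟩ := fix_pow hΓ ma mb H h3 h4
  exact rc ha (h1.vz hb) hi h5

/-- overlapping hyperplanes -/
def Ov (H J : Hyp P) : Prop := ¬ (J.hi ≤ H.lo ∨ H.hi ≤ J.lo)

theorem Ov.symm {H J : Hyp P} (h : Ov H J) : Ov J H := by
  intro h1
  exact h h1.symm

theorem ov_of_sd {ρ : ℚ} {H J : Hyp P} (h : Sd ρ H) (h' : Sd ρ J) : Ov H J := by
  obtain ⟨h1, h2⟩ := h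
  obtain ⟨h3, h4⟩ := h'
  rintro (h5 | h5) <;> linarith

theorem Ov.sd {H J : Hyp P} (h : Ov H J) : ∃ ρ, Sd ρ H ∧ Sd ρ J := by
  unfold Ov at h
  push Not at h
  obtain ⟨h1, h2⟩ := h
  have h3 := H.lt
  have h4 := J.lt
  obtain ⟨ρ, h5, h6⟩ := exists_between (show max H.lo J.lo < min H.hi J.hi by
    rw [max_lt_iff, lt_min_iff, lt_min_iff]; exact ⟨⟨h3, h1⟩, ⟨h2, h4⟩⟩)
  rw [max_lt_iff] at h5
  rw [lt_min_iff] at h6
  exact ⟨ρ, ⟨h5.1, h6.1⟩, ⟨h5.2, h6.2⟩⟩

/-- overlapping essential hyperplanes have the same behaviour with respect to commuting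
elements -/
theorem ovl {W : List A} {a b : U P} (ha : Pi W a W) (hb : Pi W b W) (hab : a * b = b * a)
    {H J : Hyp P} (hJ : E b J) (ho : Ov H J) (h : E a H) : E a J := by
  by_contra h2
  have h3 := fixE ha hb hab hJ h2
  have h4 := disj (hJ.vz hb) h3 h
  exact ho h4.symm

/-- the central version of `cc_iff` -/
theorem cc_central {Γ : Subgroup (U P)} {x : U P} (hx : x ∈ Γ)
    (hc : ∀ l ∈ Γ, l * x = x * l) {H : Hyp P} (h : E x H) : cc Γ x (qg Γ H) ≠ 0 := by
  classical
  rw [cc_eq hx, mapDomain_val]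
  have h1 : ∀ O ∈ (os x).support.filter (fun O => pj hx O = qg Γ H),
      os x O = os x (qo x H) := by
    intro O hO
    rw [Finset.mem_filter] at hO
    induction O using Quotient.inductionOn with
    | h H' =>
      have h2 : qg Γ H' = qg Γ H := hO.2
      obtain ⟨l, hl, rfl⟩ := qg_eq.1 h2
      exact os_inv (hc l hl) H
  rw [Finset.sum_congr rfl h1, Finset.sum_const, nsmul_eq_mul]
  refine mul_ne_zero ?_ h
  have h3 : qo x H ∈ (os x).support.filter (fun O => pj hx O = qg Γ H) := by
    rw [Finset.mem_filter, Finsupp.mem_support_iff]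
    exact ⟨h, rfl⟩
  have h4 := Finset.card_pos.2 ⟨_, h3⟩
  exact_mod_cast h4.ne'

/-- the orbit of an essential hyperplane under commuting elements, modulo the element -/
theorem E.pigeon {f : U P} {H : Hyp P} (h : E f H) {x : U P} (hx : x * f = f * x) :
    ∃ m : ℕ, m ≠ 0 ∧ ∃ l ∈ Subgroup.zpowers f, x ^ m • H = l • H := by
  classical
  have hc : ∀ i : ℕ, x ^ i * f = f * x ^ i := fun i =>
    (Commute.pow_left (show Commute x f from hx) i)
  have hmem : ∀ i : ℕ, qo f (x ^ i • H) ∈ (os f).support := by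
    intro i
    rw [Finsupp.mem_support_iff]
    exact (E.smul_iff (hc i) H).2 h
  obtain ⟨i, j, hij, h1⟩ : ∃ i j : ℕ, i < j ∧ qo f (x ^ j • H) = qo f (x ^ i • H) := by
    obtain ⟨i, -, j, -, hij, h1⟩ := Set.infinite_univ.exists_ne_map_eq_of_mapsTo
      (f := fun i : ℕ => qo f (x ^ i • H)) (t := ((os f).support : Set (Qo f)))
      (fun i _ => hmem i) (Finset.finite_toSet _)
    rcases lt_or_gt_of_ne hij with h2 | h2
    · exact ⟨i, j, h2, h1.symm⟩
    · exact ⟨j, i, h2, h1⟩
  obtain ⟨l, hl, h2⟩ := qo_eq.1 h1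
  refine ⟨j - i, by omega, l, hl, ?_⟩
  have h3 : x ^ j = x ^ i * x ^ (j - i) := by rw [← pow_add]; congr 1; omega
  have h4 : l * x ^ i = x ^ i * l := (zp_comm (hc i) hl).symm
  rw [smul_smul, h4, mul_smul, h3, mul_smul] at h2
  exact (smul_left_cancel _ h2).symm

end Pool.Agent.W391
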