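import Pool.Agent.W391.D1

set_option autoImplicit false

/-!
# Cuts of the base word
-/

namespace Pool.Agent.W391

open H540DG Pool.Agent.H599R3.RH Pool.Agent.H599R3.SV

variable {A : Type} {P : Pres A}

/-! ### moves in three parts -/

/-- three part moves -/
def M3 (x y z : List A) (h : U P) (x' y' z' : List A) : Prop :=
  ∃ α μ, Pi x α x' ∧ Mv y [] z μ y' z' ∧ h = wh [] (y ++ z) α * wh x' [] μ

theorem M3.refl (x y z : List A) : M3 x y z (1 : U P) x y z :=
  ⟨1, 1, Pi.refl _, Mv.refl _ _ _, by simp⟩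

theorem M3.trans {x y z x' y' z' x'' y'' z'' : List A} {h h' : U P} (H : M3 x y z h x' y' z')
    (H' : M3 x' y' z' h' x'' y'' z'') : M3 x y z (h * h') x'' y'' z'' := by
  obtain ⟨α, μ, h1, h2, rfl⟩ := H
  obtain ⟨α', μ', h1', h2', rfl⟩ := H'
  refine ⟨α * α', μ * μ', h1.trans h1', h2.trans h2', ?_⟩
  have h3 : Pi (y ++ z) μ (y' ++ z') := h2.pi
  have h4 := interchange h1' h3
  rw [map_mul, map_mul]
  calc wh [] (y ++ z) α * wh x' [] μ * (wh [] (y' ++ z') α' * wh x'' [] μ')
      = wh [] (y ++ z) α * (wh x' [] μ * wh [] (y' ++ z') α') * wh x'' [] μ' := by group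
    _ = wh [] (y ++ z) α * (wh [] (y ++ z) α' * wh x'' [] μ) * wh x'' [] μ' := by rw [h4]
    _ = _ := by group

/-- **Decomposition in three parts** -/
theorem dec2 (L : List (OE P)) : ∀ (g : U P) (x y z W' : List A),
    IsPath (x ++ (y ++ z)) L W' →
    (∀ J ∈ hys g L, J.hi ≤ th g x.length ∨
      (th g x.length ≤ J.lo ∧ J.hi ≤ th g (x.length + y.length)) ∨
      th g (x.length + y.length) ≤ J.lo) →
    ∃ x' y' z', W' = x' ++ (y' ++ z') ∧ M3 x y z (pv L) x' y' z' := by
  induction L with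
  | nil =>
    intro g x y z W' h _
    exact ⟨x, y, z, h.symm, by simpa using M3.refl x y z⟩
  | cons e L ih =>
    intro g x y z W' h hJ
    obtain ⟨h1, h2⟩ := h
    have ny : (0 : ℚ) ≤ y.length := Nat.cast_nonneg _
    have hJ' : ∀ J ∈ hys (g * e.val) L, J.hi ≤ th g x.length ∨
      (th g x.length ≤ J.lo ∧ J.hi ≤ th g (x.length + y.length)) ∨
      th g (x.length + y.length) ≤ J.lo :=
      fun J hJ1 => hJ J (by simp [hys, hJ1])
    have he := hJ (ohyp g e) (by simp [hys])
    rw [lo_ohyp, hi_ohyp, OrderIso.le_iff_le, OrderIso.le_iff_le, OrderIso.le_iff_le,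
      OrderIso.le_iff_le] at he
    rcases he with he | ⟨he, he'⟩ | he
    · obtain ⟨e', rfl, h4⟩ := edge_left h1.symm he
      rw [w_tgt, List.nil_append] at h2
      have hth : ∀ t : ℚ, 0 ≤ t → th (g * (e'.w [] (y ++ z)).val) (e'.tgt.length + t) =
          th g (x.length + t) := by
        intro t ht
        rw [map_mul, RelIso.mul_apply]
        have := th_w_ge [] (y ++ z) e' ht
        simp only [List.length_nil, Nat.cast_zero, zero_add] at this
        rw [this, h4]
      have a0 := hth 0 le_rfl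
      rw [add_zero, add_zero] at a0
      have a1 := hth y.length ny
      obtain ⟨x', y', z', h5, h6⟩ := ih _ _ _ _ _ h2 (by
        intro J hJ1
        have h7 := hJ' J hJ1
        rw [a0, a1]
        exact h7)
      refine ⟨x', y', z', h5, ?_⟩
      rw [pv_cons]
      refine M3.trans ⟨e'.val, 1, ?_, Mv.refl _ _ _, ?_⟩ h6
      · rw [← h4]; exact Pi.oe e'
      · rw [map_one, mul_one, wh_val]
    · obtain ⟨e', rfl, h4⟩ := edge_mid h1.symm he he'
      rw [w_tgt] at h2
      have hth : ∀ t : ℚ, t ≤ x.length → th (g * (e'.w x z).val) t = th g t := by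
        intro t ht
        rw [map_mul, RelIso.mul_apply, th_w_le _ _ _ ht]
      have hth2 : ∀ t : ℚ, 0 ≤ t → th (g * (e'.w x z).val)
          (x.length + e'.tgt.length + t) = th g (x.length + y.length + t) := by
        intro t ht
        rw [map_mul, RelIso.mul_apply]
        have := th_w_ge x z e' ht
        rw [this, h4]
      have a0 := hth x.length le_rfl
      have a2 := hth2 0 le_rfl
      rw [add_zero, add_zero] at a2
      obtain ⟨x', y', z', h5, h6⟩ := ih _ _ _ _ _ h2 (by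
        intro J hJ1
        have h7 := hJ' J hJ1
        rw [a0, a2]
        exact h7)
      refine ⟨x', y', z', h5, ?_⟩
      rw [pv_cons]
      refine M3.trans ⟨1, wh [] z e'.val, Pi.refl _, ⟨e'.val, 1, ?_, Pi.refl _, ?_⟩, ?_⟩ h6
      · rw [← h4]; exact Pi.oe e'
      · simp
      · rw [map_one, one_mul, wh_wh, ← wh_val]; simp
    · have h3 : e.src = (x ++ y) ++ z := by rw [← h1, List.append_assoc]
      obtain ⟨e', rfl, h4⟩ := edge_right h3 (by rw [List.length_append]; push_cast; exact he)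
      rw [w_tgt, List.append_nil, List.append_assoc] at h2
      have hth : ∀ t : ℚ, t ≤ x.length + y.length →
          th (g * (e'.w (x ++ y) []).val) t = th g t := by
        intro t ht
        rw [map_mul, RelIso.mul_apply, th_w_le]
        rw [List.length_append]; push_cast; exact ht
      obtain ⟨x', y', z', h5, h6⟩ := ih _ _ _ _ _ h2 (by
        intro J hJ1
        have h7 := hJ' J hJ1
        rw [hth _ le_rfl, hth _ (by linarith)]
        exact h7)
      refine ⟨x', y', z', h5, ?_⟩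
      rw [pv_cons]
      refine M3.trans ⟨1, wh y [] e'.val, Pi.refl _, ⟨1, e'.val, Pi.refl _, ?_, ?_⟩, ?_⟩ h6
      · rw [← h4]; exact Pi.oe e'
      · simp
      · rw [map_one, one_mul, wh_wh, ← wh_val]; simp

/-! ### slices -/

/-- slice of a word -/
def sl (W : List A) (a b : ℕ) : List A := (W.drop a).take (b - a)

theorem take_sl (W : List A) {a b : ℕ} (h : a ≤ b) : W.take b = W.take a ++ sl W a b := by
  obtain ⟨k, rfl⟩ := Nat.exists_eq_add_of_le h
  unfold sl
  rw [Nat.add_sub_cancel_left, List.take_add]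

theorem drop_sl (W : List A) {a b : ℕ} (h : a ≤ b) : W.drop a = sl W a b ++ W.drop b := by
  obtain ⟨k, rfl⟩ := Nat.exists_eq_add_of_le h
  unfold sl
  rw [Nat.add_sub_cancel_left, ← List.drop_drop, List.take_append_drop]

theorem sl_sl (W : List A) {a b c : ℕ} (h : a ≤ b) (h' : b ≤ c) :
    sl W a c = sl W a b ++ sl W b c := by
  obtain ⟨k, rfl⟩ := Nat.exists_eq_add_of_le h
  obtain ⟨l, rfl⟩ := Nat.exists_eq_add_of_le h'
  unfold sl
  rw [Nat.add_sub_cancel_left, Nat.add_sub_cancel_left, ← List.drop_drop,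
    show a + k + l - a = k + l by omega, List.take_add]

theorem split2 (W : List A) (a : ℕ) : W.take a ++ W.drop a = W := List.take_append_drop a W

theorem split3 (W : List A) {a b : ℕ} (h : a ≤ b) : W.take a ++ (sl W a b ++ W.drop b) = W := by
  rw [← drop_sl W h, split2]

theorem len_take (W : List A) {a : ℕ} (h : a ≤ W.length) : (W.take a).length = a := by
  rw [List.length_take]; omega

theorem len_sl (W : List A) {a b : ℕ} (h : b ≤ W.length) : (sl W a b).length = b - a := by
  unfold sl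
  rw [List.length_take, List.length_drop]; omega

theorem app_inj {W x y : List A} {a : ℕ} (h : W = x ++ y) (hx : x.length = a) :
    x = W.take a ∧ y = W.drop a := by
  subst h
  subst hx
  simp

/-! ### cuts -/

/-- the cut `a` is preserved -/
def Fx (W : List A) (g : U P) (a : ℕ) : Prop :=
  Mv (W.take a) [] (W.drop a) g (W.take a) (W.drop a)

/-- the element does nothing between the cuts `a` and `b` -/
def Tv (W : List A) (a b : ℕ) (g : U P) : Prop :=
  Mv (W.take a) (sl W a b) (W.drop b) g (W.take a) (W.drop b)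

theorem nsd_iff {ρ : ℚ} {J : Hyp P} : ¬ Sd ρ J ↔ J.hi ≤ ρ ∨ ρ ≤ J.lo := by
  unfold Sd
  rw [not_and_or, not_lt, not_lt, or_comm]

theorem Fx.th {W : List A} {g : U P} {a : ℕ} (h : Fx W g a) (ha : a ≤ W.length) :
    H540DG.th g a = a := by
  have := Mv.th_cut h
  rwa [len_take W ha] at this

theorem Fx.nsd {W : List A} {g : U P} {a : ℕ} (h : Fx W g a) (ha : a ≤ W.length) {J : Hyp P}
    (hJ : uu g J ≠ 0) : ¬ Sd a J := by
  intro h1
  apply hJ
  refine cut_zero h ?_
  rwa [len_take W ha]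

theorem uu_of_mem {g : U P} {L : List (OE P)} (hv : pv L = g) (hn : (hys 1 L).Nodup) {J : Hyp P}
    (h : J ∈ hys 1 L) : uu g J ≠ 0 := by
  have := cr_mem J 1 L hn h
  rw [one_mul, hv] at this
  rw [uu_apply]
  exact sub_ne_zero.2 this

theorem mem_of_uu {g : U P} {L : List (OE P)} (hv : pv L = g) {J : Hyp P}
    (h : uu g J ≠ 0) : J ∈ hys 1 L := by
  by_contra h1
  apply h
  have := cr_not_mem J 1 L h1
  rw [one_mul, hv] at this
  rw [uu_apply, this, sub_self]

theorem th_one_apply (t : ℚ) : H540DG.th (1 : U P) t = t := by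
  rw [map_one]; rfl

theorem crit1 {W W' : List A} {g : U P} (hg : Pi W g W') {a : ℕ} (ha : a ≤ W.length)
    (h : ∀ J, uu g J ≠ 0 → ¬ Sd a J) :
    ∃ a', a' ≤ W'.length ∧ H540DG.th g a' = a ∧
      Mv (W.take a) [] (W.drop a) g (W'.take a') (W'.drop a') := by
  obtain ⟨L, h1, h2, h3⟩ := min_path hg 1
  have h4 : IsPath (W.take a ++ ([] ++ W.drop a)) L W' := by
    rw [List.nil_append, split2]; exact h1
  obtain ⟨x', c', h5, h6⟩ := dec_m L 1 _ _ _ _ h4 (by
    intro J hJ
    have h5 := h J (uu_of_mem h2 h3 hJ)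
    rw [nsd_iff] at h5
    rw [len_take W ha, th_one_apply, th_one_apply, List.length_nil, Nat.cast_zero, add_zero]
    exact h5)
  rw [h2] at h6
  have h7 := Mv.th_cut h6
  rw [len_take W ha] at h7
  rw [List.nil_append] at h5
  obtain ⟨e1, e2⟩ := app_inj h5 rfl
  refine ⟨x'.length, ?_, h7, ?_⟩
  · rw [h5, List.length_append]; omega
  · rw [← e1, ← e2]; exact h6

theorem th_nat_inj {g : U P} {a b : ℕ} {t : ℚ} (h : H540DG.th g a = t) (h' : H540DG.th g b = t) :
    a = b := by
  have := (H540DG.th g).injective (h.trans h'.symm)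
  exact_mod_cast this

theorem crit {W : List A} {g : U P} (hg : Pi W g W) {a : ℕ} (ha : a ≤ W.length)
    (h0 : H540DG.th g a = a) (h : ∀ J, uu g J ≠ 0 → ¬ Sd a J) : Fx W g a := by
  obtain ⟨a', h1, h2, h3⟩ := crit1 hg ha h
  have := th_nat_inj h2 h0
  subst this
  exact h3

/-- th at the right end of the middle word -/
theorem mv_end {x m c x' c' : List A} {g : U P} (h : Mv x m c g x' c') :
    H540DG.th g (x'.length + m.length) = x.length + m.length := by
  obtain ⟨α, β, h1, h2, rfl⟩ := h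
  rw [map_mul, RelIso.mul_apply, th_wh_right]
  rw [th_wh_le _ _ _ (by rw [List.length_append]; push_cast; exact le_rfl)]
  exact h1.th (Nat.cast_nonneg _)

theorem mv_beg {x m c x' c' : List A} {g : U P} (h : Mv x m c g x' c') :
    H540DG.th g (x'.length) = x.length := by
  obtain ⟨α, β, h1, h2, rfl⟩ := h
  rw [map_mul, RelIso.mul_apply, th_wh_right]
  rw [th_wh_le _ _ _ (by rw [List.length_append]; push_cast; linarith [Nat.cast_nonneg (α := ℚ) m.length])]
  have := h1.th (le_refl (0 : ℚ))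
  rwa [add_zero, add_zero] at this

theorem critT1 {W W' : List A} {g : U P} (hg : Pi W g W') {a b : ℕ} (hab : a ≤ b)
    (hb : b ≤ W.length) (h : ∀ J, uu g J ≠ 0 → J.hi ≤ a ∨ b ≤ J.lo) :
    ∃ x' c', W' = x' ++ (sl W a b ++ c') ∧ Mv (W.take a) (sl W a b) (W.drop b) g x' c' := by
  obtain ⟨L, h1, h2, h3⟩ := min_path hg 1
  have h4 : IsPath (W.take a ++ (sl W a b ++ W.drop b)) L W' := by
    rw [split3 W hab]; exact h1
  obtain ⟨x', c', h5, h6⟩ := dec_m L 1 _ _ _ _ h4 (by
    intro J hJ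
    have h5 := h J (uu_of_mem h2 h3 hJ)
    rw [len_take W (hab.trans hb), len_sl W hb, th_one_apply, th_one_apply]
    push_cast [hab]
    rw [add_sub_cancel]
    exact h5)
  rw [h2] at h6
  exact ⟨x', c', h5, h6⟩

theorem critT {W : List A} {g : U P} (hg : Pi W g W) {a b : ℕ} (hab : a ≤ b)
    (hb : b ≤ W.length) (h0 : H540DG.th g a = a)
    (h : ∀ J, uu g J ≠ 0 → J.hi ≤ a ∨ b ≤ J.lo) : Tv W a b g := by
  obtain ⟨x', c', h1, h2⟩ := critT1 hg hab hb h
  have h3 := mv_beg h2
  rw [len_take W (hab.trans hb)] at h3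
  have h4 := th_nat_inj h3 h0
  obtain ⟨e1, e2⟩ := app_inj h1 h4
  have h5 : c' = W.drop b := by
    have h6 : W = (x' ++ sl W a b) ++ c' := by rw [List.append_assoc]; exact h1
    refine (app_inj h6 ?_).2
    rw [List.length_append, len_sl W hb, h4]; omega
  unfold Tv
  rw [h5, e1] at h2
  exact h2

/-- **Touched letters** -/
theorem touched {W W' : List A} {g : U P} (hg : Pi W g W') {n : ℕ} (hn : n + 1 ≤ W.length)
    (h : ∀ J, uu g J ≠ 0 → ¬ (J.lo ≤ n ∧ ((n : ℚ) + 1) ≤ J.hi)) :
    ∀ J, uu g J ≠ 0 → J.hi ≤ n ∨ ((n + 1 : ℕ) : ℚ) ≤ J.lo := by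
  obtain ⟨L, h1, h2, h3⟩ := min_path hg 1
  intro J hJ
  by_contra hcon
  obtain ⟨A0, x, B, h4, h5, h6⟩ := first_hys (fun J => ¬ (J.hi ≤ n ∨ ((n + 1 : ℕ) : ℚ) ≤ J.lo)) L 1
    ⟨J, mem_of_uu h2 hJ, hcon⟩
  rw [one_mul] at h6
  rw [h4] at h1
  obtain ⟨W1, h7, h8⟩ := h1.split
  obtain ⟨h8, -⟩ := h8
  have hl : (sl W n (n + 1)).length = 1 := by rw [len_sl W hn]; omega
  have h9 : IsPath (W.take n ++ (sl W n (n + 1) ++ W.drop (n + 1))) A0 W1 := by
    rw [split3 W (Nat.le_succ n)]; exact h7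
  obtain ⟨x', c', h10, h11⟩ := dec_m A0 1 _ _ _ _ h9 (by
    intro J hJ
    have h5' : J.hi ≤ n ∨ ((n + 1 : ℕ) : ℚ) ≤ J.lo := by_contra (fun h => h5 J hJ h)
    rw [len_take W (by omega), hl, th_one_apply, th_one_apply]
    rcases h5' with h | h
    · exact Or.inl h
    · right; push_cast at h ⊢; exact h)
  have e1 := mv_beg h11
  have e2 := mv_end h11
  rw [len_take W (by omega), hl] at e2
  rw [len_take W (by omega)] at e1
  have hmem : ohyp (pv A0) x ∈ hys 1 L := by
    rw [h4, hys_append]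
    simp [hys]
  apply h _ (uu_of_mem h2 h3 hmem)
  rw [not_or, not_le, not_le] at h6
  obtain ⟨h12, h13⟩ := h6
  rw [hi_ohyp, ← e1, OrderIso.lt_iff_lt] at h12
  push_cast at h13
  rw [lo_ohyp] at h13
  push_cast at e2
  rw [← e2, OrderIso.lt_iff_lt] at h13
  have h14 : x'.length < x.a.length + x.top.length := by exact_mod_cast h12
  have h15 : x.a.length < x'.length + 1 := by exact_mod_cast h13
  rw [lo_ohyp, hi_ohyp, ← e2]
  constructor
  · rw [← e1, OrderIso.le_iff_le]
    exact_mod_cast (show x.a.length ≤ x'.length by omega)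
  · rw [OrderIso.le_iff_le]
    exact_mod_cast (show x'.length + 1 ≤ x.a.length + x.top.length by omega)

end Pool.Agent.W391
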