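import Pool.Agent.W391.D2

set_option autoImplicit false

/-!
# Blocks
-/

namespace Pool.Agent.W391

open H540DG Pool.Agent.H599R3.RH Pool.Agent.H599R3.SV

variable {A : Type} {P : Pres A}

theorem ohyp_mv' {g k : U P} {x : OE P} {a' c' : List A} (h : Mv x.a x.top x.c k a' c') :
    ohyp (g * k) ⟨a', x.r, x.s, c'⟩ = ohyp g x := by
  rcases x with ⟨a, r, s, c⟩
  cases s
  · obtain ⟨α, β, hα, hβ, e⟩ := h
    simp only [ohyp, OE.edge] at *
    rw [if_neg (by simp), if_neg (by simp)]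
    symm
    rw [hyp_eq]
    have h1 := Mv.cross r hα hβ
    refine ⟨rfl, wh [] (r.1.1 ++ c) α * wh (a' ++ r.1.1) [] β, ⟨α, β, hα, hβ, rfl⟩, ?_⟩
    change g * k * (gen ⟨a', r, c'⟩)⁻¹ = g * (gen ⟨a, r, c⟩)⁻¹ * _
    have h2 : k = wh [] (r.1.2 ++ c) α * wh (a' ++ r.1.2) [] β := e
    rw [← h2] at h1
    have h3 : wh [] (r.1.1 ++ c) α * wh (a' ++ r.1.1) [] β =
        gen ⟨a, r, c⟩ * k * (gen ⟨a', r, c'⟩)⁻¹ := by rw [← h1]; group
    rw [h3]
    group
  · symm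
    change hyp g ⟨a, r, c⟩ = hyp (g * k) ⟨a', r, c'⟩
    rw [hyp_eq]
    exact ⟨rfl, k, h, rfl⟩

/-- the first hyperplane with a property is adjacent to the base, ordered version -/
theorem adj0 {W W' : List A} {g : U P} (hg : Pi W g W') (p : Hyp P → Prop)
    (h : ∃ J, uu g J ≠ 0 ∧ p J)
    (hno : ∀ (g1 : U P) (x : OE P) (J : Hyp P), Pi W g1 x.src → uu g (ohyp g1 x) ≠ 0 →
      p (ohyp g1 x) → uu g1 J ≠ 0 → uu g J ≠ 0 → ¬ p J → ¬ Ov (ohyp g1 x) J) :
    ∃ x : OE P, x.src = W ∧ uu g (ohyp 1 x) ≠ 0 ∧ p (ohyp 1 x) := by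
  obtain ⟨L, h1, h2, h3⟩ := min_path hg 1
  obtain ⟨J0, hJ0, hp0⟩ := h
  obtain ⟨A0, x, B, h4, h5, h6⟩ := first_hys p L 1 ⟨J0, mem_of_uu h2 hJ0, hp0⟩
  rw [one_mul] at h6
  rw [h4] at h1
  obtain ⟨W1, h7, h8⟩ := h1.split
  obtain ⟨h8, -⟩ := h8
  subst h8
  have hpi : Pi W (pv A0) x.src := ⟨A0, h7, rfl⟩
  obtain ⟨L', f1, f2, f3⟩ := min_path hpi.symm (pv A0)
  have hmem : ohyp (pv A0) x ∈ hys 1 L := by
    rw [h4, hys_append]
    simp [hys]
  have hsub : ∀ J ∈ hys (pv A0) L', J ∈ hys 1 A0 := by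
    intro J hJ
    by_contra hJ2
    apply cr_mem J (pv A0) L' f3 hJ
    rw [f2, mul_inv_cancel]
    have := cr_not_mem J 1 A0 hJ2
    rw [one_mul] at this
    exact this.symm
  have hsub2 : ∀ J ∈ hys 1 A0, J ∈ hys 1 L := by
    intro J hJ
    rw [h4, hys_append]
    exact List.mem_append_left _ hJ
  have hnd : (hys 1 A0).Nodup := by
    rw [h4, hys_append] at h3
    exact (List.nodup_append.1 h3).1
  obtain ⟨x', c', e1, e2⟩ := dec_m L' (pv A0) x.a x.top x.c W f1 (by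
    intro J hJ
    have g1 := hsub J hJ
    have g2 := hno _ _ J hpi (uu_of_mem h2 h3 hmem) h6 (uu_of_mem rfl hnd g1)
      (uu_of_mem h2 h3 (hsub2 J g1)) (h5 J g1)
    unfold Ov at g2
    rw [not_not, hi_ohyp, lo_ohyp] at g2
    exact g2)
  rw [f2] at e2
  have e3 := ohyp_mv' (g := pv A0) e2
  rw [mul_inv_cancel] at e3
  refine ⟨⟨x', x.r, x.s, c'⟩, e1.symm, ?_, ?_⟩
  · rw [e3]; exact uu_of_mem h2 h3 hmem
  · rw [e3]; exact h6

/-- the first hyperplane with a property is adjacent to the base -/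
theorem adj {W W' : List A} {g : U P} (hg : Pi W g W') (p : Hyp P → Prop)
    (h : ∃ J, uu g J ≠ 0 ∧ p J)
    (hno : ∀ H J, uu g H ≠ 0 → p H → uu g J ≠ 0 → ¬ p J → ¬ Ov H J) :
    ∃ x : OE P, x.src = W ∧ uu g (ohyp 1 x) ≠ 0 ∧ p (ohyp 1 x) :=
  adj0 hg p h (fun _ _ J _ h1 h2 _ h3 h4 => hno _ J h1 h2 h3 h4)

/-- hyperplanes adjacent to the base have integral ends -/
theorem adj_ends {W : List A} {x : OE P} (h : x.src = W) : ∃ s t : ℕ, s < t ∧ t ≤ W.length ∧
    (ohyp 1 x).lo = s ∧ (ohyp 1 x).hi = t := by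
  refine ⟨x.a.length, x.a.length + x.top.length, ?_, ?_, ?_, ?_⟩
  · have := top_pos x; omega
  · rw [← h]
    change _ ≤ (x.a ++ (x.top ++ x.c)).length
    simp only [List.length_append]
    omega
  · rw [lo_ohyp, th_one_apply]
  · rw [hi_ohyp, th_one_apply]; push_cast; rfl

theorem th_zp {g l : U P} {t : ℚ} (h : H540DG.th g t = t) (hl : l ∈ Subgroup.zpowers g) :
    H540DG.th l t = t := by
  obtain ⟨k, rfl⟩ := Subgroup.mem_zpowers_iff.1 hl
  have h1 : g ∈ (MulAction.stabilizer (ℚ ≃o ℚ) t).comap (H540DG.th (P := P)) := h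
  exact Subgroup.zpow_mem _ h1 k

/-- fixed cuts are not straddled by essential hyperplanes -/
theorem Fx.nsdE {W : List A} {g : U P} {a : ℕ} (h : Fx W g a) (ha : a ≤ W.length) {J : Hyp P}
    (hJ : E g J) : ¬ Sd a J := by
  obtain ⟨l, hl, h1⟩ := hJ.tr
  have h2 := h.nsd ha h1
  rwa [sd_smul (th_zp (h.th ha) hl)] at h2

/-- pigeonhole for positions -/
theorem pig {N : ℕ} {f : ℚ ≃o ℚ} (Q : ℕ → Prop) (h1 : ∀ n, Q n → n ≤ N)
    (h2 : ∀ n, Q n → ∃ n', Q n' ∧ f n' = n) : ∀ n, Q n → f n = n := by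
  intro n hn
  have h3 : ∀ k : ℕ, ∃ m : ℕ, Q m ∧ (f ^ k) m = n := by
    intro k
    induction k with
    | zero => exact ⟨n, hn, by simp⟩
    | succ k ih =>
      obtain ⟨m, h4, h5⟩ := ih
      obtain ⟨m', h6, h7⟩ := h2 m h4
      exact ⟨m', h6, by rw [pow_succ, RelIso.mul_apply, h7, h5]⟩
  choose m hm1 hm2 using h3
  have h4 : ∀ k, m k ∈ Set.Iic N := fun k => h1 _ (hm1 k)
  obtain ⟨i, -, j, -, hij, h5⟩ := Set.infinite_univ.exists_ne_map_eq_of_mapsTo
      (f := m) (t := Set.Iic N) (fun i _ => h4 i) (Set.finite_Iic N)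
  obtain ⟨i, j, hij, h5⟩ : ∃ i j : ℕ, i < j ∧ m i = m j := by
    rcases lt_or_gt_of_ne hij with h6 | h6
    · exact ⟨i, j, h6, h5⟩
    · exact ⟨j, i, h6, h5.symm⟩
  have h6 := hm2 i
  have h7 := hm2 j
  rw [← h5] at h7
  have h8 : (f ^ (j - i)) (m i) = m i := by
    apply (f ^ i).injective
    rw [← RelIso.mul_apply, ← pow_add, show i + (j - i) = j by omega, h7, h6]
  have h9 := iso_fix f (show j - i ≠ 0 by omega) h8
  have h10 : ∀ k, (f ^ k) (m i : ℚ) = m i := by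
    intro k
    induction k with
    | zero => simp
    | succ k ih => rw [pow_succ, RelIso.mul_apply, h9, ih]
  rw [h10] at h6
  rw [← h6]
  exact h9

/-- a block of an element: an interval between two fixed cuts, all interior cuts are straddled
by essential hyperplanes -/
structure Blk (W : List A) (f : U P) (α β : ℕ) : Prop where
  pi : Pi W f W
  lt : α < β
  le : β ≤ W.length
  fa : Fx W f α
  fb : Fx W f β
  good : ∀ H, uu f H ≠ 0 → α ≤ H.lo → H.hi ≤ β → E f H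
  int : ∀ ρ : ℕ, α < ρ → ρ < β → ∃ H, E f H ∧ Sd ρ H
  ne : ∃ H, E f H ∧ α ≤ H.lo ∧ H.hi ≤ β

namespace Blk

variable {W : List A} {f : U P} {α β : ℕ}

theorem le' (hB : Blk W f α β) : α ≤ W.length := hB.lt.le.trans hB.le

theorem ends (hB : Blk W f α β) {H : Hyp P} (hH : E f H) :
    (H.hi ≤ α ∨ α ≤ H.lo) ∧ (H.hi ≤ β ∨ β ≤ H.lo) :=
  ⟨nsd_iff.1 (hB.fa.nsdE hB.le' hH), nsd_iff.1 (hB.fb.nsdE hB.le hH)⟩

theorem ends' (hB : Blk W f α β) {H : Hyp P} (hH : uu f H ≠ 0) :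
    (H.hi ≤ α ∨ α ≤ H.lo) ∧ (H.hi ≤ β ∨ β ≤ H.lo) :=
  ⟨nsd_iff.1 (hB.fa.nsd hB.le' hH), nsd_iff.1 (hB.fb.nsd hB.le hH)⟩

/-- a hyperplane overlapping the block is inside -/
theorem inside (hB : Blk W f α β) {H : Hyp P} (hH : E f H) (h1 : H.lo < β) (h2 : α < H.hi) :
    α ≤ H.lo ∧ H.hi ≤ β := by
  have h := hB.ends hH
  constructor
  · rcases h.1 with h3 | h3
    · linarith
    · exact h3
  · rcases h.2 with h3 | h3
    · exact h3
    · linarith

theorem inside' (hB : Blk W f α β) {H : Hyp P} (hH : uu f H ≠ 0) (h1 : H.lo < β)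
    (h2 : α < H.hi) : α ≤ H.lo ∧ H.hi ≤ β := by
  have h := hB.ends' hH
  constructor
  · rcases h.1 with h3 | h3
    · linarith
    · exact h3
  · rcases h.2 with h3 | h3
    · exact h3
    · linarith

/-- every letter of the block is overlapped -/
theorem cover (hB : Blk W f α β) {n : ℕ} (h1 : α ≤ n) (h2 : n < β) :
    ∃ H, E f H ∧ α ≤ H.lo ∧ H.hi ≤ β ∧ H.lo < n + 1 ∧ n < H.hi := by
  have c1 : (α : ℚ) ≤ n := by exact_mod_cast h1
  have c2 : (n : ℚ) + 1 ≤ β := by exact_mod_cast h2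
  have key : ∀ H, E f H → H.lo < n + 1 → n < H.hi →
      ∃ H, E f H ∧ α ≤ H.lo ∧ H.hi ≤ β ∧ H.lo < n + 1 ∧ n < H.hi := by
    intro H hH h3 h4
    have := hB.inside hH (by linarith) (by linarith)
    exact ⟨H, hH, this.1, this.2, h3, h4⟩
  by_cases h3 : α < n
  · obtain ⟨H, h4, h5, h6⟩ := hB.int n h3 h2
    exact key H h4 (by linarith) h6
  by_cases h4 : n + 1 < β
  · obtain ⟨H, h5, h6, h7⟩ := hB.int (n + 1) (by omega) h4
    push_cast at h6 h7
    exact key H h5 h6 (by linarith)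
  obtain rfl : n = α := by omega
  obtain rfl : β = n + 1 := by omega
  obtain ⟨H, h5, h6, h7⟩ := hB.ne
  have := H.lt
  push_cast at h7
  exact ⟨H, h5, h6, by push_cast; exact h7, by linarith, by linarith⟩

/-- translates of essential hyperplanes of the block -/
theorem tr (hB : Blk W f α β) {H : Hyp P} (hH : E f H) (h1 : α ≤ H.lo) (h2 : H.hi ≤ β) :
    ∃ l ∈ Subgroup.zpowers f, uu f (l • H) ≠ 0 ∧ α ≤ (l • H).lo ∧ (l • H).hi ≤ β := by
  obtain ⟨l, hl, h3⟩ := hH.tr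
  refine ⟨l, hl, h3, ?_, ?_⟩
  · rw [lo_smul]
    conv_lhs => rw [← th_zp (hB.fa.th hB.le') hl]
    exact (H540DG.th l).le_iff_le.2 h1
  · rw [hi_smul]
    conv_rhs => rw [← th_zp (hB.fb.th hB.le) hl]
    exact (H540DG.th l).le_iff_le.2 h2

/-- the left end of a block is the lower end of an essential hyperplane -/
theorem left (hB : Blk W f α β) : ∃ H, E f H ∧ H.lo = α ∧ H.hi ≤ β := by
  by_contra hcon
  push Not at hcon
  have hn : α + 1 ≤ W.length := by have := hB.lt; have := hB.le; omega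
  have c1 : ((α : ℚ) + 1) ≤ β := by exact_mod_cast hB.lt
  have h1 := touched hB.pi hn (by
    rintro J hJ ⟨h1, h2⟩
    have h3 := hB.inside' hJ (by linarith) (by linarith)
    exact absurd h3.2 (not_le.2 (hcon J (hB.good J hJ h3.1 h3.2) (le_antisymm h1 h3.1))))
  have h2 := critT hB.pi (Nat.le_succ α) hn (hB.fa.th hB.le') h1
  have h3 : Fx W f (α + 1) := by
    have := Mv.cutr h2
    rw [← take_sl W (Nat.le_succ α)] at this
    exact this
  by_cases h4 : α + 1 < β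
  · obtain ⟨H, h5, h6⟩ := hB.int (α + 1) (by omega) h4
    exact h3.nsdE hn h5 h6
  · obtain rfl : β = α + 1 := by have := hB.lt; omega
    obtain ⟨H, h5, h6, h7⟩ := hB.ne
    obtain ⟨l, hl, h8, h9, h10⟩ := hB.tr h5 h6 h7
    have := (l • H).lt
    rcases h1 _ h8 with h11 | h11 <;> linarith

theorem right (hB : Blk W f α β) : ∃ H, E f H ∧ H.hi = β ∧ α ≤ H.lo := by
  by_contra hcon
  push Not at hcon
  obtain ⟨γ, rfl⟩ : ∃ γ, β = γ + 1 := ⟨β - 1, by have := hB.lt; omega⟩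
  have hn : γ + 1 ≤ W.length := hB.le
  have c1 : (α : ℚ) ≤ γ := by exact_mod_cast Nat.lt_succ_iff.1 hB.lt
  have h1 := touched hB.pi hn (by
    rintro J hJ ⟨h1, h2⟩
    have h3 := hB.inside' hJ (by push_cast; linarith) (by linarith)
    refine absurd h3.1 (not_le.2 (hcon J (hB.good J hJ h3.1 h3.2) (le_antisymm h3.2 ?_)))
    push_cast
    exact h2)
  obtain ⟨x', c', h2, h2'⟩ := critT1 hB.pi (Nat.le_succ γ) hn h1
  have h3 := mv_end h2'
  have hl : (sl W γ (γ + 1)).length = 1 := by rw [len_sl W hn]; omega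
  rw [len_take W (by omega), hl] at h3
  have h4 := hB.fb.th hB.le
  have h5 : x'.length + 1 = γ + 1 := by
    refine th_nat_inj (g := f) (t := ((γ : ℚ) + 1)) ?_ ?_
    · push_cast at h3 ⊢; exact h3
    · push_cast at h4 ⊢; exact h4
  have h6 : x'.length = γ := by omega
  have h7 := mv_beg h2'
  rw [h6, len_take W (by omega)] at h7
  have h3 : Fx W f γ := by
    refine crit hB.pi (by omega) h7 ?_
    intro J hJ hs
    obtain ⟨h8, h9⟩ := hs
    rcases h1 J hJ with h10 | h10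
    · linarith
    · push_cast at h10; linarith
  by_cases h4 : α < γ
  · obtain ⟨H, h5, h6⟩ := hB.int γ h4 (by omega)
    exact h3.nsdE (by omega) h5 h6
  · obtain rfl : γ = α := by have := hB.lt; omega
    obtain ⟨H, h5, h6, h7⟩ := hB.ne
    obtain ⟨l, hl, h8, h9, h10⟩ := hB.tr h5 h6 h7
    have := (l • H).lt
    rcases h1 _ h8 with h11 | h11 <;> linarith

end Blk

/-- **Commuting elements preserve cuts at which an essential hyperplane ends** -/
theorem fx_comm {W : List A} {f x : U P} (hf : Pi W f W) (hx : Pi W x W) (hxf : x * f = f * x)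
    {ρ : ℕ} (hρ : ρ ≤ W.length) (h : Fx W f ρ) {H : Hyp P} (hH : E f H)
    (he : H.lo = ρ ∨ H.hi = ρ) : Fx W x ρ := by
  have hth : H540DG.th x (ρ : ℚ) = ρ := by
    obtain ⟨m, hm, l, hl, h1⟩ := hH.pigeon hxf
    have h2 := th_zp (h.th hρ) hl
    refine iso_fix _ hm ?_
    rw [← map_pow]
    rcases he with he | he
    · have h3 := congrArg Hyp.lo h1
      rw [lo_smul, lo_smul, he, h2] at h3
      exact h3
    · have h3 := congrArg Hyp.hi h1
      rw [hi_smul, hi_smul, he, h2] at h3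
      exact h3
  refine crit hx hρ hth ?_
  intro J hJ hs
  have hinv : ∀ J, Sd (ρ : ℚ) J → uu x (f • J) = uu x J := by
    intro J hs
    have e1 : uu (x * f) (f • J) = uu (f * x) (f • J) := by rw [hxf]
    rw [uu_mul, uu_mul, Finsupp.add_apply, Finsupp.add_apply, mapDomain_smul_apply,
      mapDomain_smul_apply, inv_smul_smul] at e1
    have s1 : Sd (ρ : ℚ) (f • J) := (sd_smul (h.th hρ) J).2 hs
    have s2 : Sd (ρ : ℚ) (x⁻¹ • f • J) := (sd_smul (th_inv_fix hth) _).2 s1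
    have e2 : uu f (f • J) = 0 := by
      by_contra h3
      exact h.nsd hρ h3 s1
    have e3 : uu f (x⁻¹ • f • J) = 0 := by
      by_contra h3
      exact h.nsd hρ h3 s2
    rw [e2, e3] at e1
    linarith
  have hall : ∀ i : ℕ, Sd (ρ : ℚ) (f ^ i • J) ∧ uu x (f ^ i • J) = uu x J := by
    intro i
    induction i with
    | zero => simp [hs]
    | succ i ih =>
      rw [pow_succ', mul_smul]
      exact ⟨(sd_smul (h.th hρ) _).2 ih.1, (hinv _ ih.1).trans ih.2⟩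
  obtain ⟨k, hk, h4⟩ := pow_fix f J {J | J ∈ (uu x).support} (Finset.finite_toSet _) (by
    intro i
    change f ^ i • J ∈ (uu x).support
    rw [Finsupp.mem_support_iff, (hall i).2]
    exact hJ)
  have hV := vz_of_uu hx hJ
  have h5 := rc hf hV hk h4
  obtain ⟨s1, s2⟩ := hs
  have := H.lt
  rcases disj hV h5 hH with h6 | h6 <;> rcases he with he | he <;> linarith

theorem Blk.fix {W : List A} {f : U P} {α β : ℕ} (hB : Blk W f α β) {x : U P} (hx : Pi W x W)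
    (hxf : x * f = f * x) : Fx W x α ∧ Fx W x β := by
  obtain ⟨H, h1, h2, -⟩ := hB.left
  obtain ⟨H', h1', h2', -⟩ := hB.right
  exact ⟨fx_comm hB.pi hx hxf hB.le' hB.fa h1 (Or.inl h2),
    fx_comm hB.pi hx hxf hB.le hB.fb h1' (Or.inr h2')⟩

end Pool.Agent.W391
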