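import Pool.Agent.W391.D3

set_option autoImplicit false

/-!
# Centralisers in a block
-/

namespace Pool.Agent.W391

open H540DG Pool.Agent.H599R3.RH Pool.Agent.H599R3.SV
open scoped commutatorElement

variable {A : Type} {P : Pres A}

theorem sd_tr {f : U P} {ρ ρ' : ℚ} (h : H540DG.th f ρ' = ρ) (H : Hyp P) :
    Sd ρ' (f⁻¹ • H) ↔ Sd ρ H := by
  unfold Sd
  rw [lo_smul, hi_smul, ← h]
  have h1 : ∀ t : ℚ, H540DG.th f⁻¹ (H540DG.th f t) = t := by
    intro t
    rw [← RelIso.mul_apply, ← map_mul, inv_mul_cancel, map_one]; rfl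
  have e1 : (H540DG.th f⁻¹ H.lo < ρ' ↔ H.lo < H540DG.th f ρ') := by
    conv_lhs => rw [← h1 ρ']
    exact (H540DG.th f⁻¹).lt_iff_lt
  have e2 : (ρ' < H540DG.th f⁻¹ H.hi ↔ H540DG.th f ρ' < H.hi) := by
    conv_lhs => rw [← h1 ρ']
    exact (H540DG.th f⁻¹).lt_iff_lt
  rw [e1, e2]

/-- elements preserving a predicate -/
def SQ (Q : Hyp P → Prop) : Subgroup (U P) where
  carrier := {l | ∀ H, Q (l • H) ↔ Q H}
  one_mem' := by intro H; rw [one_smul]
  mul_mem' := by
    intro a b ha hb H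
    rw [mul_smul, ha, hb]
  inv_mem' := by
    intro a ha H
    rw [← ha, smul_inv_smul]

theorem zp_inv {f : U P} {Q : Hyp P → Prop} (h : ∀ H, Q (f • H) ↔ Q H) {l : U P}
    (hl : l ∈ Subgroup.zpowers f) (H : Hyp P) : Q (l • H) ↔ Q H :=
  (Subgroup.zpowers_le.2 (show f ∈ SQ Q from h)) hl H

namespace Blk

variable {W : List A} {f : U P} {α β : ℕ}

/-- hyperplanes in the block crossed by a commuting element are essential for the block -/
theorem inh (hB : Blk W f α β) {e : U P} (he : Pi W e W) (hef : e * f = f * e) {J : Hyp P}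
    (hJ : uu e J ≠ 0) (h1 : α ≤ J.lo) (h2 : J.hi ≤ β) : E f J := by
  by_contra hn
  obtain ⟨fa, fb⟩ := hB.fix he hef
  have ta := fa.th hB.le'
  have tb := fb.th hB.le
  have tfa := hB.fa.th hB.le'
  have tfb := hB.fb.th hB.le
  let p : Hyp P → Prop := fun J => (α ≤ J.lo ∧ J.hi ≤ β) ∧ ¬ E f J
  -- positions
  have pos : ∀ (l : U P), H540DG.th l (α : ℚ) = α → H540DG.th l (β : ℚ) = β → ∀ J : Hyp P,
      (α ≤ (l • J).lo ∧ (l • J).hi ≤ β) ↔ (α ≤ J.lo ∧ J.hi ≤ β) := by
    intro l h3 h4 J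
    rw [lo_smul, hi_smul]
    conv_lhs => rw [← h3, ← h4]
    rw [h3, h4]
    have e1 : ((α : ℚ) ≤ H540DG.th l J.lo ↔ (α : ℚ) ≤ J.lo) := by
      conv_lhs => rw [← h3]
      exact (H540DG.th l).le_iff_le
    have e2 : (H540DG.th l J.hi ≤ (β : ℚ) ↔ J.hi ≤ (β : ℚ)) := by
      conv_lhs => rw [← h4]
      exact (H540DG.th l).le_iff_le
    rw [e1, e2]
  have pf : ∀ J, p (f • J) ↔ p J := by
    intro J
    change ((_ ∧ _) ∧ _) ↔ _
    rw [pos f tfa tfb, E.smul_self]
  have hc : e⁻¹ * f = f * e⁻¹ := (Commute.inv_left (show Commute e f from hef)).eq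
  have pe : ∀ J, p (e⁻¹ • J) ↔ p J := by
    intro J
    change ((_ ∧ _) ∧ _) ↔ _
    rw [pos e⁻¹ (th_inv_fix ta) (th_inv_fix tb), E.smul_iff hc]
  have hz : ∀ J, p J → uu f J = 0 := by
    intro J hp
    by_contra h3
    exact hp.2 (hB.good J h3 hp.1.1 hp.1.2)
  have hinv : ∀ J, p J → uu e (f • J) = uu e J := by
    intro J hp
    have e1 : uu (e * f) (f • J) = uu (f * e) (f • J) := by rw [hef]
    rw [uu_mul, uu_mul, Finsupp.add_apply, Finsupp.add_apply, mapDomain_smul_apply,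
      mapDomain_smul_apply, inv_smul_smul, hz _ ((pf J).2 hp),
      hz _ ((pe _).2 ((pf J).2 hp))] at e1
    linarith
  have hfix : ∀ J, uu e J ≠ 0 → p J → f • J = J := by
    intro J hJ hp
    have hall : ∀ i : ℕ, p (f ^ i • J) ∧ uu e (f ^ i • J) = uu e J := by
      intro i
      induction i with
      | zero => simpa using hp
      | succ i ih =>
        rw [pow_succ', mul_smul]
        exact ⟨(pf _).2 ih.1, (hinv _ ih.1).trans ih.2⟩
    obtain ⟨k, hk, h4⟩ := pow_fix f J {J | J ∈ (uu e).support} (Finset.finite_toSet _) (by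
      intro i
      change f ^ i • J ∈ (uu e).support
      rw [Finsupp.mem_support_iff, (hall i).2]
      exact hJ)
    exact rc hB.pi (vz_of_uu he hJ) hk h4
  obtain ⟨x, hx1, hx2, hx3⟩ := adj he p ⟨J, hJ, ⟨h1, h2⟩, hn⟩ (by
    intro H J hH hpH hJ hpJ ho
    have g1 := nsd_iff.1 (fa.nsd hB.le' hJ)
    have g2 := nsd_iff.1 (fb.nsd hB.le hJ)
    have g3 := H.lt
    have g4 := J.lt
    by_cases g5 : α ≤ J.lo ∧ J.hi ≤ β
    · have g6 : E f J := by
        by_contra g7
        exact hpJ ⟨g5, g7⟩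
      exact ho (disj (vz_of_uu he hH) (hfix H hH hpH) g6)
    · apply ho
      rcases g1 with g1 | g1
      · left; linarith [hpH.1.1]
      · rcases g2 with g2 | g2
        · exact absurd ⟨g1, g2⟩ g5
        · right; linarith [hpH.1.2])
  obtain ⟨s, t, hst, ht, e1, e2⟩ := adj_ends hx1
  have b1 := hx3.1.1
  have b2 := hx3.1.2
  rw [e1] at b1
  rw [e2] at b2
  have b1 : α ≤ s := by exact_mod_cast b1
  have b2 : t ≤ β := by exact_mod_cast b2
  obtain ⟨K, k1, k2, k3, k4, k5⟩ := hB.cover b1 (show s < β by omega)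
  have c1 : (s : ℚ) + 1 ≤ t := by exact_mod_cast hst
  rcases disj (vz_of_uu he hx2) (hfix _ hx2 hx3) k1 with h | h
  · rw [e1] at h; linarith
  · rw [e2] at h; linarith

/-- the two-class lemma, integral representatives -/
theorem aux1 (hB : Blk W f α β) {Q : Hyp P → Prop} (hinv : ∀ H, Q (f • H) ↔ Q H)
    (hov : ∀ H J, E f H → E f J → Ov H J → Q H → Q J) {H : Hyp P} (hH : E f H) (h1 : α ≤ H.lo)
    (h2 : H.hi ≤ β) (hQ : Q H) :
    ∃ s t : ℕ, s < t ∧ α ≤ s ∧ t ≤ β ∧ ∃ H, E f H ∧ Q H ∧ H.lo = s ∧ H.hi = t := by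
  obtain ⟨l, hl, h3, h4, h5⟩ := hB.tr hH h1 h2
  obtain ⟨x, hx1, hx2, hx3⟩ := adj hB.pi (fun H => (α ≤ H.lo ∧ H.hi ≤ β) ∧ Q H)
    ⟨l • H, h3, ⟨h4, h5⟩, (zp_inv hinv hl H).2 hQ⟩ (by
    rintro H J hH ⟨hpH, hQH⟩ hJ hpJ ho
    have g1 := hB.ends' hJ
    have g3 := H.lt
    have g4 := J.lt
    by_cases g5 : α ≤ J.lo ∧ J.hi ≤ β
    · exact hpJ ⟨g5, hov H J (hB.good H hH hpH.1 hpH.2) (hB.good J hJ g5.1 g5.2) ho hQH⟩
    · apply ho
      rcases g1.1 with g1' | g1'
      · left; linarith [hpH.1]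
      · rcases g1.2 with g2 | g2
        · exact absurd ⟨g1', g2⟩ g5
        · right; linarith [hpH.2])
  obtain ⟨s, t, hst, ht, e1, e2⟩ := adj_ends hx1
  have b1 := hx3.1.1
  have b2 := hx3.1.2
  refine ⟨s, t, hst, ?_, ?_, ohyp 1 x, hB.good _ hx2 b1 b2, hx3.2, e1, e2⟩
  · rw [e1] at b1; exact_mod_cast b1
  · rw [e2] at b2; exact_mod_cast b2

/-- two classes cannot meet in a letter -/
theorem aux2 (hB : Blk W f α β) {Q : Hyp P → Prop} (hinv : ∀ H, Q (f • H) ↔ Q H)
    (hov : ∀ H J, E f H → E f J → Ov H J → Q H → Q J) {n : ℕ} (hn1 : α < n) (hn2 : n + 1 < β)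
    (h1 : ∃ H, E f H ∧ Q H ∧ Sd n H) (h2 : ∃ H, E f H ∧ ¬ Q H ∧ Sd (n + 1) H) : False := by
  have hinv' : ∀ H, Q (f⁻¹ • H) ↔ Q H := fun H => by rw [← hinv, smul_inv_smul]
  have hE' : ∀ H, E f (f⁻¹ • H) ↔ E f H := fun H => by rw [← E.smul_self, smul_inv_smul]
  let R : ℕ → Prop := fun n => α < n ∧ n + 1 < β ∧ (∃ H, E f H ∧ Q H ∧ Sd n H) ∧
    ∃ H, E f H ∧ ¬ Q H ∧ Sd (n + 1) H
  have hle := hB.le
  have tch : ∀ n, R n → ∀ J, uu f J ≠ 0 → J.hi ≤ n ∨ ((n + 1 : ℕ) : ℚ) ≤ J.lo := by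
    rintro n ⟨r1, r2, ⟨H, r3, r4, r5⟩, K, r6, r7, r8⟩
    refine touched hB.pi (by omega) ?_
    rintro J hJ ⟨h1, h2⟩
    have c1 : (α : ℚ) < n := by exact_mod_cast r1
    have c2 : (n : ℚ) + 1 < β := by exact_mod_cast r2
    have h3 := hB.inside' hJ (by linarith) (by linarith)
    have h4 := hB.good J hJ h3.1 h3.2
    have o1 : Ov H J := by
      rintro (h | h)
      · linarith [r5.1]
      · linarith [r5.2]
    have o2 : Ov J K := by
      rintro (h | h)
      · linarith [r8.2]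
      · linarith [r8.1]
    exact r7 (hov J K h4 r6 o2 (hov H J r3 h4 o1 r4))
  have step : ∀ n, R n → ∃ n', R n' ∧ H540DG.th f (n' : ℚ) = n := by
    intro n hn
    have h3 := tch n hn
    obtain ⟨r1, r2, ⟨H, r3, r4, r5⟩, K, r6, r7, r8⟩ := hn
    have hl : (sl W n (n + 1)).length = 1 := by rw [len_sl W (by omega)]; omega
    obtain ⟨x', c', e1, e2⟩ := critT1 hB.pi (Nat.le_succ n) (by omega) h3
    have t1 := mv_beg e2
    have t2 := mv_end e2
    rw [hl, len_take W (by omega)] at t2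
    rw [len_take W (by omega)] at t1
    push_cast at t2
    refine ⟨x'.length, ⟨?_, ?_, ⟨f⁻¹ • H, (hE' H).2 r3, (hinv' H).2 r4, (sd_tr t1 H).2 r5⟩,
      f⁻¹ • K, (hE' K).2 r6, fun h => r7 ((hinv' K).1 h), (sd_tr t2 K).2 r8⟩, t1⟩
    · have : (α : ℚ) < x'.length := by
        rw [← (H540DG.th f).lt_iff_lt, hB.fa.th hB.le', t1]
        exact_mod_cast r1
      exact_mod_cast this
    · have : (x'.length : ℚ) + 1 < β := by
        rw [← (H540DG.th f).lt_iff_lt, hB.fb.th hB.le, t2]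
        exact_mod_cast r2
      exact_mod_cast this
  have hR : R n := ⟨hn1, hn2, h1, h2⟩
  have h3 := pig (N := W.length) (f := H540DG.th f) R (fun n hn => by
    have := hn.2.1; omega) step n hR
  have h4 : Fx W f n := by
    refine crit hB.pi (by omega) h3 ?_
    intro J hJ hs
    rcases tch n hR J hJ with h | h
    · linarith [hs.2]
    · push_cast at h; linarith [hs.1]
  obtain ⟨H, r3, -, r5⟩ := h1
  exact h4.nsdE (by omega) r3 r5

theorem aux3 (hB : Blk W f α β) {Q : Hyp P → Prop} (hinv : ∀ H, Q (f • H) ↔ Q H)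
    (hov : ∀ H J, E f H → E f J → Ov H J → Q H → Q J) {s t s' t' : ℕ} (hst : s < t)
    (hst' : s' < t') (h1 : α ≤ s) (h2 : t' ≤ β) (h3 : t ≤ s') {H K : Hyp P} (hH : E f H)
    (hQ : Q H) (e1 : H.lo = s) (e2 : H.hi = t) (hK : E f K) (hQK : ¬ Q K) (e3 : K.lo = s')
    (e4 : K.hi = t') : False := by
  have c1 : (s : ℚ) < t := by exact_mod_cast hst
  have c2 : (s' : ℚ) < t' := by exact_mod_cast hst'
  have key : ∃ n, t ≤ n ∧ n < s' ∧ (∃ H, E f H ∧ Q H ∧ Sd n H) ∧
      ¬ ∃ H, E f H ∧ Q H ∧ Sd ((n : ℚ) + 1) H := by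
    by_contra hcon
    have h4 : ∀ n, t ≤ n → n ≤ s' → ∃ H, E f H ∧ Q H ∧ Sd n H := by
      intro n hn
      induction n, hn using Nat.le_induction with
      | base =>
        intro _
        obtain ⟨J, j1, j2⟩ := hB.int t (by omega) (by omega)
        refine ⟨J, j1, hov H J hH j1 ?_ hQ, j2⟩
        rintro (h | h)
        · linarith [j2.2]
        · linarith [j2.1]
      | succ n hn ih =>
        intro h5
        by_contra h6
        apply hcon
        refine ⟨n, hn, by omega, ih (by omega), ?_⟩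
        push_cast at h6
        exact h6
    obtain ⟨J, j1, j2, j3⟩ := h4 s' h3 le_rfl
    refine hQK (hov J K j1 hK ?_ j2)
    rintro (h | h)
    · linarith [j3.1]
    · linarith [j3.2]
  obtain ⟨n, n1, n2, n3, n4⟩ := key
  obtain ⟨J, j1, j2⟩ := hB.int (n + 1) (by omega) (by omega)
  push_cast at j2
  exact hB.aux2 hinv hov (by omega) (by omega) n3 ⟨J, j1, fun h => n4 ⟨J, j1, h, j2⟩, j2⟩

/-- **The two-class lemma** -/
theorem conn (hB : Blk W f α β) {Q : Hyp P → Prop} (hinv : ∀ H, Q (f • H) ↔ Q H)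
    (hov : ∀ H J, E f H → E f J → Ov H J → Q H → Q J) {H J : Hyp P} (hH : E f H)
    (h1 : α ≤ H.lo) (h2 : H.hi ≤ β) (hQ : Q H) (hJ : E f J) (h1' : α ≤ J.lo) (h2' : J.hi ≤ β) :
    Q J := by
  by_contra hQJ
  have hinv' : ∀ H, ¬ Q (f • H) ↔ ¬ Q H := fun H => not_congr (hinv H)
  have hov' : ∀ H J, E f H → E f J → Ov H J → ¬ Q H → ¬ Q J :=
    fun H J a b c d e => d (hov J H b a c.symm e)
  obtain ⟨s, t, hst, a1, a2, K, k1, k2, k3, k4⟩ := hB.aux1 hinv hov hH h1 h2 hQ
  obtain ⟨s', t', hst', a1', a2', K', k1', k2', k3', k4'⟩ := hB.aux1 hinv' hov' hJ h1' h2' hQJ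
  have hno : ¬ Ov K K' := fun ho => k2' (hov K K' k1 k1' ho k2)
  unfold Ov at hno
  rw [not_not, k3, k4, k3', k4'] at hno
  rcases hno with h | h
  · have h : t' ≤ s := by exact_mod_cast h
    exact hB.aux3 hinv' hov' hst' hst a1' a2 h k1' k2' k3' k4' k1 (not_not.2 k2) k3 k4
  · have h : t ≤ s' := by exact_mod_cast h
    exact hB.aux3 hinv hov hst hst' a1 a2' h k1 k2 k3 k4 k1' k2' k3' k4'

/-- passage to a commuting element -/
theorem sub (hB : Blk W f α β) {e : U P} (he : Pi W e W) (hef : e * f = f * e)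
    (hE : ∀ H, E e H → E f H) {K : Hyp P} (hK : E e K) (h1 : α ≤ K.lo) (h2 : K.hi ≤ β) :
    Blk W e α β := by
  have all : ∀ H, E f H → α ≤ H.lo → H.hi ≤ β → E e H := by
    intro H hH h3 h4
    exact hB.conn (Q := E e) (fun H => E.smul_iff hef.symm H)
      (fun H J _ hJ ho hQ => ovl he hB.pi hef hJ ho hQ) (hE K hK) h1 h2 hK hH h3 h4
  obtain ⟨fa, fb⟩ := hB.fix he hef
  refine ⟨he, hB.lt, hB.le, fa, fb, ?_, ?_, ⟨K, hK, h1, h2⟩⟩
  · intro H hH h3 h4
    exact all H (hB.inh he hef hH h3 h4) h3 h4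
  · intro ρ h3 h4
    obtain ⟨H, h5, h6⟩ := hB.int ρ h3 h4
    have c1 : (α : ℚ) < ρ := by exact_mod_cast h3
    have c2 : (ρ : ℚ) < β := by exact_mod_cast h4
    have h7 := hB.inside h5 (by linarith [h6.1]) (by linarith [h6.2])
    exact ⟨H, all H h5 h7.1 h7.2, h6⟩

/-- dichotomy -/
theorem dich (hB : Blk W f α β) {e : U P} (he : Pi W e W) (hef : e * f = f * e) {K : Hyp P}
    (hK : E f K) (h1 : α ≤ K.lo) (h2 : K.hi ≤ β) (hn : ¬ E e K) : Tv W α β e := by
  have all : ∀ H, E f H → α ≤ H.lo → H.hi ≤ β → ¬ E e H := by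
    intro H hH h3 h4
    refine hB.conn (Q := fun H => ¬ E e H) (fun H => not_congr (E.smul_iff hef.symm H))
      (fun H J hH _ ho hQ hJ => hQ (ovl he hB.pi hef hH ho.symm hJ)) hK h1 h2 hn hH h3 h4
  obtain ⟨fa, fb⟩ := hB.fix he hef
  refine critT he hB.lt.le hB.le (fa.th hB.le') ?_
  intro J hJ
  have g1 := nsd_iff.1 (fa.nsd hB.le' hJ)
  have g2 := nsd_iff.1 (fb.nsd hB.le hJ)
  rcases g1 with g1 | g1
  · exact Or.inl g1
  rcases g2 with g2 | g2
  · exfalso
    have h3 := hB.inh he hef hJ g1 g2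
    have h4 := fixE he hB.pi hef h3 (all J h3 g1 g2)
    exact hJ (uu_fix he h4)
  · exact Or.inr g2

/-- **Commutators of centralising elements are trivial in a block** -/
theorem comm (hB : Blk W f α β) {x h : U P} (hx : Pi W x W) (hxf : x * f = f * x)
    (hh : Pi W h W) (hhf : h * f = f * h) : Tv W α β ⁅x, h⁆ := by
  by_contra hT
  set g : U P := ⁅x, h⁆ with hg
  have hgW : Pi W g W := by
    have h1 : g ∈ Dg P W := by
      rw [hg, commutatorElement_def]
      exact mul_mem (mul_mem (mul_mem hx hh) (inv_mem (show x ∈ Dg P W from hx)))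
        (inv_mem (show h ∈ Dg P W from hh))
    exact h1
  have hgf : g * f = f * g := by
    have c1 : Commute x f := hxf
    have c2 : Commute h f := hhf
    rw [hg, commutatorElement_def]
    exact (((c1.mul_left c2).mul_left c1.inv_left).mul_left c2.inv_left).eq
  obtain ⟨K, hK, k1, k2⟩ := hB.ne
  have hgK : E g K := by
    by_contra h1
    exact hT (hB.dich hgW hgf hK k1 k2 h1)
  obtain ⟨m, hm, l, hl, h1⟩ := hK.pigeon hgf
  obtain ⟨k, rfl⟩ := Subgroup.mem_zpowers_iff.1 hl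
  -- the element fixing `K`
  have hgm : Pi W (g ^ m) W := (Dg P W).pow_mem hgW m
  have hfk : Pi W (f ^ k) W := (Dg P W).zpow_mem hB.pi k
  set e : U P := (f ^ k)⁻¹ * g ^ m with he
  have heW : Pi W e W := (Dg P W).mul_mem ((Dg P W).inv_mem hfk) hgm
  have hef : e * f = f * e := by
    have c1 : Commute g f := hgf
    have c2 : Commute (f ^ k)⁻¹ f := ((Commute.refl f).zpow_left k).inv_left
    exact (c2.mul_left (c1.pow_left m)).eq
  have heK : e • K = K := by
    rw [he, mul_smul, h1, inv_smul_smul]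
  have hVK : Vz W K := hK.vz hB.pi
  have hTe : Tv W α β e := hB.dich heW hef hK k1 k2 (E.ne_fix hVK heK)
  -- the translation homomorphism
  set Γ : Subgroup (U P) := Subgroup.closure {f, x, h} with hΓ
  have mf : f ∈ Γ := Subgroup.subset_closure (Or.inl rfl)
  have mx : x ∈ Γ := Subgroup.subset_closure (Or.inr (Or.inl rfl))
  have mh : h ∈ Γ := Subgroup.subset_closure (Or.inr (Or.inr rfl))
  have mg : g ∈ Γ := by
    rw [hg, commutatorElement_def]
    exact mul_mem (mul_mem (mul_mem mx mh) (inv_mem mx)) (inv_mem mh)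
  have hΓf : ∀ l ∈ Γ, l * f = f * l := by
    intro l hl
    have h2 : Γ ≤ Subgroup.centralizer {f} := by
      rw [hΓ, Subgroup.closure_le]
      rintro z hz
      rw [SetLike.mem_coe, Subgroup.mem_centralizer_iff]
      intro w hw
      rw [Set.mem_singleton_iff] at hw
      subst hw
      rcases hz with rfl | rfl | hz
      · rfl
      · exact hxf.symm
      · rw [Set.mem_singleton_iff] at hz
        subst hz
        exact hhf.symm
    have h3 := h2 hl
    rw [Subgroup.mem_centralizer_iff] at h3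
    exact (h3 f rfl).symm
  have hΓW : ∀ l ∈ Γ, Pi W l W := by
    intro l hl
    have h2 : Γ ≤ Dg P W := by
      rw [hΓ, Subgroup.closure_le]
      rintro z (rfl | rfl | hz)
      · exact hB.pi
      · exact hx
      · rw [Set.mem_singleton_iff] at hz
        subst hz
        exact hh
    exact h2 hl
  have cg : cc Γ g = 0 := by
    have e1 : ch Γ ⟨g, mg⟩ = 1 := by
      have : (⟨g, mg⟩ : Γ) = ⁅(⟨x, mx⟩ : Γ), ⟨h, mh⟩⁆ := by
        apply Subtype.ext
        rfl
      rw [this, map_commutatorElement, commutatorElement_eq_one_iff_mul_comm]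
      exact mul_comm _ _
    exact congrArg Multiplicative.toAdd e1
  have ce : cc Γ e = -(k • cc Γ f) := by
    have h2 := cc_zpow mf (-k)
    rw [zpow_neg] at h2
    rw [he, cc_mul (inv_mem (zpow_mem mf k)), h2, cc_pow mg, cg, smul_zero, add_zero, neg_smul]
  have ce0 : cc Γ e (qg Γ K) = 0 := by
    classical
    by_contra h2
    have h3 := Finsupp.mapDomain_support (Finsupp.mem_support_iff.2 h2)
    rw [Finset.mem_image] at h3
    obtain ⟨J, h4, h5⟩ := h3
    rw [Finsupp.mem_support_iff] at h4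
    obtain ⟨l, hl, h6⟩ := qg_eq.1 h5
    obtain ⟨la, lb⟩ := hB.fix (hΓW l hl) (hΓf l hl)
    have la := la.th hB.le'
    have lb := lb.th hB.le
    have p1 : α ≤ J.lo := by
      rw [← h6, lo_smul]
      conv_lhs => rw [← la]
      exact (H540DG.th l).le_iff_le.2 k1
    have p2 : J.hi ≤ β := by
      rw [← h6, hi_smul]
      conv_rhs => rw [← lb]
      exact (H540DG.th l).le_iff_le.2 k2
    have h7 : uu e J ≠ 0 := h4
    rw [uu_apply] at h7
    have h8 := cross_Mv J hTe 1 (by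
      rw [one_mul]
      exact sub_ne_zero.1 h7)
    have hlt := hB.lt
    rw [th_one_apply, th_one_apply, len_take W hB.le', len_sl W hB.le] at h8
    push_cast [hlt.le] at h8
    rw [add_sub_cancel] at h8
    have := J.lt
    rcases h8 with h8 | h8 <;> linarith
  have hk : k = 0 := by
    by_contra hk
    rw [ce, Finsupp.neg_apply, Finsupp.smul_apply, smul_eq_mul, neg_eq_zero] at ce0
    rcases mul_eq_zero.1 ce0 with h2 | h2
    · exact hk h2
    · exact cc_central mf hΓf hK h2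
  rw [hk, zpow_zero, one_smul] at h1
  exact E.ne_fix hVK (rc hgW hVK hm h1) hgK

end Blk

end Pool.Agent.W391
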