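import Pool.Agent.W391.D4

set_option autoImplicit false

/-!
# Generic products and good base points
-/

namespace Pool.Agent.W391

open H540DG Pool.Agent.H599R3.RH Pool.Agent.H599R3.SV
open scoped commutatorElement

variable {A : Type} {P : Pres A}

/-! ### conjugation -/

theorem E.conj (γ x : U P) (H : Hyp P) : E (γ * x * γ⁻¹) (γ • H) ↔ E x H := by
  have hc1 : ∀ z ∈ Subgroup.zpowers x, γ * z * γ⁻¹ ∈ Subgroup.zpowers (γ * x * γ⁻¹) := by
    intro z hz
    obtain ⟨k, rfl⟩ := Subgroup.mem_zpowers_iff.1 hz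
    exact Subgroup.mem_zpowers_iff.2 ⟨k, conj_zpow⟩
  have hc2 : ∀ z ∈ Subgroup.zpowers (γ * x * γ⁻¹), γ⁻¹ * z * γ ∈ Subgroup.zpowers x := by
    intro z hz
    obtain ⟨k, rfl⟩ := Subgroup.mem_zpowers_iff.1 hz
    refine Subgroup.mem_zpowers_iff.2 ⟨k, ?_⟩
    rw [conj_zpow]; group
  set Ψ : Qo x → Qo (γ * x * γ⁻¹) := Quotient.map (γ • ·) (by
    intro H1 H2 h
    obtain ⟨⟨z, hz⟩, h1⟩ := h
    have h1 : z • H2 = H1 := h1
    refine ⟨⟨γ * z * γ⁻¹, hc1 z hz⟩, ?_⟩
    change (γ * z * γ⁻¹) • γ • H2 = γ • H1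
    rw [← h1, smul_smul, smul_smul]
    congr 1
    group) with hΨ
  have hΨq : ∀ H, Ψ (qo x H) = qo (γ * x * γ⁻¹) (γ • H) := fun H => rfl
  have hinj : Function.Injective Ψ := by
    intro O1 O2 h12
    induction O1 using Quotient.inductionOn with
    | h H1 =>
      induction O2 using Quotient.inductionOn with
      | h H2 =>
        change qo (γ * x * γ⁻¹) (γ • H1) = qo (γ * x * γ⁻¹) (γ • H2) at h12
        change qo x H1 = qo x H2
        rw [qo_eq] at h12 ⊢
        obtain ⟨z, hz, h1⟩ := h12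
        refine ⟨γ⁻¹ * z * γ, hc2 z hz, ?_⟩
        rw [mul_smul, mul_smul, h1, inv_smul_smul]
  have e1 : uu (γ * x * γ⁻¹) + Finsupp.mapDomain ((γ * x * γ⁻¹) • ·) (uu γ) =
      uu γ + Finsupp.mapDomain (γ • ·) (uu x) := by
    rw [← uu_mul, ← uu_mul, inv_mul_cancel_right]
  have h1 := congrArg (Finsupp.mapDomain (qo (γ * x * γ⁻¹))) e1
  rw [Finsupp.mapDomain_add, Finsupp.mapDomain_add, ← Finsupp.mapDomain_comp,
    ← Finsupp.mapDomain_comp] at h1
  have h2 : (qo (γ * x * γ⁻¹)) ∘ (fun H => (γ * x * γ⁻¹) • H) = qo (γ * x * γ⁻¹) := by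
    funext H; exact qo_smul _ H
  have h3 : (qo (γ * x * γ⁻¹)) ∘ (fun H => γ • H) = Ψ ∘ qo x := rfl
  rw [h2, h3, Finsupp.mapDomain_comp] at h1
  have h4 : os (γ * x * γ⁻¹) = Finsupp.mapDomain Ψ (os x) := by
    unfold os
    have : Finsupp.mapDomain (qo (γ * x * γ⁻¹)) (uu (γ * x * γ⁻¹)) +
        Finsupp.mapDomain (qo (γ * x * γ⁻¹)) (uu γ) =
        Finsupp.mapDomain Ψ (Finsupp.mapDomain (qo x) (uu x)) +
        Finsupp.mapDomain (qo (γ * x * γ⁻¹)) (uu γ) := by rw [h1]; abel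
    exact add_right_cancel this
  unfold E
  rw [← hΨq, h4, Finsupp.mapDomain_apply hinj]

theorem E.conj' (γ x : U P) (H : Hyp P) : E (γ⁻¹ * x * γ) H ↔ E x (γ • H) := by
  have := E.conj γ (γ⁻¹ * x * γ) H
  have e : γ * (γ⁻¹ * x * γ) * γ⁻¹ = x := by group
  rw [e] at this
  exact this.symm

/-! ### generic products -/

theorem abs_le_nm {α : Type} (f : α →₀ ℤ) (a : α) : |f a| ≤ nm f := by
  classical
  by_cases h : a ∈ f.support
  · have h1 : (f a).natAbs ≤ nm f := by
      unfold nm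
      exact Finset.single_le_sum (f := fun a => (f a).natAbs) (fun _ _ => Nat.zero_le _) h
    rw [Int.abs_eq_natAbs]
    exact_mod_cast h1
  · rw [Finsupp.notMem_support_iff.1 h]
    simp

theorem gen_prod {W : List A} {Γ : Subgroup (U P)} (hΓ : Ab W Γ) {a b : U P} (ha : a ∈ Γ)
    (hb : b ∈ Γ) : ∃ c ∈ Γ, ∀ H, (E a H ∨ E b H) → E c H := by
  refine ⟨a * b ^ (nm (cc Γ a) + 1), mul_mem ha (pow_mem hb _), ?_⟩
  intro H h
  have hm : a * b ^ (nm (cc Γ a) + 1) ∈ Γ := mul_mem ha (pow_mem hb _)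
  rw [E, ← cc_iff hΓ hm]
  rw [E, E, ← cc_iff hΓ ha, ← cc_iff hΓ hb] at h
  rw [cc_mul ha, cc_pow hb, Finsupp.add_apply, Finsupp.smul_apply, smul_eq_mul]
  by_cases hb0 : cc Γ b (qg Γ H) = 0
  · rw [hb0, mul_zero, add_zero]
    exact h.resolve_right (fun h1 => h1 hb0)
  · intro h1
    have h2 := abs_le_nm (cc Γ a) (qg Γ H)
    have h3 : (1 : ℤ) ≤ |cc Γ b (qg Γ H)| := Int.one_le_abs hb0
    have h4 : |cc Γ a (qg Γ H)| = ((nm (cc Γ a) + 1 : ℕ) : ℤ) * |cc Γ b (qg Γ H)| := by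
      have h5 : cc Γ a (qg Γ H) = -(((nm (cc Γ a) + 1 : ℕ) : ℤ) * cc Γ b (qg Γ H)) := by linarith
      rw [h5, abs_neg, abs_mul, Nat.abs_cast]
    rw [h4] at h2
    push_cast at h2
    nlinarith

theorem gen_all {W : List A} {Γ : Subgroup (U P)} (hΓ : Ab W Γ) {ι : Type} (s : Finset ι)
    (y : ι → U P) (hy : ∀ i, y i ∈ Γ) : ∃ c ∈ Γ, ∀ i ∈ s, ∀ H, E (y i) H → E c H := by
  classical
  induction s using Finset.induction_on with
  | empty => exact ⟨1, one_mem _, by simp⟩
  | insert i s _ ih =>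
    obtain ⟨c, hc, h1⟩ := ih
    obtain ⟨d, hd, h2⟩ := gen_prod hΓ (hy i) hc
    refine ⟨d, hd, ?_⟩
    intro j hj H hH
    rw [Finset.mem_insert] at hj
    rcases hj with rfl | hj
    · exact h2 H (Or.inl hH)
    · exact h2 H (Or.inr (h1 j hj H hH))

/-! ### good base points -/

/-- hyperplanes separating the base from all large powers in both directions -/
def FF (y : U P) : Set (Hyp P) :=
  {H | ∃ M : ℕ, ∀ m : ℕ, M ≤ m → uu (y ^ m) H ≠ 0 ∧ uu ((y ^ m)⁻¹) H ≠ 0}

theorem FF.free {W : List A} {y : U P} (hy : Pi W y W) {H : Hyp P} (h : H ∈ FF y) :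
    ∀ k : ℕ, k ≠ 0 → y ^ k • H ≠ H := by
  intro k hk h1
  obtain ⟨M, hM⟩ := h
  have h2 : y ^ (k * (M + 1)) • H = H := by
    have h3 : y ^ k ∈ MulAction.stabilizer (U P) H := h1
    have h4 := pow_mem h3 (M + 1)
    rw [← pow_mul] at h4
    exact h4
  have h3 : M ≤ k * (M + 1) := by nlinarith [Nat.pos_of_ne_zero hk]
  exact (hM _ h3).1 (uu_fix ((Dg P W).pow_mem hy _) h2)

theorem esc {g : U P} {H : Hyp P} (h : ∀ k : ℕ, k ≠ 0 → g ^ k • H ≠ H) {S : Set (Hyp P)}
    (hS : S.Finite) : ∃ M : ℕ, ∀ m : ℕ, M ≤ m → g ^ m • H ∉ S := by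
  have hinj : Function.Injective (fun m : ℕ => g ^ m • H) := by
    have key : ∀ i j : ℕ, i < j → g ^ i • H ≠ g ^ j • H := by
      intro i j hij he
      apply h (j - i) (by omega)
      have : g ^ j = g ^ i * g ^ (j - i) := by rw [← pow_add]; congr 1; omega
      rw [this, mul_smul] at he
      exact (smul_left_cancel _ he).symm
    intro i j hij
    by_contra hne
    rcases lt_or_gt_of_ne hne with h1 | h1
    · exact key i j h1 hij
    · exact key j i h1 hij.symm
  obtain ⟨M, hM⟩ := (hS.preimage (hinj.injOn)).bddAbove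
  refine ⟨M + 1, fun m hm hmem => ?_⟩
  have : m ≤ M := hM hmem
  omega

theorem free_inv {g : U P} {H : Hyp P} (h : ∀ k : ℕ, k ≠ 0 → g ^ k • H ≠ H) :
    ∀ k : ℕ, k ≠ 0 → g⁻¹ ^ k • H ≠ H := by
  intro k hk h1
  apply h k hk
  conv_lhs => rw [← h1]
  rw [inv_pow, smul_inv_smul]

theorem E.pow {W : List A} {y : U P} (hy : Pi W y W) {k : ℕ} (hk : k ≠ 0) (H : Hyp P) :
    E (y ^ k) H ↔ E y H := by
  have hΓ := ab_pair hy hy rfl
  have my : y ∈ Subgroup.closure {y, y} := Subgroup.subset_closure (Or.inl rfl)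
  unfold E
  rw [← cc_iff hΓ my, ← cc_iff hΓ (pow_mem my k), cc_pow my, Finsupp.smul_apply, smul_eq_mul]
  constructor
  · intro h
    exact right_ne_zero_of_mul h
  · intro h
    exact mul_ne_zero (by exact_mod_cast hk) h

theorem FF.notE {W : List A} {y : U P} (hy : Pi W y W) {H : Hyp P} (h : H ∈ FF y) :
    ¬ E y H := by
  classical
  obtain ⟨M, hM⟩ := h
  rw [← E.pow hy (show M + 1 ≠ 0 by omega)]
  set z := y ^ (M + 1) with hz
  have hzW : Pi W z W := (Dg P W).pow_mem hy _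
  let C : ℤ → ℤ := fun i => cr H (z ^ i) - cr H 1
  have hC0 : C 0 = 0 := by simp [C]
  have hCne : ∀ i : ℤ, i ≠ 0 → C i ≠ 0 := by
    intro i hi
    rcases lt_or_gt_of_ne hi with h1 | h1
    · obtain ⟨n, hn⟩ := Int.eq_ofNat_of_zero_le (show 0 ≤ -i by omega)
      have h2 : z ^ i = (y ^ ((M + 1) * n))⁻¹ := by
        rw [show i = -(n : ℤ) by omega, zpow_neg, zpow_natCast, hz, ← pow_mul]
      have h3 := (hM ((M + 1) * n) (by
        have : 1 ≤ n := by omega
        nlinarith)).2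
      rw [← h2, uu_apply] at h3
      exact h3
    · obtain ⟨n, hn⟩ := Int.eq_ofNat_of_zero_le h1.le
      have h2 : z ^ i = y ^ ((M + 1) * n) := by
        rw [hn, zpow_natCast, hz, ← pow_mul]
      have h3 := (hM ((M + 1) * n) (by
        have : 1 ≤ n := by omega
        nlinarith)).1
      rw [← h2, uu_apply] at h3
      exact h3
  have hCle : ∀ i j : ℤ, |C i - C j| ≤ 1 := by
    intro i j
    have h1 := cr_le_one H (show Pi W (z ^ (i - j)) W from (Dg P W).zpow_mem hzW _) (z ^ j)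
    rw [← zpow_add, show j + (i - j) = i by ring] at h1
    have : C i - C j = cr H (z ^ i) - cr H (z ^ j) := by simp only [C]; ring
    rw [this]
    exact h1
  have hCeq : ∀ i : ℤ, i ≠ 0 → C i = C 1 := by
    intro i hi
    have h1 := hCne i hi
    have h2 := hCne 1 one_ne_zero
    have h3 := abs_le.1 (hCle i 0)
    have h4 := abs_le.1 (hCle 1 0)
    have h5 := abs_le.1 (hCle i 1)
    rw [hC0] at h3 h4
    omega
  have huz : ∀ i : ℤ, uu z (z ^ i • H) = C (1 - i) - C (-i) := by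
    intro i
    have h1 := cr_equiv (z ^ (-i)) (z ^ i • H) z
    have h2 : z ^ (-i) • z ^ i • H = H := by
      rw [zpow_neg, inv_smul_smul]
    rw [h2] at h1
    have h3 : z ^ (-i) * z = z ^ (1 - i) := by
      rw [← zpow_add_one]; congr 1; ring
    rw [h3] at h1
    rw [uu_apply, ← h1]
    simp only [C]
    ring
  have hu0 : uu z H = C 1 := by
    have := huz 0
    rw [zpow_zero, one_smul, sub_zero, neg_zero, hC0, sub_zero] at this
    exact this
  have hu1 : uu z (z • H) = - C 1 := by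
    have := huz 1
    rw [zpow_one, sub_self, hC0, zero_sub, hCeq (-1) (by norm_num)] at this
    exact this
  have hne : H ≠ z • H := by
    intro h1
    have := uu_fix hzW h1.symm
    rw [hu0] at this
    exact hCne 1 one_ne_zero this
  unfold E
  rw [not_not]
  unfold os
  rw [mapDomain_val]
  have hsum : ∑ a ∈ (uu z).support.filter (fun a => qo z a = qo z H), uu z a =
      ∑ a ∈ {H, z • H}, uu z a := by
    apply Finset.sum_subset
    · intro J hJ
      rw [Finset.mem_filter, Finsupp.mem_support_iff] at hJ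
      obtain ⟨h1, h2⟩ := hJ
      obtain ⟨l, hl, h3⟩ := qo_eq.1 h2
      obtain ⟨i, rfl⟩ := Subgroup.mem_zpowers_iff.1 hl
      rw [← h3, huz] at h1
      rw [Finset.mem_insert, Finset.mem_singleton, ← h3]
      by_cases hi0 : i = 0
      · left; rw [hi0, zpow_zero, one_smul]
      by_cases hi1 : i = 1
      · right; rw [hi1, zpow_one]
      exfalso
      apply h1
      rw [hCeq (1 - i) (by omega), hCeq (-i) (by omega), sub_self]
    · intro J hJ hJ2
      rw [Finset.mem_insert, Finset.mem_singleton] at hJ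
      by_contra h1
      apply hJ2
      rw [Finset.mem_filter, Finsupp.mem_support_iff]
      refine ⟨h1, ?_⟩
      rcases hJ with rfl | rfl
      · rfl
      · exact qo_smul z H
  rw [hsum, Finset.sum_pair hne, hu0, hu1, add_neg_cancel]

/-- the potential of the inessential part -/
theorem exists_pot (y : U P) : ∃ v : Hyp P →₀ ℤ, ∀ H, ¬ E y H →
    ∀ m : ℕ, uu (y ^ m) H = v ((y ^ m)⁻¹ • H) - v H ∧
      uu ((y ^ m)⁻¹) H = v (y ^ m • H) - v H := by
  have h0 : Finsupp.mapDomain (qo y) (fl (fun H => ¬ E y H) (uu y)) = 0 := by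
    have e1 : fl (fun H => ¬ E y H) (uu y) =
        fl (fun H => (fun o => ¬ os y o ≠ 0) (qo y H)) (uu y) := rfl
    rw [e1, mapDomain_filter' (qo y) (fun o => ¬ os y o ≠ 0) (uu y)]
    ext o
    by_cases ho : ¬ os y o ≠ 0
    · rw [fl_pos (fun o => ¬ os y o ≠ 0) _ o ho]
      rw [not_not] at ho
      exact ho
    · rw [fl_neg (fun o => ¬ os y o ≠ 0) _ o ho]; rfl
  obtain ⟨v, hv⟩ := coinv y _ h0
  have hv1 : ∀ H, ¬ E y H → uu y H = v (y⁻¹ • H) - v H := by
    intro H hH
    have := DFunLike.congr_fun hv H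
    rw [Finsupp.sub_apply, mapDomain_smul_apply] at this
    rw [← this]
    exact (fl_pos (fun H => ¬ E y H) (uu y) H hH).symm
  have hv2 : ∀ (m : ℕ) (H : Hyp P), ¬ E y H → uu (y ^ m) H = v ((y ^ m)⁻¹ • H) - v H := by
    intro m
    induction m with
    | zero => intro H _; simp [uu_one]
    | succ m ih =>
      intro H hH
      rw [pow_succ, uu_mul, Finsupp.add_apply, mapDomain_smul_apply, ih H hH]
      have h1 : ¬ E y ((y ^ m)⁻¹ • H) := by
        rw [E.smul_iff ((Commute.pow_left (Commute.refl y) m).inv_left).eq]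
        exact hH
      rw [hv1 _ h1, mul_inv_rev, mul_smul]
      ring
  refine ⟨v, fun H hH m => ⟨hv2 m H hH, ?_⟩⟩
  have h1 : ¬ E y (y ^ m • H) := by
    rw [E.smul_iff (Commute.pow_left (Commute.refl y) m).eq]
    exact hH
  have h2 := hv2 m _ h1
  rw [inv_smul_smul] at h2
  have h3 : uu ((y ^ m)⁻¹ * y ^ m) H = 0 := by
    rw [inv_mul_cancel, uu_one]; rfl
  rw [uu_mul, Finsupp.add_apply, mapDomain_smul_apply, inv_inv, h2] at h3
  linarith

theorem FF.finite {W : List A} {y : U P} (hy : Pi W y W) : (FF y).Finite := by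
  obtain ⟨v, hv⟩ := exists_pot y
  refine (Finset.finite_toSet v.support).subset ?_
  intro H hH
  have h1 := FF.notE hy hH
  have h2 := FF.free hy hH
  obtain ⟨M', hM'⟩ := esc (free_inv h2) (Finset.finite_toSet v.support)
  obtain ⟨M, hM⟩ := hH
  have h3 := (hM (max M M') (le_max_left _ _)).1
  have h4 := hM' (max M M') (le_max_right _ _)
  rw [(hv H h1 _).1] at h3
  rw [Finset.mem_coe, Finsupp.mem_support_iff, not_not, inv_pow] at h4
  rw [h4] at h3
  rw [Finset.mem_coe, Finsupp.mem_support_iff]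
  intro h5
  rw [h5] at h3
  exact h3 rfl

theorem good_of_empty {W : List A} {y : U P} (hy : Pi W y W) (h : FF y = ∅) {H : Hyp P}
    (hH : uu y H ≠ 0) : E y H := by
  by_contra hE
  obtain ⟨v, hv⟩ := exists_pot y
  have hfree : ∀ k : ℕ, k ≠ 0 → y ^ k • H ≠ H := by
    intro k hk h1
    exact hH (uu_fix hy (rc hy (vz_of_uu hy hH) hk h1))
  have h1 := (hv H hE 1).1
  rw [pow_one] at h1
  have key : ∀ J, ¬ E y J → (∀ k : ℕ, k ≠ 0 → y ^ k • J ≠ J) → v J ≠ 0 → J ∈ FF y := by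
    intro J hJ hfree hvJ
    obtain ⟨M, hM⟩ := esc hfree (Finset.finite_toSet v.support)
    obtain ⟨M', hM'⟩ := esc (free_inv hfree) (Finset.finite_toSet v.support)
    refine ⟨max M M', fun m hm => ?_⟩
    have h4 := hM m ((le_max_left _ _).trans hm)
    have h5 := hM' m ((le_max_right _ _).trans hm)
    rw [Finset.mem_coe, Finsupp.mem_support_iff, not_not] at h4 h5
    rw [inv_pow] at h5
    rw [(hv J hJ m).1, (hv J hJ m).2, h4, h5]
    omega
  by_cases h2 : v H = 0
  · have h3 : v (y⁻¹ • H) ≠ 0 := by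
      intro h3
      rw [h2, h3] at h1
      exact hH (by rw [h1]; ring)
    have h4 : ¬ E y (y⁻¹ • H) := by
      rw [← E.smul_self, smul_inv_smul]
      exact hE
    have h5 := key _ h4 (by
      intro k hk h6
      apply hfree k hk
      rw [smul_smul, (Commute.pow_left (Commute.refl y) k).inv_right.eq, mul_smul] at h6
      exact smul_left_cancel _ h6) h3
    rw [h] at h5
    exact h5
  · have h5 := key H hE hfree h2
    rw [h] at h5
    exact h5

theorem FF.descend {W : List A} {y : U P} (hy : Pi W y W) (h : (FF y).Nonempty) :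
    ∃ x : OE P, x.src = W ∧ (FF (x.val⁻¹ * y * x.val)).ncard < (FF y).ncard := by
  have hfin := FF.finite hy
  obtain ⟨H1, hH1⟩ := h
  -- a uniform bound
  obtain ⟨M, hM⟩ : ∃ M : ℕ, ∀ H ∈ FF y, ∀ m : ℕ, M ≤ m →
      uu (y ^ m) H ≠ 0 ∧ uu ((y ^ m)⁻¹) H ≠ 0 := by
    have h1 : ∀ H : Hyp P, ∃ M : ℕ, H ∈ FF y → ∀ m : ℕ, M ≤ m →
        uu (y ^ m) H ≠ 0 ∧ uu ((y ^ m)⁻¹) H ≠ 0 := by
      intro H
      by_cases hH : H ∈ FF y
      · obtain ⟨M, hM⟩ := hH
        exact ⟨M, fun _ => hM⟩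
      · exact ⟨0, fun h => absurd h hH⟩
    choose M hM using h1
    refine ⟨hfin.toFinset.sup M, fun H hH m hm => hM H hH m ?_⟩
    exact (Finset.le_sup (f := M) (hfin.mem_toFinset.2 hH)).trans hm
  have hyM : ∀ m, Pi W (y ^ m) W := fun m => (Dg P W).pow_mem hy m
  have hyM' : ∀ m, Pi W (y ^ m)⁻¹ W := fun m => (hyM m).symm
  obtain ⟨x, hx1, -, hx3⟩ := adj0 (hyM M) (· ∈ FF y) ⟨H1, (hM H1 hH1 M le_rfl).1, hH1⟩ (by
    intro g1 x J hg1 h1 h2 h3 h4 h5 ho
    obtain ⟨ρ, s1, s2⟩ := ho.sd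
    have hne : ohyp g1 x ≠ J := by
      rintro rfl
      exact h5 h2
    have h3' : cr J g1 ≠ cr J 1 := by
      rw [uu_apply] at h3
      exact sub_ne_zero.1 h3
    apply h5
    refine ⟨M, fun m hm => ?_⟩
    have h6 := hM _ h2 m hm
    have h7 := sep (hyM m) s1 s2 hne rfl h6.1 h3'
    have h8 := sep (hyM' m) s1 s2 hne rfl h6.2 h3'
    rw [uu_apply, uu_apply, h7, h8]
    exact ⟨sub_ne_zero.2 h3', sub_ne_zero.2 h3'⟩)
  refine ⟨x, hx1, ?_⟩
  set H0 := ohyp 1 x with hH0
  have hfree := FF.free hy hx3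
  have hfree' := free_inv hfree
  have hxW : Pi W x.val x.tgt := by rw [← hx1]; exact Pi.oe x
  have hsub : ∀ K ∈ FF (x.val⁻¹ * y * x.val), x.val • K ∈ FF y \ {H0} := by
    rintro K ⟨N, hN⟩
    set H := x.val • K with hH
    obtain ⟨M1, hM1⟩ := esc hfree (Set.finite_singleton H)
    obtain ⟨M2, hM2⟩ := esc hfree' (Set.finite_singleton H)
    have conjpow : ∀ m : ℕ, (x.val⁻¹ * y * x.val) ^ m = x.val⁻¹ * y ^ m * x.val := by
      intro m
      have := conj_pow (i := m) (a := x.val⁻¹) (b := y)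
      rw [inv_inv] at this
      exact this
    have val1 : ∀ g : U P, uu (x.val⁻¹ * g * x.val) K = cr H (g * x.val) - cr H x.val := by
      intro g
      rw [uu_apply, ← cr_equiv x.val K]
      congr 2
      group
    have val2 : ∀ m : ℕ, M1 ≤ m → M2 ≤ m → cr H (y ^ m * x.val) = cr H (y ^ m) ∧
        cr H ((y ^ m)⁻¹ * x.val) = cr H ((y ^ m)⁻¹) := by
      intro m h1 h2
      constructor
      · apply cr_val_ne
        intro h3
        apply hM1 m h1
        rw [Set.mem_singleton_iff, ← h3, hH0, smul_ohyp, mul_one]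
      · apply cr_val_ne
        intro h3
        apply hM2 m h2
        rw [Set.mem_singleton_iff, ← h3, hH0, inv_pow, smul_ohyp, mul_one]
    have hne : H ≠ H0 := by
      intro h1
      set m := max (max M N) (max M1 M2) with hm
      have m1 : M ≤ m := (le_max_left _ _).trans (le_max_left _ _)
      have m2 : N ≤ m := (le_max_right _ _).trans (le_max_left _ _)
      have m3 : M1 ≤ m := (le_max_left _ _).trans (le_max_right _ _)
      have m4 : M2 ≤ m := (le_max_right _ _).trans (le_max_right _ _)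
      have h2 := (hN m m2).1
      rw [conjpow, val1, (val2 m m3 m4).1, h1] at h2
      have h3 := (hM H0 hx3 m m1).1
      rw [uu_apply] at h3
      have h4 := cr_val_eq H0 1 x rfl
      rw [one_mul] at h4
      have h5 := abs_le.1 (cr_le_one H0 (hyM m) 1)
      have h6 := abs_le.1 (cr_le_one H0 hxW 1)
      have h7 := abs_le.1 (cr_le_one H0 (hxW.symm.trans (hyM m)) x.val)
      rw [one_mul] at h5 h6
      rw [mul_inv_cancel_left] at h7
      omega
    refine ⟨⟨max N (max M1 M2), fun m hm => ?_⟩, hne⟩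
    have m2 : N ≤ m := (le_max_left _ _).trans hm
    have m3 : M1 ≤ m := ((le_max_left _ _).trans (le_max_right _ _)).trans hm
    have m4 : M2 ≤ m := ((le_max_right _ _).trans (le_max_right _ _)).trans hm
    have e1 : cr H x.val = cr H 1 := by
      have := cr_val_ne H 1 x (fun h => hne h.symm)
      rw [one_mul] at this
      exact this
    obtain ⟨h1, h2⟩ := hN m m2
    have e2 : (x.val⁻¹ * y ^ m * x.val)⁻¹ = x.val⁻¹ * (y ^ m)⁻¹ * x.val := by group
    rw [conjpow, val1, (val2 m m3 m4).1, e1] at h1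
    rw [conjpow, e2, val1, (val2 m m3 m4).2, e1] at h2
    rw [uu_apply, uu_apply]
    exact ⟨h1, h2⟩
  have himg : (x.val • ·) '' FF (x.val⁻¹ * y * x.val) ⊆ FF y \ {H0} := by
    rintro _ ⟨K, hK, rfl⟩
    exact hsub K hK
  calc (FF (x.val⁻¹ * y * x.val)).ncard
      = ((x.val • ·) '' FF (x.val⁻¹ * y * x.val)).ncard :=
        (Set.ncard_image_of_injective _ (MulAction.injective x.val)).symm
    _ ≤ (FF y \ {H0}).ncard := Set.ncard_le_ncard himg (hfin.subset Set.sdiff_subset)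
    _ < (FF y).ncard := Set.ncard_sdiff_singleton_lt_of_mem hx3 hfin

/-- **Good base points** -/
theorem good_base (n : ℕ) : ∀ {W : List A} {y : U P}, Pi W y W → (FF y).ncard ≤ n →
    ∃ (g : U P) (W' : List A), Pi W g W' ∧ ∀ H, uu (g⁻¹ * y * g) H ≠ 0 → E (g⁻¹ * y * g) H := by
  induction n with
  | zero =>
    intro W y hy hn
    have h1 : FF y = ∅ := (Set.ncard_eq_zero (FF.finite hy)).1 (by omega)
    refine ⟨1, W, Pi.refl W, ?_⟩
    rw [inv_one, one_mul, mul_one]
    exact fun H hH => good_of_empty hy h1 hH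
  | succ n ih =>
    intro W y hy hn
    rcases Set.eq_empty_or_nonempty (FF y) with h1 | h1
    · refine ⟨1, W, Pi.refl W, ?_⟩
      rw [inv_one, one_mul, mul_one]
      exact fun H hH => good_of_empty hy h1 hH
    · obtain ⟨x, hx1, hx2⟩ := FF.descend hy h1
      have hxW : Pi W x.val x.tgt := by rw [← hx1]; exact Pi.oe x
      obtain ⟨g, W', h2, h3⟩ := ih ((hxW.symm.trans hy).trans hxW) (by omega)
      refine ⟨x.val * g, W', hxW.trans h2, ?_⟩
      have e : (x.val * g)⁻¹ * y * (x.val * g) = g⁻¹ * (x.val⁻¹ * y * x.val) * g := by group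
      rw [e]
      exact h3

/-- generic element with a good base point -/
theorem exists_good {ι : Type} [Fintype ι] {W : List A} (y : ι → U P) (hy : ∀ i, Pi W (y i) W)
    (hc : ∀ i j, y i * y j = y j * y i) :
    ∃ (g : U P) (W' : List A) (Y : U P), Pi W g W' ∧ Pi W' Y W' ∧
      (∀ H, uu Y H ≠ 0 → E Y H) ∧ (∀ i H, E (g⁻¹ * y i * g) H → E Y H) ∧
      ∀ z, (∀ i, z * y i = y i * z) → (g⁻¹ * z * g) * Y = Y * (g⁻¹ * z * g) := by
  set Γ : Subgroup (U P) := Subgroup.closure (Set.range y) with hΓ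
  have hcen : ∀ z, (∀ i, z * y i = y i * z) → ∀ t ∈ Γ, z * t = t * z := by
    intro z hz t ht
    have h1 : Γ ≤ Subgroup.centralizer {z} := by
      rw [hΓ, Subgroup.closure_le]
      rintro _ ⟨i, rfl⟩
      rw [SetLike.mem_coe, Subgroup.mem_centralizer_iff]
      intro w hw
      rw [Set.mem_singleton_iff] at hw
      subst hw
      exact hz i
    have h2 := h1 ht
    rw [Subgroup.mem_centralizer_iff] at h2
    exact h2 z rfl
  have hAb : Ab W Γ := by
    constructor
    · intro x hx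
      have h1 : Γ ≤ Dg P W := by
        rw [hΓ, Subgroup.closure_le]
        rintro _ ⟨i, rfl⟩
        exact hy i
      exact h1 hx
    · intro x hx t ht
      refine hcen x ?_ t ht
      intro i
      exact (hcen (y i) (fun j => hc i j) x hx).symm
  obtain ⟨c, hcΓ, hcE⟩ := gen_all hAb Finset.univ y (fun i => Subgroup.subset_closure ⟨i, rfl⟩)
  obtain ⟨g, W', h1, h2⟩ := good_base _ (hAb.le c hcΓ) le_rfl
  refine ⟨g, W', g⁻¹ * c * g, h1, (h1.symm.trans (hAb.le c hcΓ)).trans h1, h2, ?_, ?_⟩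
  · intro i H hH
    rw [E.conj'] at hH ⊢
    exact hcE i (Finset.mem_univ i) _ hH
  · intro z hz
    have h3 := hcen z hz c hcΓ
    calc g⁻¹ * z * g * (g⁻¹ * c * g) = g⁻¹ * (z * c) * g := by group
      _ = g⁻¹ * (c * z) * g := by rw [h3]
      _ = _ := by group

end Pool.Agent.W391
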