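import Pool.Agent.W391.Comb

set_option autoImplicit false

/-!
# Supports of iterated commutators and the counting argument
-/

namespace Pool.Agent.W391

open scoped commutatorElement

section sup

variable {D : Type} [Group D]

/-- an abstract system of subgroups attached to the intervals `[a, b)` of `[0, N)` -/
structure Sys (D : Type) [Group D] (N : ℕ) where
  Gi : ℕ → ℕ → Subgroup D
  mono : ∀ {a b a' b'}, a' ≤ a → a < b → b ≤ b' → b' ≤ N → Gi a b ≤ Gi a' b'
  comm : ∀ {a b a' b'}, b ≤ a' → b' ≤ N → ∀ g ∈ Gi a b, ∀ h ∈ Gi a' b', g * h = h * g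

variable {N : ℕ} (S : Sys D N)

/-- generators of the group supported on `X` -/
def SGen (X : Set ℕ) : Set D :=
  {g | ∃ a b, a < b ∧ (∀ n, a ≤ n → n < b → n ∈ X) ∧ g ∈ S.Gi a b}

/-- the group supported on `X` -/
def Sup (X : Set ℕ) : Subgroup D := Subgroup.closure (SGen S X)

theorem mem_Sup {X : Set ℕ} {a b : ℕ} (hab : a < b) (h : ∀ n, a ≤ n → n < b → n ∈ X) {g : D}
    (hg : g ∈ S.Gi a b) : g ∈ Sup S X := Subgroup.subset_closure ⟨a, b, hab, h, hg⟩

theorem Sup_empty : Sup S ∅ = ⊥ := by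
  unfold Sup
  rw [Subgroup.closure_eq_bot_iff]
  rintro g ⟨a, b, h1, h2, -⟩
  exact absurd (h2 a le_rfl h1) (by simp)

/-- union of two touching intervals -/
theorem touch {X Y : Set ℕ} {a b s t : ℕ} (hab : a < b) (hst : s < t)
    (h : ∀ n, a ≤ n → n < b → n ∈ X ∪ Y) (h' : ∀ n, s ≤ n → n < t → n ∈ X ∪ Y)
    (h1 : s ≤ b) (h2 : a ≤ t) :
    ∀ n, min a s ≤ n → n < max b t → n ∈ X ∪ Y := by
  intro n h3 h4
  by_cases h5 : a ≤ n ∧ n < b
  · exact h n h5.1 h5.2
  · exact h' n (by omega) (by omega)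

variable {S}

theorem bdI {X : Set ℕ} (hX : ∀ n ∈ X, n < N) {a b : ℕ} (hab : a < b)
    (h : ∀ n, a ≤ n → n < b → n ∈ X) : b ≤ N := by
  have := hX (b - 1) (h _ (by omega) (by omega))
  omega

theorem norm_gen {X Y : Set ℕ} (hX : ∀ n ∈ X, n < N) (hY : ∀ n ∈ Y, n < N) {a b : ℕ}
    (hab : a < b) (h : ∀ n, a ≤ n → n < b → n ∈ X ∪ Y) {g : D} (hg : g ∈ S.Gi a b) :
    ∀ k ∈ Sup S (mt X Y), g * k * g⁻¹ ∈ Sup S (mt X Y) := by
  have hXY : ∀ n ∈ X ∪ Y, n < N := by
    rintro n (hn | hn)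
    · exact hX n hn
    · exact hY n hn
  intro k hk
  induction hk using Subgroup.closure_induction with
  | mem k hk =>
    obtain ⟨s, t, hst, h1, h2⟩ := hk
    have h1' : ∀ n, s ≤ n → n < t → n ∈ X ∪ Y := fun n h3 h4 => mt_subset (h1 n h3 h4)
    by_cases hc : s ≤ b ∧ a ≤ t
    · have h3 := touch hab hst h h1' hc.1 hc.2
      have h4 : ∀ n, min a s ≤ n → n < max b t → n ∈ mt X Y := by
        intro n h5 h6
        refine mt_conn (h1 s le_rfl hst) ?_
        intro j hj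
        exact h3 j (by omega) (by omega)
      have h5 : max b t ≤ N := bdI (mt_bd hX hY) (by omega) h4
      have hg' := S.mono (show min a s ≤ a by omega) hab (show b ≤ max b t by omega) h5 hg
      have hk' := S.mono (show min a s ≤ s by omega) hst (show t ≤ max b t by omega) h5 h2
      exact mem_Sup S (by omega) h4 (mul_mem (mul_mem hg' hk') (inv_mem hg'))
    · have hcomm : g * k = k * g := by
        rcases Nat.lt_or_ge b s with h5 | h5
        · exact S.comm h5.le (bdI (mt_bd hX hY) hst h1) g hg k h2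
        · exact (S.comm (show t ≤ a by omega) (bdI hXY hab h) k h2 g hg).symm
      rw [hcomm, mul_inv_cancel_right]
      exact mem_Sup S hst h1 h2
  | one => rw [mul_one, mul_inv_cancel]; exact one_mem _
  | mul x y _ _ hx hy =>
    have : g * (x * y) * g⁻¹ = (g * x * g⁻¹) * (g * y * g⁻¹) := by group
    rw [this]; exact mul_mem hx hy
  | inv x _ hx =>
    have : g * x⁻¹ * g⁻¹ = (g * x * g⁻¹)⁻¹ := by group
    rw [this]; exact inv_mem hx

/-- elements conjugating a subgroup into itself, both ways -/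
def Nor (K : Subgroup D) : Subgroup D where
  carrier := {g | (∀ k ∈ K, g * k * g⁻¹ ∈ K) ∧ ∀ k ∈ K, g⁻¹ * k * g ∈ K}
  one_mem' := by simp
  mul_mem' := by
    rintro a b ⟨h1, h2⟩ ⟨h3, h4⟩
    constructor
    · intro k hk
      have : a * b * k * (a * b)⁻¹ = a * (b * k * b⁻¹) * a⁻¹ := by group
      rw [this]; exact h1 _ (h3 k hk)
    · intro k hk
      have : (a * b)⁻¹ * k * (a * b) = b⁻¹ * (a⁻¹ * k * a) * b := by group
      rw [this]; exact h4 _ (h2 k hk)
  inv_mem' := by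
    rintro a ⟨h1, h2⟩
    exact ⟨fun k hk => by simpa using h2 k hk, fun k hk => by simpa using h1 k hk⟩

theorem sup_nor {X Y Z : Set ℕ} (hX : ∀ n ∈ X, n < N) (hY : ∀ n ∈ Y, n < N)
    (hZ : Z ⊆ X ∪ Y) : Sup S Z ≤ Nor (Sup S (mt X Y)) := by
  unfold Sup
  rw [Subgroup.closure_le]
  rintro g ⟨a, b, hab, h, hg⟩
  have h' : ∀ n, a ≤ n → n < b → n ∈ X ∪ Y := fun n h1 h2 => hZ (h n h1 h2)
  refine ⟨norm_gen hX hY hab h' hg, fun k hk => ?_⟩
  have := norm_gen hX hY hab h' (inv_mem hg) k hk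
  rwa [inv_inv] at this

theorem comm_sup {X Y : Set ℕ} (hX : ∀ n ∈ X, n < N) (hY : ∀ n ∈ Y, n < N) {g h : D}
    (hg : g ∈ Sup S X) (hh : h ∈ Sup S Y) : ⁅g, h⁆ ∈ Sup S (mt X Y) := by
  have nX : Sup S X ≤ Nor (Sup S (mt X Y)) := sup_nor hX hY (fun _ h => Or.inl h)
  have nY : Sup S Y ≤ Nor (Sup S (mt X Y)) := sup_nor hX hY (fun _ h => Or.inr h)
  -- generators
  have gen : ∀ x ∈ SGen S X, ∀ y ∈ SGen S Y, ⁅x, y⁆ ∈ Sup S (mt X Y) := by
    rintro x ⟨a, b, hab, h1, hx⟩ y ⟨s, t, hst, h2, hy⟩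
    by_cases hc : s ≤ b ∧ a ≤ t
    · have h3 := touch hab hst (fun n h3 h4 => Or.inl (h1 n h3 h4))
        (fun n h3 h4 => Or.inr (h2 n h3 h4)) hc.1 hc.2
      have h4 : ∀ n, min a s ≤ n → n < max b t → n ∈ mt X Y := by
        intro n h5 h6
        refine ⟨⟨a, h1 a le_rfl hab, fun j hj => h3 j (by omega) (by omega)⟩,
          s, h2 s le_rfl hst, fun j hj => h3 j (by omega) (by omega)⟩
      have h5 : max b t ≤ N := bdI (mt_bd hX hY) (by omega) h4
      have hx' := S.mono (show min a s ≤ a by omega) hab (show b ≤ max b t by omega) h5 hx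
      have hy' := S.mono (show min a s ≤ s by omega) hst (show t ≤ max b t by omega) h5 hy
      refine mem_Sup S (by omega) h4 ?_
      rw [commutatorElement_def]
      exact mul_mem (mul_mem (mul_mem hx' hy') (inv_mem hx')) (inv_mem hy')
    · have hcomm : x * y = y * x := by
        rcases Nat.lt_or_ge b s with h5 | h5
        · exact S.comm h5.le (bdI hY hst h2) x hx y hy
        · exact (S.comm (show t ≤ a by omega) (bdI hX hab h1) y hy x hx).symm
      rw [commutatorElement_eq_one_iff_mul_comm.2 hcomm]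
      exact one_mem _
  -- fixed generator on the right
  have st1 : ∀ y ∈ SGen S Y, ∀ x ∈ Sup S X, ⁅x, y⁆ ∈ Sup S (mt X Y) := by
    intro y hy x hx
    induction hx using Subgroup.closure_induction with
    | mem x hx => exact gen x hx y hy
    | one => rw [commutatorElement_one_left]; exact one_mem _
    | mul a b ha hb iha ihb =>
      have : ⁅a * b, y⁆ = (a * ⁅b, y⁆ * a⁻¹) * ⁅a, y⁆ := by
        simp only [commutatorElement_def]; group
      rw [this]
      exact mul_mem ((nX ha).1 _ ihb) iha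
    | inv a ha iha =>
      have : ⁅a⁻¹, y⁆ = a⁻¹ * ⁅a, y⁆⁻¹ * a := by
        simp only [commutatorElement_def]; group
      rw [this]
      exact (nX ha).2 _ (inv_mem iha)
  induction hh using Subgroup.closure_induction with
  | mem y hy => exact st1 y hy g hg
  | one => rw [commutatorElement_one_right]; exact one_mem _
  | mul a b ha hb iha ihb =>
    have : ⁅g, a * b⁆ = ⁅g, a⁆ * (a * ⁅g, b⁆ * a⁻¹) := by
      simp only [commutatorElement_def]; group
    rw [this]
    exact mul_mem iha ((nY ha).1 _ ihb)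
  | inv a ha iha =>
    have : ⁅g, a⁻¹⁆ = a⁻¹ * ⁅g, a⁆⁻¹ * a := by
      simp only [commutatorElement_def]; group
    rw [this]
    exact (nY ha).2 _ (inv_mem iha)

/-- the boundary of `X` consists of good cuts -/
def Good (C : Set ℕ) (X : Set ℕ) : Prop :=
  (∀ n, n ∈ X → n + 1 ∉ X → n + 1 ∈ C) ∧ (∀ n, n ∉ X → n + 1 ∈ X → n + 1 ∈ C) ∧ 0 ∈ C

theorem Good.comp {C X : Set ℕ} (h : Good C X) {a b : ℕ} (hab : IsC X a b) : a ∈ C ∧ b + 1 ∈ C := by
  constructor
  · rcases Nat.eq_zero_or_pos a with h1 | h1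
    · rw [h1]; exact h.2.2
    · obtain ⟨n, rfl⟩ : ∃ n, a = n + 1 := ⟨a - 1, by omega⟩
      exact h.2.1 n (hab.left n rfl) (hab.mem _ le_rfl hab.le)
  · exact h.1 b (hab.mem b hab.le le_rfl) hab.right

theorem Good.mt {C X Y : Set ℕ} (h : Good C X) (h' : Good C Y) : Good C (mt X Y) := by
  refine ⟨?_, ?_, h.2.2⟩
  · intro n h1 h2
    have h3 : n + 1 ∉ X ∪ Y := by
      intro h3
      apply h2
      refine mt_conn h1 ?_
      intro j hj
      rcases (show j = n ∨ j = n + 1 by omega) with rfl | rfl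
      · exact mt_subset h1
      · exact h3
    rcases mt_subset h1 with h4 | h4
    · exact h.1 n h4 (fun h5 => h3 (Or.inl h5))
    · exact h'.1 n h4 (fun h5 => h3 (Or.inr h5))
  · intro n h1 h2
    have h3 : n ∉ X ∪ Y := by
      intro h3
      apply h1
      refine mt_conn h2 ?_
      intro j hj
      rcases (show j = n ∨ j = n + 1 by omega) with rfl | rfl
      · exact h3
      · exact mt_subset h2
    rcases mt_subset h2 with h4 | h4
    · exact h.2.1 n (fun h5 => h3 (Or.inl h5)) h4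
    · exact h'.2.1 n (fun h5 => h3 (Or.inr h5)) h4

/-- elements normalising the groups attached to intervals bounded by good cuts -/
theorem conj_sup {C X : Set ℕ} (hX : ∀ n ∈ X, n < N) (hG : Good C X) {c : D}
    (hc : ∀ a ∈ C, ∀ b ∈ C, a < b → b ≤ N → ∀ g ∈ S.Gi a b, c * g * c⁻¹ ∈ S.Gi a b) {g : D}
    (hg : g ∈ Sup S X) : c * g * c⁻¹ ∈ Sup S X := by
  induction hg using Subgroup.closure_induction with
  | mem k hk =>
    obtain ⟨s, t, hst, h1, h2⟩ := hk
    obtain ⟨a, b, h3, h4, h5⟩ := exists_comp hX (h1 s le_rfl hst)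
    have h6 := h3.absorb (s := s) (t := t - 1) (p := s) (fun n h6 h7 => h1 n h6 (by omega))
      h4 h5 le_rfl (by omega)
    have h7 : b + 1 ≤ N := hX b (h3.mem b h3.le le_rfl)
    have h8 := hc a (hG.comp h3).1 (b + 1) (hG.comp h3).2 (by have := h3.le; omega) h7 k
      (S.mono (by omega) hst (by omega) h7 h2)
    exact mem_Sup S (by have := h3.le; omega) (fun n h9 h10 => h3.mem n h9 (by omega)) h8
  | one => rw [mul_one, mul_inv_cancel]; exact one_mem _
  | mul x y _ _ hx hy =>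
    have : c * (x * y) * c⁻¹ = (c * x * c⁻¹) * (c * y * c⁻¹) := by group
    rw [this]; exact mul_mem hx hy
  | inv x _ hx =>
    have : c * x⁻¹ * c⁻¹ = (c * x * c⁻¹)⁻¹ := by group
    rw [this]; exact inv_mem hx

theorem conj_sup_pow {C X : Set ℕ} (hX : ∀ n ∈ X, n < N) (hG : Good C X) {c : D}
    (hc : ∀ a ∈ C, ∀ b ∈ C, a < b → b ≤ N → ∀ g ∈ S.Gi a b, c * g * c⁻¹ ∈ S.Gi a b) (m : ℕ)
    {g : D} (hg : g ∈ Sup S X) : c ^ m * g * (c ^ m)⁻¹ ∈ Sup S X := by
  induction m with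
  | zero => simpa using hg
  | succ m ih =>
    have : c ^ (m + 1) * g * (c ^ (m + 1))⁻¹ = c * (c ^ m * g * (c ^ m)⁻¹) * c⁻¹ := by
      rw [pow_succ']; group
    rw [this]
    exact conj_sup hX hG hc ih

end sup

section trees

variable {G : Type} [Group G] {ι : Type}

/-- iterated commutators of the elements `c ^ n * ξ i * c ^ (-n)` with pairwise distinct `n`,
together with the supports of their images -/
inductive Tr (ξ : ι → G) (c : G) (X : ι → Set ℕ) : ℕ → G → Set ℕ → Prop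
  | base (i : ι) : Tr ξ c X 1 (ξ i) (X i)
  | comm {n m : ℕ} {T T' : G} {Z Z' : Set ℕ} : Tr ξ c X n T Z → Tr ξ c X m T' Z' →
      Tr ξ c X (n + m) ⁅T, c ^ n * T' * (c ^ n)⁻¹⁆ (mt Z Z')

variable {ξ : ι → G} {c : G} {X : ι → Set ℕ} {D : Type} [Group D] {N : ℕ} {S : Sys D N}
  {C : Set ℕ} {φ : G →* D}

theorem Tr.sup (hX : ∀ i, ∀ n ∈ X i, n < N) (hG : ∀ i, Good C (X i))
    (hξ : ∀ i, φ (ξ i) ∈ Sup S (X i))
    (hc : ∀ a ∈ C, ∀ b ∈ C, a < b → b ≤ N → ∀ g ∈ S.Gi a b, φ c * g * (φ c)⁻¹ ∈ S.Gi a b)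
    {n : ℕ} {T : G} {Z : Set ℕ} (h : Tr ξ c X n T Z) :
    (∀ n ∈ Z, n < N) ∧ Good C Z ∧ φ T ∈ Sup S Z := by
  induction h with
  | base i => exact ⟨hX i, hG i, hξ i⟩
  | @comm n m T T' Z Z' _ _ ih ih' =>
    refine ⟨mt_bd ih.1 ih'.1, ih.2.1.mt ih'.2.1, ?_⟩
    rw [map_commutatorElement]
    refine comm_sup ih.1 ih'.1 ih.2.2 ?_
    rw [map_mul, map_mul, map_inv, map_pow]
    exact conj_sup_pow ih'.1 ih'.2.1 hc n ih'.2.2

/-- families of iterated commutators with private points and bounded multiplicity -/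
def PP (ξ : ι → G) (c : G) (X : ι → Set ℕ) (κ : Type) (m : ℕ) : Prop :=
  ∃ (n : ℕ) (T : κ → G) (Z : κ → Set ℕ), (∀ r, Tr ξ c X n (T r) (Z r)) ∧ Priv Z ∧ Mult Z m

theorem PP.restrict {κ κ' : Type} {m : ℕ} (h : PP ξ c X κ m) (f : κ' → κ)
    (hf : Function.Injective f) : PP ξ c X κ' m := by
  classical
  obtain ⟨n, T, Z, h1, h2, h3⟩ := h
  refine ⟨n, T ∘ f, Z ∘ f, fun r => h1 (f r), ?_, ?_⟩
  · intro i a b hab
    obtain ⟨p, h4, h5, h6⟩ := h2 (f i) a b hab
    exact ⟨p, h4, h5, fun j hj => hf (h6 _ hj)⟩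
  · intro p s hs
    have := h3 p (s.image f) (by
      intro i hi
      obtain ⟨j, hj, rfl⟩ := Finset.mem_image.1 hi
      exact hs j hj)
    rwa [Finset.card_image_of_injective _ hf] at this

/-- the linear triple system -/
def trip {K : Type} [AddGroup K] (r : K × K) (k : Fin 3) : Fin 3 × K :=
  (k, if k = 0 then r.1 else if k = 1 then r.2 else r.1 + r.2)

theorem trip_lin {K : Type} [AddGroup K] (r r' : K × K) (k l k' l' : Fin 3) (hkl : k ≠ l)
    (h1 : trip r k = trip r' k') (h2 : trip r l = trip r' l') : r = r' := by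
  have e1 : k = k' := congrArg Prod.fst h1
  have e2 : l = l' := congrArg Prod.fst h2
  subst e1; subst e2
  have f1 := congrArg Prod.snd h1
  have f2 := congrArg Prod.snd h2
  obtain ⟨a, b⟩ := r
  obtain ⟨a', b'⟩ := r'
  fin_cases k <;> fin_cases l <;> simp_all [trip]

theorem PP.step {K : Type} [AddGroup K] {m : ℕ} (hX : ∀ i, ∀ n ∈ X i, n < N)
    (h : PP ξ c X (Fin 3 × K) m) : PP ξ c X (K × K) (m + 4) := by
  obtain ⟨n, T, Z, h1, h2, h3⟩ := h
  have hb : ∀ {n : ℕ} {T : G} {Z : Set ℕ}, Tr ξ c X n T Z → ∀ n ∈ Z, n < N := by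
    intro n T Z h
    induction h with
    | base i => exact hX i
    | comm _ _ ih ih' => exact mt_bd ih ih'
  have hZ : ∀ i, ∀ n ∈ Z i, n < N := fun i => hb (h1 i)
  refine ⟨n + n + n, fun r => ⁅⁅T (trip r 0), c ^ n * T (trip r 1) * (c ^ n)⁻¹⁆,
    c ^ (n + n) * T (trip r 2) * (c ^ (n + n))⁻¹⁆,
    fun r => mt (mt (Z (trip r 0)) (Z (trip r 1))) (Z (trip r 2)), ?_, ?_, ?_⟩
  · intro r
    exact ((h1 _).comm (h1 _)).comm (h1 _)
  · exact step_priv (R := trip) trip_lin h2 (fun r => cov_mt hZ (trip r))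
      (fun r => mt_bd (mt_bd (hZ _) (hZ _)) (hZ _))
  · exact step_mult (R := trip) trip_lin h2 (fun r => cov_mt hZ (trip r))
      (fun r => mt_bd (mt_bd (hZ _) (hZ _)) (hZ _)) h3

theorem PP.grow {m : ℕ} (hX : ∀ i, ∀ n ∈ X i, n < N) (h : PP ξ c X (Fin 27) m) (k : ℕ) :
    PP ξ c X (Fin (27 * 3 ^ k)) (m + 4 * k) := by
  induction k with
  | zero => simpa using h
  | succ k ih =>
    haveI : NeZero (9 * 3 ^ k) := ⟨by positivity⟩
    have e : Fin 3 × ZMod (9 * 3 ^ k) ≃ Fin (27 * 3 ^ k) := by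
      apply Fintype.equivOfCardEq
      rw [Fintype.card_prod, ZMod.card, Fintype.card_fin, Fintype.card_fin]
      ring
    have h1 : PP ξ c X (Fin 3 × ZMod (9 * 3 ^ k)) (m + 4 * k) := ih.restrict e e.injective
    have h2 := h1.step hX
    have hle : Fintype.card (Fin (27 * 3 ^ (k + 1))) ≤
        Fintype.card (ZMod (9 * 3 ^ k) × ZMod (9 * 3 ^ k)) := by
      rw [Fintype.card_prod, ZMod.card, Fintype.card_fin, pow_succ]
      have : 1 ≤ 3 ^ k := Nat.one_le_pow _ _ (by norm_num)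
      nlinarith
    obtain ⟨f, hf⟩ : ∃ f : Fin (27 * 3 ^ (k + 1)) → ZMod (9 * 3 ^ k) × ZMod (9 * 3 ^ k),
        Function.Injective f := by
      obtain ⟨f⟩ := Function.Embedding.nonempty_of_card_le hle
      exact ⟨f, f.injective⟩
    have h3 := h2.restrict f hf
    have e2 : m + 4 * k + 4 = m + 4 * (k + 1) := by ring
    rwa [e2] at h3

/-- **The counting argument.** -/
theorem kill (hX : ∀ i, ∀ n ∈ X i, n < N) (hG : ∀ i, Good C (X i))
    (hξ : ∀ i, φ (ξ i) ∈ Sup S (X i))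
    (hc : ∀ a ∈ C, ∀ b ∈ C, a < b → b ≤ N → ∀ g ∈ S.Gi a b, φ c * g * (φ c)⁻¹ ∈ S.Gi a b)
    (e : Fin 27 ≃ ι) (hP : Priv X) (hM : Mult X 2)
    (hne : ∀ {n : ℕ} {T : G} {Z : Set ℕ}, Tr ξ c X n T Z → T ≠ 1)
    (hφ : Function.Injective φ) : False := by
  classical
  have h0 : PP ξ c X (Fin 27) 2 := by
    have : PP ξ c X ι 2 := ⟨1, ξ, X, fun r => Tr.base r, hP, hM⟩
    exact this.restrict e e.injective
  obtain ⟨n, T, Z, h1, -, h3⟩ := h0.grow hX N
  have hZ : ∀ r, ∃ p, p ∈ Z r := by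
    intro r
    by_contra hcon
    have h4 : Z r = ∅ := Set.eq_empty_iff_forall_notMem.2 (fun p hp => hcon ⟨p, hp⟩)
    have h5 := ((h1 r).sup hX hG hξ hc).2.2
    rw [h4, Sup_empty, Subgroup.mem_bot] at h5
    exact hne (h1 r) (hφ (by rw [h5, map_one]))
  choose p hp using hZ
  have hlt : ∀ r, p r < N := fun r => ((h1 r).sup hX hG hξ hc).1 _ (hp r)
  have hcard : (Finset.univ : Finset (Fin (27 * 3 ^ N))).card ≤ (2 + 4 * N) *
      (Finset.range N).card := by
    apply Finset.card_le_mul_card_image_of_maps_to (f := p)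
    · intro r _
      exact Finset.mem_range.2 (hlt r)
    · intro q _
      apply h3 q
      intro i hi
      rw [Finset.mem_filter] at hi
      rw [← hi.2]
      exact hp i
  rw [Finset.card_univ, Fintype.card_fin, Finset.card_range] at hcard
  have key : ∀ N : ℕ, (2 + 4 * N) * N < 27 * 3 ^ N := by
    intro N
    induction N with
    | zero => norm_num
    | succ N ih =>
      rw [pow_succ]
      have : N * 8 + 6 ≤ 27 * 3 ^ N := by
        have h6 : ∀ N : ℕ, N * 8 + 6 ≤ 27 * 3 ^ N := by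
          intro N
          induction N with
          | zero => norm_num
          | succ N ih => rw [pow_succ]; omega
        exact h6 N
      nlinarith
  exact absurd hcard (not_le.2 (key N))

end trees

end Pool.Agent.W391
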