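import Pool.Agent.W391.D5
import Pool.Agent.W391.Kill

set_option autoImplicit false

/-!
# The system of subgroups attached to a base word
-/

namespace Pool.Agent.W391

open H540DG Pool.Agent.H599R3.RH Pool.Agent.H599R3.SV
open scoped commutatorElement

theorem priv_mult {ι : Type} {X : ι → Set ℕ} {N : ℕ} (hX : ∀ i, ∀ n ∈ X i, n < N)
    (hP : Priv X) : Mult X 2 := by
  classical
  intro p S hS
  by_contra hcon
  obtain ⟨i, hi, j, hj, k, hk, hij, hik, hjk⟩ := Finset.two_lt_card.1 (not_le.1 hcon)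
  have h1 : ∀ i, p ∈ X i → ∃ a b q, IsC (X i) a b ∧ a ≤ p ∧ p ≤ b ∧ a ≤ q ∧ q ≤ b ∧
      ∀ j, q ∈ X j → j = i := by
    intro i hi
    obtain ⟨a, b, h1, h2, h3⟩ := exists_comp (hX i) hi
    obtain ⟨q, h4, h5, h6⟩ := hP i a b h1
    exact ⟨a, b, q, h1, h2, h3, h4, h5, h6⟩
  obtain ⟨a1, b1, q1, c1, u1, v1, s1, t1, w1⟩ := h1 i (hS i hi)
  obtain ⟨a2, b2, q2, c2, u2, v2, s2, t2, w2⟩ := h1 j (hS j hj)
  obtain ⟨a3, b3, q3, c3, u3, v3, s3, t3, w3⟩ := h1 k (hS k hk)
  have n1 : q1 ≠ p := by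
    rintro rfl
    exact hij (w1 j (hS j hj)).symm
  have n2 : q2 ≠ p := by
    rintro rfl
    exact hij (w2 i (hS i hi))
  have n3 : q3 ≠ p := by
    rintro rfl
    exact hik (w3 i (hS i hi))
  -- membership in the other components
  have m12 : ¬ ((q1 ≤ q2 ∧ q2 ≤ p) ∨ (p ≤ q2 ∧ q2 ≤ q1)) := by
    intro h
    exact hij (w2 i (c1.mem q2 (by omega) (by omega)))
  have m21 : ¬ ((q2 ≤ q1 ∧ q1 ≤ p) ∨ (p ≤ q1 ∧ q1 ≤ q2)) := by
    intro h
    exact hij (w1 j (c2.mem q1 (by omega) (by omega))).symm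
  have m13 : ¬ ((q1 ≤ q3 ∧ q3 ≤ p) ∨ (p ≤ q3 ∧ q3 ≤ q1)) := by
    intro h
    exact hik (w3 i (c1.mem q3 (by omega) (by omega)))
  have m31 : ¬ ((q3 ≤ q1 ∧ q1 ≤ p) ∨ (p ≤ q1 ∧ q1 ≤ q3)) := by
    intro h
    exact hik (w1 k (c3.mem q1 (by omega) (by omega))).symm
  have m23 : ¬ ((q2 ≤ q3 ∧ q3 ≤ p) ∨ (p ≤ q3 ∧ q3 ≤ q2)) := by
    intro h
    exact hjk (w3 j (c2.mem q3 (by omega) (by omega)))
  have m32 : ¬ ((q3 ≤ q2 ∧ q2 ≤ p) ∨ (p ≤ q2 ∧ q2 ≤ q3)) := by
    intro h
    exact hjk (w2 k (c3.mem q2 (by omega) (by omega))).symm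
  omega

variable {A : Type} {P : Pres A}

/-! ### three part elements -/

/-- elements in three parts -/
def T3 (W : List A) (a b : ℕ) (α γ β : U P) : U P :=
  wh [] (W.drop a) α * wh (W.take a) (W.drop b) γ * wh (W.take b) [] β

/-- admissible parts -/
structure V3 (W : List A) (a b : ℕ) (α γ β : U P) : Prop where
  l : Pi (W.take a) α (W.take a)
  m : Pi (sl W a b) γ (sl W a b)
  r : Pi (W.drop b) β (W.drop b)

theorem V3.mul {W : List A} {a b : ℕ} {α γ β α' γ' β' : U P} (h : V3 W a b α γ β)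
    (h' : V3 W a b α' γ' β') : V3 W a b (α * α') (γ * γ') (β * β') :=
  ⟨h.l.trans h'.l, h.m.trans h'.m, h.r.trans h'.r⟩

theorem V3.inv {W : List A} {a b : ℕ} {α γ β : U P} (h : V3 W a b α γ β) :
    V3 W a b α⁻¹ γ⁻¹ β⁻¹ := ⟨h.l.symm, h.m.symm, h.r.symm⟩

theorem wh_comm {p q : List A} {α β : U P} (hα : Pi p α p) (hβ : Pi q β q) :
    wh [] q α * wh p [] β = wh p [] β * wh [] q α := interchange hα hβ

theorem T3.mul {W : List A} {a b : ℕ} (hab : a ≤ b) {α γ β α' γ' β' : U P}
    (h : V3 W a b α γ β) (h' : V3 W a b α' γ' β') :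
    T3 W a b α γ β * T3 W a b α' γ' β' = T3 W a b (α * α') (γ * γ') (β * β') := by
  have e1 : wh (W.take a) (W.drop b) γ * wh [] (W.drop a) α' =
      wh [] (W.drop a) α' * wh (W.take a) (W.drop b) γ := by
    have h1 : Pi (W.drop a) (wh [] (W.drop b) γ) (W.drop a) := by
      have := h.m.wh [] (W.drop b)
      rw [List.nil_append, ← drop_sl W hab] at this
      exact this
    have h2 := wh_comm h'.l h1
    rw [wh_wh, List.append_nil, List.append_nil] at h2
    exact h2.symm
  have e2 : wh (W.take b) [] β * wh [] (W.drop a) α' =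
      wh [] (W.drop a) α' * wh (W.take b) [] β := by
    have h1 : Pi (W.drop a) (wh (sl W a b) [] β) (W.drop a) := by
      have := h.r.wh (sl W a b) []
      rw [List.append_nil, ← drop_sl W hab] at this
      exact this
    have h2 := wh_comm h'.l h1
    rw [wh_wh, ← take_sl W hab, List.append_nil] at h2
    exact h2.symm
  have e3 : wh (W.take b) [] β * wh (W.take a) (W.drop b) γ' =
      wh (W.take a) (W.drop b) γ' * wh (W.take b) [] β := by
    have h1 : Pi (W.take b) (wh (W.take a) [] γ') (W.take b) := by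
      have := h'.m.wh (W.take a) []
      rw [List.append_nil, ← take_sl W hab] at this
      exact this
    have h2 := wh_comm h1 h.r
    rw [wh_wh, List.nil_append, List.nil_append] at h2
    exact h2.symm
  unfold T3
  rw [map_mul, map_mul, map_mul]
  calc wh [] (W.drop a) α * wh (W.take a) (W.drop b) γ * wh (W.take b) [] β *
        (wh [] (W.drop a) α' * wh (W.take a) (W.drop b) γ' * wh (W.take b) [] β')
      = wh [] (W.drop a) α * wh (W.take a) (W.drop b) γ * (wh (W.take b) [] β *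
        wh [] (W.drop a) α') * wh (W.take a) (W.drop b) γ' * wh (W.take b) [] β' := by group
    _ = wh [] (W.drop a) α * (wh (W.take a) (W.drop b) γ * wh [] (W.drop a) α') *
        (wh (W.take b) [] β * wh (W.take a) (W.drop b) γ') * wh (W.take b) [] β' := by
        rw [e2]; group
    _ = _ := by rw [e1, e3]; group

theorem T3.one {W : List A} {a b : ℕ} : T3 W a b (1 : U P) 1 1 = 1 := by
  unfold T3; simp

theorem V3.one {W : List A} {a b : ℕ} : V3 W a b (1 : U P) 1 1 :=
  ⟨Pi.refl _, Pi.refl _, Pi.refl _⟩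

theorem T3.inv {W : List A} {a b : ℕ} (hab : a ≤ b) {α γ β : U P} (h : V3 W a b α γ β) :
    (T3 W a b α γ β)⁻¹ = T3 W a b α⁻¹ γ⁻¹ β⁻¹ := by
  rw [inv_eq_iff_mul_eq_one, T3.mul hab h h.inv]
  simp [T3.one]

theorem M3.m1 {x y z x' y' z' : List A} {g : U P} (h : M3 x y z g x' y' z') :
    Mv x [] (y ++ z) g x' (y' ++ z') := by
  obtain ⟨α, μ, h1, h2, h3⟩ := h
  refine ⟨α, μ, h1, h2.pi, ?_⟩
  rw [List.nil_append, List.append_nil]
  exact h3

theorem M3.m2 {x y z x' y' z' : List A} {g : U P} (h : M3 x y z g x' y' z') :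
    Mv (x ++ y) [] z g (x' ++ y') z' := by
  obtain ⟨α, μ, h1, ⟨γ, β, h2, h3, rfl⟩, h4⟩ := h
  refine ⟨wh [] y α * wh x' [] γ, β, ?_, h3, ?_⟩
  · have e1 := h1.wh [] y
    have e2 := h2.wh x' []
    rw [List.append_nil, List.append_nil] at e2
    exact Pi.trans e1 e2
  · rw [h4, map_mul, map_mul, wh_wh, wh_wh, wh_wh, wh_wh]
    simp [mul_assoc]

theorem th_nonneg_end {W W' : List A} {g : U P} (h : Pi W g W') :
    H540DG.th g W'.length = W.length := by
  have := h.th (le_refl (0 : ℚ))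
  rwa [add_zero, add_zero] at this

theorem th_nonpos (g : U P) {t : ℚ} (h : t ≤ 0) : H540DG.th g t = t := by
  have h1 := th_wh_le [] [] g (t := t) (by simpa using h)
  rwa [wh_nil] at h1

theorem vz_bd {W : List A} {H : Hyp P} (h : Vz W H) : 0 ≤ H.lo ∧ H.hi ≤ W.length := by
  obtain ⟨γ, x, h1, rfl⟩ := h
  constructor
  · rw [lo_ohyp]
    conv_lhs => rw [← th_nonpos γ (le_refl (0 : ℚ))]
    exact (H540DG.th γ).le_iff_le.2 (Nat.cast_nonneg _)
  · rw [hi_ohyp]
    conv_rhs => rw [← th_nonneg_end h1]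
    rw [OrderIso.le_iff_le]
    have : x.src.length = x.a.length + x.top.length + x.c.length := by
      change (x.a ++ (x.top ++ x.c)).length = _
      simp only [List.length_append]; omega
    rw [this]
    push_cast
    linarith [Nat.cast_nonneg (α := ℚ) x.c.length]

/-- **Elements preserving two cuts** -/
theorem two_cuts {W : List A} {g : U P} (hg : Pi W g W) {a b : ℕ} (hab : a ≤ b)
    (hb : b ≤ W.length) (ha : Fx W g a) (hb' : Fx W g b) :
    ∃ α γ β, V3 W a b α γ β ∧ g = T3 W a b α γ β := by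
  obtain ⟨L, h1, h2, h3⟩ := min_path hg 1
  have ha0 : a ≤ W.length := hab.trans hb
  have h4 : IsPath (W.take a ++ (sl W a b ++ W.drop b)) L W := by
    rw [split3 W hab]; exact h1
  obtain ⟨x', y', z', h5, h6⟩ := dec2 L 1 _ _ _ _ h4 (by
    intro J hJ
    have h5 := nsd_iff.1 (ha.nsd ha0 (uu_of_mem h2 h3 hJ))
    have h6 := nsd_iff.1 (hb'.nsd hb (uu_of_mem h2 h3 hJ))
    rw [len_take W ha0, len_sl W hb, th_one_apply, th_one_apply]
    push_cast [hab]
    rw [add_sub_cancel]
    rcases h5 with h5 | h5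
    · exact Or.inl h5
    · rcases h6 with h6 | h6
      · exact Or.inr (Or.inl ⟨h5, h6⟩)
      · exact Or.inr (Or.inr h6))
  rw [h2] at h6
  have e1 := Mv.th_cut h6.m1
  have e2 := Mv.th_cut h6.m2
  rw [len_take W ha0] at e1
  rw [← take_sl W hab, len_take W hb] at e2
  have f1 := th_nat_inj e1 (ha.th ha0)
  have f2 := th_nat_inj e2 (hb'.th hb)
  obtain ⟨i1, -⟩ := app_inj h5 f1
  have h5' : W = (x' ++ y') ++ z' := by rw [List.append_assoc]; exact h5
  obtain ⟨i2, i3⟩ := app_inj h5' f2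
  have i4 : y' = sl W a b := by
    rw [take_sl W hab, i1] at i2
    exact List.append_cancel_left i2
  subst i1
  subst i3
  subst i4
  obtain ⟨α, μ, g1, ⟨γ, β, g2, g3, rfl⟩, g4⟩ := h6
  refine ⟨α, γ, β, ⟨g1, g2, g3⟩, ?_⟩
  rw [g4]
  unfold T3
  rw [map_mul, wh_wh, wh_wh, ← drop_sl W hab]
  simp only [List.append_nil, List.nil_append]
  rw [← take_sl W hab, mul_assoc]

theorem tv_iff {W : List A} {a b : ℕ} (hab : a ≤ b) {g : U P} :
    Tv W a b g ↔ ∃ α β, V3 W a b α 1 β ∧ g = T3 W a b α 1 β := by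
  constructor
  · rintro ⟨α, β, h1, h2, h3⟩
    refine ⟨α, β, ⟨h1, Pi.refl _, h2⟩, ?_⟩
    rw [h3]
    unfold T3
    rw [map_one, mul_one, ← drop_sl W hab, ← take_sl W hab]
  · rintro ⟨α, β, h1, h3⟩
    refine ⟨α, β, h1.l, h1.r, ?_⟩
    rw [h3]
    unfold T3
    rw [map_one, mul_one, ← drop_sl W hab, ← take_sl W hab]

/-- a commutator is trivial in an interval if one of the entries is -/
theorem tv_comm {W : List A} {a b : ℕ} (hab : a ≤ b) (hb : b ≤ W.length) {x y : U P}
    (hx : Pi W x W) (xa : Fx W x a) (xb : Fx W x b) (hy : Tv W a b y) : Tv W a b ⁅x, y⁆ := by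
  obtain ⟨α, γ, β, h1, rfl⟩ := two_cuts hx hab hb xa xb
  obtain ⟨α', β', h2, rfl⟩ := (tv_iff hab).1 hy
  rw [tv_iff hab]
  refine ⟨α * α' * α⁻¹ * α'⁻¹, β * β' * β⁻¹ * β'⁻¹, ?_, ?_⟩
  · have := ((h1.mul h2).mul h1.inv).mul h2.inv
    simpa using this
  · rw [commutatorElement_def, T3.inv hab h1, T3.inv hab h2, T3.mul hab h1 h2,
      T3.mul hab (h1.mul h2) h1.inv, T3.mul hab ((h1.mul h2).mul h1.inv) h2.inv]
    simp

/-- restriction to smaller intervals -/
theorem tv_res {W : List A} {a b s t : ℕ} (h1 : a ≤ s) (h2 : s ≤ t) (h3 : t ≤ b) {g : U P}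
    (h : Tv W a b g) : Tv W s t g := by
  have hab : a ≤ b := by omega
  obtain ⟨α, β, hα, hβ, h4⟩ := h
  refine ⟨wh [] (sl W a s) α, wh (sl W t b) [] β, ?_, ?_, ?_⟩
  · have := hα.wh [] (sl W a s)
    rw [List.nil_append, ← take_sl W h1] at this
    exact this
  · have := hβ.wh (sl W t b) []
    rw [List.append_nil, ← drop_sl W h3] at this
    exact this
  · rw [h4, wh_wh, wh_wh, ← drop_sl W hab, ← take_sl W hab, ← drop_sl W h2, ← take_sl W h2,
      ← drop_sl W h1, ← take_sl W h3]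
    rfl

/-! ### the subgroups -/

/-- elements supported on the interval `[a, b)` -/
def GI (P : Pres A) (W : List A) (a b : ℕ) : Subgroup (U P) :=
  (Dg P (sl W a b)).map (wh (W.take a) (W.drop b))

theorem GI_mono {W : List A} {a b a' b' : ℕ} (h1 : a' ≤ a) (h2 : a < b) (h3 : b ≤ b') :
    GI P W a b ≤ GI P W a' b' := by
  rintro g ⟨η, hη, rfl⟩
  refine ⟨wh (sl W a' a) (sl W b b') η, ?_, ?_⟩
  · have := (show Pi _ η _ from hη).wh (sl W a' a) (sl W b b')
    rw [← sl_sl W h2.le h3, ← sl_sl W h1 (by omega)] at this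
    exact this
  · rw [wh_wh, ← take_sl W h1, ← drop_sl W h3]

theorem sl_nil {W : List A} {a b : ℕ} (h : b ≤ a) : sl W a b = [] := by
  unfold sl
  rw [Nat.sub_eq_zero_of_le h, List.take_zero]

theorem GI_nil {W : List A} {a b : ℕ} (h : b ≤ a) {g : U P} (hg : g ∈ GI P W a b) : g = 1 := by
  obtain ⟨η, hη, rfl⟩ := hg
  have h1 : Pi (sl W a b) η (sl W a b) := hη
  rw [sl_nil h] at h1
  rw [(pi_nil h1).1, map_one]

theorem GI_comm {W : List A} {a b a' b' : ℕ} (h : b ≤ a') {g k : U P}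
    (hg : g ∈ GI P W a b) (hk : k ∈ GI P W a' b') : g * k = k * g := by
  rcases Nat.lt_or_ge a b with h1 | h1
  swap
  · rw [GI_nil h1 hg, one_mul, mul_one]
  rcases Nat.lt_or_ge a' b' with h2 | h2
  swap
  · rw [GI_nil h2 hk, one_mul, mul_one]
  obtain ⟨η, hη, rfl⟩ := hg
  obtain ⟨κ, hκ, rfl⟩ := hk
  have e1 : wh (W.take a) (W.drop b) η = wh [] (W.drop b) (wh (W.take a) [] η) := by
    rw [wh_wh]; simp
  have e2 : wh (W.take a') (W.drop b') κ = wh (W.take b) [] (wh (sl W b a') (W.drop b') κ) := by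
    rw [wh_wh, ← take_sl W h, List.append_nil]
  rw [e1, e2]
  apply wh_comm
  · have := (show Pi _ η _ from hη).wh (W.take a) []
    rw [List.append_nil, ← take_sl W h1.le] at this
    exact this
  · have := (show Pi _ κ _ from hκ).wh (sl W b a') (W.drop b')
    rw [← drop_sl W h2.le, ← drop_sl W h] at this
    exact this

/-- the system of subgroups -/
def sys (P : Pres A) (W : List A) : Sys (U P) W.length where
  Gi := GI P W
  mono h1 h2 h3 _ := GI_mono h1 h2 h3
  comm h _ _ hg _ hk := GI_comm h hg hk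

theorem conj_GI {W : List A} {a b : ℕ} (hab : a ≤ b) (hb : b ≤ W.length) {c : U P}
    (hc : Pi W c W) (ca : Fx W c a) (cb : Fx W c b) {g : U P} (hg : g ∈ GI P W a b) :
    c * g * c⁻¹ ∈ GI P W a b := by
  obtain ⟨α, γ, β, h1, rfl⟩ := two_cuts hc hab hb ca cb
  obtain ⟨η, hη, rfl⟩ := hg
  have h2 : V3 W a b (1 : U P) η 1 := ⟨Pi.refl _, hη, Pi.refl _⟩
  have e : wh (W.take a) (W.drop b) η = T3 W a b 1 η 1 := by
    unfold T3; simp
  rw [e, T3.inv hab h1, T3.mul hab h1 h2, T3.mul hab (h1.mul h2) h1.inv]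
  refine ⟨γ * η * γ⁻¹, ((h1.mul h2).mul h1.inv).m, ?_⟩
  unfold T3; simp

/-- uniqueness of parts -/
theorem uniq {p q : List A} {α β α' β' : U P} (hα : Pi p α p) (hα' : Pi p α' p) (hβ : Pi q β q)
    (hβ' : Pi q β' q) (h : wh [] q α * wh p [] β = wh [] q α' * wh p [] β') : α = α' := by
  have h1 : wh [] q (α'⁻¹ * α) * wh p [] (β * β'⁻¹) = 1 := by
    rw [map_mul, map_mul, map_inv, map_inv]
    calc (wh [] q α')⁻¹ * wh [] q α * (wh p [] β * (wh p [] β')⁻¹)
        = (wh [] q α')⁻¹ * (wh [] q α * wh p [] β) * (wh p [] β')⁻¹ := by group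
      _ = 1 := by rw [h]; group
  have h2 := (prod_inj (hα'.symm.trans hα) (hβ.trans hβ'.symm) h1).1
  exact (inv_mul_eq_one.1 h2).symm

theorem fx_zero {W : List A} {g : U P} (hg : Pi W g W) : Fx W g 0 := by
  refine ⟨1, g, Pi.refl _, ?_, ?_⟩
  · rw [List.drop_zero]; exact hg
  · rw [List.take_zero, List.append_nil, map_one, one_mul, wh_nil]

theorem fx_end {W : List A} {g : U P} (hg : Pi W g W) : Fx W g W.length := by
  refine ⟨g, 1, ?_, Pi.refl _, ?_⟩
  · rw [List.take_length]; exact hg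
  · rw [List.drop_length, List.append_nil, map_one, mul_one, wh_nil]

/-- **Support of an element preserving a family of cuts** -/
theorem mem_sup {W : List A} {g : U P} (hg : Pi W g W) (F : ℕ → Prop)
    (hF : ∀ ρ, F ρ → ρ ≤ W.length ∧ Fx W g ρ) (h0 : F 0) (hW : F W.length) :
    g ∈ Sup (sys P W) {n | n < W.length ∧ ¬ ∃ ρ ρ', ρ ≤ n ∧ n < ρ' ∧ F ρ ∧ F ρ' ∧
      Tv W ρ ρ' g} := by
  classical
  set X : Set ℕ := {n | n < W.length ∧ ¬ ∃ ρ ρ', ρ ≤ n ∧ n < ρ' ∧ F ρ ∧ F ρ' ∧
      Tv W ρ ρ' g} with hX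
  have key : ∀ n ρ, ρ ≤ n → F ρ → ∀ α β, Pi (W.take ρ) α (W.take ρ) →
      Pi (W.drop ρ) β (W.drop ρ) → g = wh [] (W.drop ρ) α * wh (W.take ρ) [] β →
      wh [] (W.drop ρ) α ∈ Sup (sys P W) X := by
    intro n
    induction n with
    | zero =>
      intro ρ hρ _ α β hα _ _
      obtain rfl : ρ = 0 := by omega
      rw [List.take_zero] at hα
      rw [(pi_nil hα).1, map_one]
      exact one_mem _
    | succ n ih =>
      intro ρ hρ hFρ α β hα hβ hgρ
      rcases Nat.eq_zero_or_pos ρ with h1 | h1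
      · exact ih ρ (by omega) hFρ α β hα hβ hgρ
      -- the previous cut
      obtain ⟨σ, hσ1, hσ2, hσ3⟩ : ∃ σ, σ < ρ ∧ F σ ∧ ∀ τ, τ < ρ → F τ → τ ≤ σ := by
        refine ⟨Nat.findGreatest (fun τ => F τ) (ρ - 1), ?_, ?_, ?_⟩
        · have := Nat.findGreatest_le (P := fun τ => F τ) (ρ - 1)
          omega
        · exact Nat.findGreatest_spec (P := fun τ => F τ) (Nat.zero_le _) h0
        · intro τ h2 h3
          exact Nat.le_findGreatest (by omega) h3
      have hρW := (hF ρ hFρ).1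
      obtain ⟨α', γ, β', h2, h3⟩ := two_cuts hg hσ1.le hρW (hF σ hσ2).2 (hF ρ hFρ).2
      have h4 := ih σ (by omega) hσ2 α' (wh [] (W.drop ρ) γ * wh (sl W σ ρ) [] β') h2.l (by
        have e1 := h2.m.wh [] (W.drop ρ)
        have e2 := h2.r.wh (sl W σ ρ) []
        rw [List.nil_append, ← drop_sl W hσ1.le] at e1
        rw [List.append_nil, ← drop_sl W hσ1.le] at e2
        exact e1.trans e2) (by
        rw [h3]
        unfold T3
        rw [map_mul, wh_wh, wh_wh]
        simp only [List.append_nil]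
        rw [← take_sl W hσ1.le, mul_assoc])
      -- the left part
      have h5 : α = wh [] (sl W σ ρ) α' * wh (W.take σ) [] γ := by
        refine uniq (q := W.drop ρ) (β := β) (β' := β') hα ?_ hβ h2.r ?_
        · have e1 := h2.l.wh [] (sl W σ ρ)
          have e2 := h2.m.wh (W.take σ) []
          rw [List.nil_append, ← take_sl W hσ1.le] at e1
          rw [List.append_nil, ← take_sl W hσ1.le] at e2
          exact e1.trans e2
        · rw [← hgρ, h3]
          unfold T3
          rw [map_mul, wh_wh, wh_wh, List.append_nil, ← drop_sl W hσ1.le]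
          simp
      have h6 : wh [] (W.drop ρ) α = wh [] (W.drop σ) α' * wh (W.take σ) (W.drop ρ) γ := by
        rw [h5, map_mul, wh_wh, wh_wh, List.append_nil, ← drop_sl W hσ1.le]
        simp
      rw [h6]
      refine mul_mem h4 ?_
      by_cases hT : Tv W σ ρ g
      · -- trivial part
        obtain ⟨α'', β'', h7, h8⟩ := (tv_iff hσ1.le).1 hT
        have h9 : γ = 1 := by
          have e3 : α'⁻¹ = α''⁻¹ ∧ True := by
            refine ⟨?_, trivial⟩
            congr 1
            refine uniq (q := W.drop σ) (β := wh [] (W.drop ρ) γ * wh (sl W σ ρ) [] β')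
              (β' := wh (sl W σ ρ) [] β'') h2.l h7.l ?_ ?_ ?_
            · have e1 := h2.m.wh [] (W.drop ρ)
              have e2 := h2.r.wh (sl W σ ρ) []
              rw [List.nil_append, ← drop_sl W hσ1.le] at e1
              rw [List.append_nil, ← drop_sl W hσ1.le] at e2
              exact e1.trans e2
            · have e2 := h7.r.wh (sl W σ ρ) []
              rw [List.append_nil, ← drop_sl W hσ1.le] at e2
              exact e2
            · rw [map_mul, wh_wh, wh_wh, wh_wh]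
              simp only [List.append_nil]
              rw [← take_sl W hσ1.le]
              rw [h3] at h8
              unfold T3 at h8
              rw [map_one, mul_one] at h8
              rw [← h8, mul_assoc]
          have e4 : α' = α'' := inv_injective e3.1
          -- compare the middle parts
          have e5 : wh [] (W.drop ρ) (wh [] (sl W σ ρ) α' * wh (W.take σ) [] γ) *
              wh (W.take ρ) [] β' = wh [] (W.drop ρ) (wh [] (sl W σ ρ) α'') *
              wh (W.take ρ) [] β'' := by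
            rw [h3] at h8
            unfold T3 at h8
            rw [map_mul, wh_wh, wh_wh, List.append_nil, ← drop_sl W hσ1.le, wh_wh,
              ← drop_sl W hσ1.le]
            rw [map_one, mul_one] at h8
            simpa using h8
          have e6 := uniq (q := W.drop ρ) (p := W.take ρ) (by
            have e1 := h2.l.wh [] (sl W σ ρ)
            have e2 := h2.m.wh (W.take σ) []
            rw [List.nil_append, ← take_sl W hσ1.le] at e1
            rw [List.append_nil, ← take_sl W hσ1.le] at e2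
            exact e1.trans e2) (by
            have e1 := h7.l.wh [] (sl W σ ρ)
            rw [List.nil_append, ← take_sl W hσ1.le] at e1
            exact e1) h2.r h7.r e5
          rw [e4] at e6
          have e7 : wh (W.take σ) [] γ = 1 := by
            have := e6
            exact mul_left_cancel (this.trans (mul_one _).symm)
          exact wh_left_inj _ h2.m e7
        rw [h9, map_one]
        exact one_mem _
      · refine mem_Sup (sys P W) hσ1 ?_ ⟨γ, h2.m, rfl⟩
        intro n h7 h8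
        refine ⟨by omega, ?_⟩
        rintro ⟨τ, τ', h9, h10, h11, h12, h13⟩
        apply hT
        refine tv_res (hσ3 τ (by omega) h11) hσ1.le ?_ h13
        by_contra h14
        have := hσ3 τ' (by omega) h12
        omega
  have h1 := fx_end hg
  obtain ⟨α, β, h2, h3, h4⟩ := h1
  rw [List.nil_append, List.append_nil] at h4
  have h5 := key W.length W.length le_rfl hW α β h2 h3 h4
  rw [List.drop_length] at h3
  rw [(pi_nil h3).1, map_one, mul_one] at h4
  rw [h4]
  exact h5

end Pool.Agent.W391
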