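import Pool.Agent.W391.D6

set_option autoImplicit false

/-!
# The obstruction
-/

namespace Pool.Agent.W391

open H540DG Pool.Agent.H599R3.RH Pool.Agent.H599R3.SV
open scoped commutatorElement

variable {A : Type} {P : Pres A}

/-- cuts not straddled by essential hyperplanes are fixed -/
theorem fx_of_nsd {W : List A} {y : U P} (hy : Pi W y W) (hgood : ∀ H, uu y H ≠ 0 → E y H)
    {ρ : ℕ} (hρ : ρ ≤ W.length) (h : ∀ H, E y H → ¬ Sd ρ H) : Fx W y ρ := by
  have h1 := pig (N := W.length) (f := H540DG.th y)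
    (fun n => n ≤ W.length ∧ ∀ H, E y H → ¬ Sd n H) (fun n hn => hn.1) (by
      rintro n ⟨h1, h2⟩
      obtain ⟨a', h3, h4, -⟩ := crit1 hy h1 (fun J hJ => h2 J (hgood J hJ))
      refine ⟨a', ⟨h3, ?_⟩, h4⟩
      intro H hH hs
      have e : H = y⁻¹ • (y • H) := by rw [inv_smul_smul]
      rw [e, sd_tr h4] at hs
      exact h2 _ ((E.smul_self y H).2 hH) hs) ρ ⟨hρ, h⟩
  exact crit hy hρ h1 (fun J hJ => h J (hgood J hJ))

/-- every essential hyperplane lies in a block -/
theorem exists_blk {W : List A} {y : U P} (hy : Pi W y W) (hgood : ∀ H, uu y H ≠ 0 → E y H)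
    {K : Hyp P} (hK : E y K) : ∃ α β, Blk W y α β ∧ α ≤ K.lo ∧ K.hi ≤ β := by
  classical
  obtain ⟨b1, b2⟩ := vz_bd (hK.vz hy)
  have hlt := K.lt
  -- the upper end
  have hex : ∃ b : ℕ, b ≤ W.length ∧ Fx W y b ∧ K.hi ≤ b := ⟨W.length, le_rfl, fx_end hy, b2⟩
  set β := Nat.find hex with hβ
  obtain ⟨c1, c2, c3⟩ := Nat.find_spec hex
  rw [← hβ] at c1 c2 c3
  have c4 : ∀ m, m < β → ¬ (m ≤ W.length ∧ Fx W y m ∧ K.hi ≤ m) := fun m hm =>
    Nat.find_min hex hm
  -- the lower end
  set Q : ℕ → Prop := fun a => Fx W y a ∧ (a : ℚ) ≤ K.lo with hQ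
  set α := Nat.findGreatest Q W.length with hα
  have d0 : Q 0 := ⟨fx_zero hy, by rw [Nat.cast_zero]; exact b1⟩
  have d1 : Q α := Nat.findGreatest_spec (P := Q) (Nat.zero_le _) d0
  have d2 : ∀ m, m ≤ W.length → Q m → m ≤ α := fun m hm hQm => Nat.le_findGreatest hm hQm
  refine ⟨α, β, ⟨hy, ?_, c1, d1.1, c2, ?_, ?_, ⟨K, hK, d1.2, c3⟩⟩, d1.2, c3⟩
  · have : (α : ℚ) < β := by linarith [d1.2]
    exact_mod_cast this
  · exact fun H hH _ _ => hgood H hH
  · intro ρ h1 h2
    by_contra hcon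
    have h3 : Fx W y ρ := fx_of_nsd hy hgood (by omega)
      (fun H hH hs => hcon ⟨H, hH, hs⟩)
    rcases nsd_iff.1 (h3.nsdE (by omega) hK) with h4 | h4
    · exact c4 ρ h2 ⟨by omega, h3, h4⟩
    · have := d2 ρ (by omega) ⟨h3, h4⟩
      omega

/-- an element without essential hyperplanes in an interval is trivial there -/
theorem tv_of_noE {W : List A} {y : U P} (hy : Pi W y W) {a b : ℕ} (hab : a ≤ b)
    (hb : b ≤ W.length) (ya : Fx W y a) (yb : Fx W y b)
    (h : ∀ H, E y H → a ≤ H.lo → H.hi ≤ b → False) : Tv W a b y := by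
  obtain ⟨α, γ, β, h1, h2⟩ := two_cuts hy hab hb ya yb
  rw [tv_iff hab]
  have hγ : γ = 1 := by
    by_contra hγ
    -- the middle part
    set g : U P := wh (W.take a) (W.drop b) γ with hg
    have V1 : V3 W a b (1 : U P) γ 1 := ⟨Pi.refl _, h1.m, Pi.refl _⟩
    have V2 : V3 W a b α 1 β := ⟨h1.l, Pi.refl _, h1.r⟩
    have eg : g = T3 W a b 1 γ 1 := by rw [hg]; unfold T3; simp
    set k : U P := T3 W a b α 1 β with hk
    have hgk : g * k = k * g := by
      rw [eg, hk, T3.mul hab V1 V2, T3.mul hab V2 V1]; simp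
    have hyk : y = g * k := by
      rw [eg, hk, T3.mul hab V1 V2, h2]; simp
    have hgW : Pi W g W := by
      have := h1.m.wh (W.take a) (W.drop b)
      rw [split3 W hab] at this
      exact this
    have hkW : Pi W k W := by
      have h3 : Tv W a b k := (tv_iff hab).2 ⟨α, β, V2, rfl⟩
      have := Mv.pi h3
      rw [split3 W hab] at this
      exact this
    have hg1 : g ≠ 1 := by
      intro h3
      apply hγ
      have h4 : wh (W.take a) [] (wh [] (W.drop b) γ) = 1 := by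
        rw [wh_wh, List.append_nil, List.append_nil]
        exact h3
      have h5 := wh_left_inj _ (h1.m.wh [] (W.drop b)) h4
      exact wh_right_inj _ h1.m h5
    obtain ⟨H, h3, h4⟩ := exists_os hgW hg1
    -- the position
    have hgF : Fx W g a ∧ Fx W g b := by
      constructor
      · refine ⟨1, wh [] (W.drop b) γ, Pi.refl _, ?_, ?_⟩
        · have := h1.m.wh [] (W.drop b)
          rw [List.nil_append, ← drop_sl W hab] at this
          exact this
        · rw [map_one, one_mul, wh_wh, List.append_nil, List.append_nil, List.append_nil]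
      · refine ⟨wh (W.take a) [] γ, 1, ?_, Pi.refl _, ?_⟩
        · have := h1.m.wh (W.take a) []
          rw [List.append_nil, ← take_sl W hab] at this
          exact this
        · rw [map_one, mul_one, wh_wh]
          rfl
    have hpos : ∀ J, uu g J ≠ 0 → a ≤ J.lo ∧ J.hi ≤ b := by
      intro J hJ
      obtain ⟨η, a', r, c', g1, rfl⟩ := vis0 _ _ h1.m J hJ
      have e1 : (H540DG.th (wh (W.take a) (W.drop b) η)) = H540DG.th (wh (W.take a) [] η) := by
        have : wh (W.take a) (W.drop b) η = wh [] (W.drop b) (wh (W.take a) [] η) := by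
          rw [wh_wh]; simp
        rw [this, th_wh_right]
      obtain ⟨L, g2, rfl⟩ := g1
      have e2 := th_wh_left (W.take a) L
      have e3 := th_nonpos (pv L) (le_refl (0 : ℚ))
      have e4 := th_nonneg_end (show Pi _ (pv L) _ from ⟨L, g2, rfl⟩)
      rw [lo_hyp, hi_hyp, e1]
      simp only [List.length_append, len_take W (hab.trans hb)] at e2 ⊢
      push_cast
      rw [add_assoc, e2, e2]
      constructor
      · have : (0 : ℚ) ≤ H540DG.th (pv L) (a'.length : ℚ) := by
          conv_lhs => rw [← e3]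
          exact (H540DG.th (pv L)).le_iff_le.2 (Nat.cast_nonneg _)
        linarith
      · have : H540DG.th (pv L) ((a'.length : ℚ) + r.1.1.length) ≤ (sl W a b).length := by
          rw [← e4]
          rw [OrderIso.le_iff_le]
          simp only [List.length_append]
          push_cast
          linarith [Nat.cast_nonneg (α := ℚ) c'.length]
        rw [len_sl W hb] at this
        push_cast [hab] at this
        linarith
    have hHpos := hpos H h4
    -- the other part does not move the hyperplane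
    have hkE : ¬ E k H := by
      intro h5
      obtain ⟨l, hl, h6⟩ := h5.tr
      have h7 : Tv W a b k := (tv_iff hab).2 ⟨α, β, V2, rfl⟩
      have k1 : H540DG.th k (a : ℚ) = a := by
        have := mv_beg h7
        rwa [len_take W (hab.trans hb)] at this
      have k2 : H540DG.th k (b : ℚ) = b := by
        have := mv_end h7
        rw [len_take W (hab.trans hb), len_sl W hb] at this
        push_cast [hab] at this
        rwa [add_sub_cancel] at this
      have l1 := th_zp k1 hl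
      have l2 := th_zp k2 hl
      rw [uu_apply] at h6
      have h8 := cross_Mv (l • H) h7 1 (by
        rw [one_mul]
        exact sub_ne_zero.1 h6)
      rw [th_one_apply, th_one_apply, len_take W (hab.trans hb), len_sl W hb] at h8
      push_cast [hab] at h8
      rw [add_sub_cancel, lo_smul, hi_smul] at h8
      have hlt := H.lt
      rcases h8 with h8 | h8
      · have h9 : H540DG.th l (a : ℚ) < H540DG.th l H.hi :=
          (H540DG.th l).lt_iff_lt.2 (by linarith [hHpos.1])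
        rw [l1] at h9
        linarith
      · have h9 : H540DG.th l H.lo < H540DG.th l (b : ℚ) :=
          (H540DG.th l).lt_iff_lt.2 (by linarith [hHpos.2])
        rw [l2] at h9
        linarith
    -- conclusion
    have hAb := ab_pair hgW hkW hgk
    have mg : g ∈ Subgroup.closure {g, k} := Subgroup.subset_closure (Or.inl rfl)
    have mk : k ∈ Subgroup.closure {g, k} := Subgroup.subset_closure (Or.inr rfl)
    have hyE : E y H := by
      have h5 : E (g * k) H := by
        unfold E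
        rw [← cc_iff hAb (mul_mem mg mk), cc_mul mg, Finsupp.add_apply]
        have h6 : cc (Subgroup.closure {g, k}) k (qg _ H) = 0 := by
          by_contra h7
          exact hkE ((cc_iff hAb mk H).1 h7)
        rw [h6, add_zero]
        exact (cc_iff hAb mg H).2 h3
      rw [hyk]
      exact h5
    exact h H hyE hHpos.1 hHpos.2
  subst hγ
  exact ⟨α, β, h1, h2⟩

/-- the data extracted from a homomorphism -/
structure Dat (P : Pres A) (W : List A) (ι : Type) (x y : ι → U P) (c Y : U P) : Prop where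
  hY : Pi W Y W
  good : ∀ H, uu Y H ≠ 0 → E Y H
  hx : ∀ i, Pi W (x i) W
  hy : ∀ i, Pi W (y i) W
  hc : Pi W c W
  yE : ∀ i H, E (y i) H → E Y H
  yY : ∀ i, y i * Y = Y * y i
  cY : c * Y = Y * c
  yy : ∀ i j, y i * y j = y j * y i
  cy : ∀ i, c * y i = y i * c
  xy : ∀ i j, i ≠ j → x i * y j = y j * x i

namespace Dat

variable {W : List A} {ι : Type} {x y : ι → U P} {c Y : U P}

/-- common fixed cuts -/
def F (W : List A) (x y : ι → U P) (c : U P) (i : ι) (ρ : ℕ) : Prop :=
  ρ ≤ W.length ∧ Fx W (x i) ρ ∧ Fx W (y i) ρ ∧ Fx W c ρ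

/-- supports -/
def X (W : List A) (x y : ι → U P) (c : U P) (i : ι) : Set ℕ :=
  {n | n < W.length ∧ ¬ ∃ ρ ρ', ρ ≤ n ∧ n < ρ' ∧ F W x y c i ρ ∧ F W x y c i ρ' ∧
    Tv W ρ ρ' ⁅x i, y i⁆}

theorem F0 (D : Dat P W ι x y c Y) (i : ι) : F W x y c i 0 :=
  ⟨Nat.zero_le _, fx_zero (D.hx i), fx_zero (D.hy i), fx_zero D.hc⟩

theorem FW (D : Dat P W ι x y c Y) (i : ι) : F W x y c i W.length :=
  ⟨le_rfl, fx_end (D.hx i), fx_end (D.hy i), fx_end D.hc⟩

/-- no essential hyperplane of another foot meets the support -/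
theorem noB (D : Dat P W ι x y c Y) {i j : ι} (hij : i ≠ j) {n : ℕ} (hn : n ∈ X W x y c i)
    {K : Hyp P} (hK : E (y j) K) (h1 : K.lo < n + 1) (h2 : n < K.hi) : False := by
  obtain ⟨α, β, hB, h3, h4⟩ := exists_blk D.hY D.good (D.yE j K hK)
  have hB' := hB.sub (D.hy j) (D.yY j) (D.yE j) hK h3 h4
  have hα : α ≤ n := by
    by_contra h5
    have h5 : n + 1 ≤ α := by omega
    have h6 : (n : ℚ) + 1 ≤ α := by exact_mod_cast h5
    linarith
  have hβ : n < β := by
    by_contra h5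
    have h6 : (β : ℚ) ≤ n := by exact_mod_cast not_lt.1 h5
    linarith
  obtain ⟨xa, xb⟩ := hB'.fix (D.hx i) (D.xy i j hij)
  obtain ⟨ya, yb⟩ := hB'.fix (D.hy i) (D.yy i j)
  obtain ⟨ca, cb⟩ := hB'.fix D.hc (D.cy j)
  exact hn.2 ⟨α, β, hα, hβ, ⟨hB.le', xa, ya, ca⟩, ⟨hB.le, xb, yb, cb⟩,
    hB'.comm (D.hx i) (D.xy i j hij) (D.hy i) (D.yy i j)⟩

theorem bd (i : ι) : ∀ n ∈ X W x y c i, n < W.length := fun _ h => h.1

/-- good cuts -/
def C (W : List A) (c : U P) : Set ℕ := {ρ | ρ ≤ W.length ∧ Fx W c ρ}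

theorem right_end (D : Dat P W ι x y c Y) {i : ι} {n : ℕ} (h1 : n ∈ X W x y c i)
    (h2 : n + 1 ∉ X W x y c i) : F W x y c i (n + 1) := by
  by_cases h3 : n + 1 < W.length
  · have h4 : ∃ ρ ρ', ρ ≤ n + 1 ∧ n + 1 < ρ' ∧ F W x y c i ρ ∧ F W x y c i ρ' ∧
        Tv W ρ ρ' ⁅x i, y i⁆ := by
      by_contra h4
      exact h2 ⟨h3, h4⟩
    obtain ⟨ρ, ρ', a1, a2, a3, a4, a5⟩ := h4
    by_cases h5 : ρ ≤ n
    · exact absurd ⟨ρ, ρ', h5, by omega, a3, a4, a5⟩ h1.2
    · obtain rfl : ρ = n + 1 := by omega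
      exact a3
  · have h4 : n + 1 = W.length := by have := h1.1; omega
    rw [h4]
    exact D.FW i

theorem left_end {i : ι} {n : ℕ} (h1 : n ∉ X W x y c i)
    (h2 : n + 1 ∈ X W x y c i) : F W x y c i (n + 1) := by
  have h3 : n < W.length := by have := h2.1; omega
  have h4 : ∃ ρ ρ', ρ ≤ n ∧ n < ρ' ∧ F W x y c i ρ ∧ F W x y c i ρ' ∧
        Tv W ρ ρ' ⁅x i, y i⁆ := by
      by_contra h4
      exact h1 ⟨h3, h4⟩
  obtain ⟨ρ, ρ', a1, a2, a3, a4, a5⟩ := h4
  by_cases h5 : n + 1 < ρ'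
  · exact absurd ⟨ρ, ρ', by omega, h5, a3, a4, a5⟩ h2.2
  · obtain rfl : ρ' = n + 1 := by omega
    exact a4

theorem gd (D : Dat P W ι x y c Y) (i : ι) : Good (C W c) (X W x y c i) := by
  refine ⟨fun n h1 h2 => ?_, fun n h1 h2 => ?_, Nat.zero_le _, fx_zero D.hc⟩
  · have := D.right_end h1 h2
    exact ⟨this.1, this.2.2.2⟩
  · have := left_end h1 h2
    exact ⟨this.1, this.2.2.2⟩

theorem priv (D : Dat P W ι x y c Y) : Priv (X W x y c) := by
  intro i a b hab
  by_contra hcon
  push Not at hcon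
  have ha : a ∈ X W x y c i := hab.mem a le_rfl hab.le
  have hb : b ∈ X W x y c i := hab.mem b hab.le le_rfl
  have Fb := D.right_end hb hab.right
  have Fa : F W x y c i a := by
    rcases Nat.eq_zero_or_pos a with h1 | h1
    · rw [h1]; exact D.F0 i
    · obtain ⟨n, rfl⟩ : ∃ n, a = n + 1 := ⟨a - 1, by omega⟩
      exact left_end (hab.left n rfl) ha
  have hle := hab.le
  have hT : Tv W a (b + 1) (y i) := by
    refine tv_of_noE (D.hy i) (by omega) Fb.1 Fa.2.2.1 Fb.2.2.1 ?_
    intro H hH h1 h2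
    -- a letter overlapped by `H`
    have hlt := H.lt
    have hex : ∃ p : ℕ, a ≤ p ∧ p ≤ b ∧ H.lo < p + 1 ∧ (p : ℚ) < H.hi := by
      refine ⟨⌊H.lo⌋₊, Nat.le_floor h1, ?_, Nat.lt_floor_add_one _, ?_⟩
      · have h3 : ((⌊H.lo⌋₊ : ℕ) : ℚ) < ((b + 1 : ℕ) : ℚ) :=
          lt_of_le_of_lt (Nat.floor_le (le_trans (Nat.cast_nonneg a) h1)) (by linarith)
        have h4 : ⌊H.lo⌋₊ < b + 1 := by exact_mod_cast h3
        omega
      · exact lt_of_le_of_lt (Nat.floor_le (le_trans (Nat.cast_nonneg a) h1)) hlt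
    obtain ⟨p, p1, p2, p3, p4⟩ := hex
    obtain ⟨j, hj, hji⟩ := hcon p p1 p2
    exact D.noB hji hj hH p3 p4
  exact ha.2 ⟨a, b + 1, le_rfl, by omega, Fa, Fb,
    tv_comm (by omega) Fb.1 (D.hx i) Fa.2.1 Fb.2.1 hT⟩

theorem comm_mem (D : Dat P W ι x y c Y) (i : ι) : Pi W ⁅x i, y i⁆ W := by
  have h1 : ⁅x i, y i⁆ ∈ Dg P W := by
    rw [commutatorElement_def]
    exact mul_mem (mul_mem (mul_mem (D.hx i) (D.hy i)) (inv_mem (show x i ∈ Dg P W from D.hx i)))
      (inv_mem (show y i ∈ Dg P W from D.hy i))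
  exact h1

theorem fx_group {ρ : ℕ} {g h : U P} (hg : Fx W g ρ) (hh : Fx W h ρ) : Fx W ⁅g, h⁆ ρ := by
  rw [commutatorElement_def]
  exact ((Mv.trans hg hh).trans (Mv.symm hg)).trans (Mv.symm hh)

theorem sup (D : Dat P W ι x y c Y) (i : ι) : ⁅x i, y i⁆ ∈ Sup (sys P W) (X W x y c i) :=
  mem_sup (D.comm_mem i) (F W x y c i) (fun _ h => ⟨h.1, fx_group h.2.1 h.2.2.1⟩) (D.F0 i) (D.FW i)

end Dat

end Pool.Agent.W391
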