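import Pool.Agent.W886.LS.Stm0

/-!
# From events to almost all oracles and all changes
-/

set_option autoImplicit false

namespace Pool.Agent.W391.LSMEAS

open MeasureTheory Filter Pool.Agent.NPC Pool.Agent.H620R2.Gauge Pool.Agent.H622R2.Exp
open Pool.Agent.W900.CH
open Pool.Agent.H628R3.RO (randomOracle)
open Pool.Agent.H943R5.GC (N6.cyl N6.meas_cyl N6.half_pow)

theorem card_diffN (O A : Oracle) (n : ℕ) : (diffN O A (2 ^ (n + 1))).card ≤ dist O A n + 1 := by
  classical
  have h1 : diffN O A (2 ^ (n + 1)) ⊆ insert (2 ^ (n + 1) - 1) (diffN O A (2 ^ (n + 1) - 1)) := by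
    intro i hi
    unfold diffN at hi ⊢
    rw [Finset.mem_filter, Finset.mem_range] at hi
    rw [Finset.mem_insert, Finset.mem_filter, Finset.mem_range]
    by_cases h : i = 2 ^ (n + 1) - 1
    · exact Or.inl h
    · exact Or.inr ⟨by omega, hi.2⟩
  have h2 : Nat.log 2 (2 ^ (n + 1) - 1) = n := by
    have h3 : 1 ≤ 2 ^ n := Nat.one_le_two_pow
    apply Nat.log_eq_of_pow_le_of_lt_pow
    · rw [pow_succ]; omega
    · omega
  have h3 := card_diffN_le O A (2 ^ (n + 1) - 1)
  rw [h2] at h3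
  exact (Finset.card_le_card h1).trans ((Finset.card_insert_le _ _).trans (by omega))

theorem task : Pool.Agent.W886.LS.S_MEAS := by
  intro S g hS
  refine ae_far_of fun n₁ => ?_
  have key : ∀ δ : ℝ, 0 < δ → randomOracle {O | ∃ A ∈ S, ∀ n ≥ n₁, (dist O A n : ℝ) ≤ g n} ≤
      ENNReal.ofReal δ := by
    intro δ hδ
    obtain ⟨n, hn, E, hE, hcard⟩ := hS n₁ δ hδ
    let N := 2 ^ (n + 1)
    have hN : N = 2 ^ (n + 1) := rfl
    set d := ⌊max (g n) 0⌋₊ + 1 with hd
    set P := (Finset.range N).powerset.filter (fun D => D.card ≤ d) with hP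
    have h2 : {O | ∃ A ∈ S, ∀ n ≥ n₁, (dist O A n : ℝ) ≤ g n} ⊆
        ⋃ q ∈ E ×ˢ P, N6.cyl (flip (List.ofFn q.1) q.2) := by
      rintro O ⟨A, hA, hdist⟩
      have h3 := hE A hA
      have h4 : Extends A (List.ofFn (fun i : Fin (2 ^ (n + 1)) => A (str i))) := by
        intro i hi
        rw [List.getElem_ofFn]
      have h5 := extends_flip (O := O) h4
      have h6 : (List.ofFn (fun i : Fin (2 ^ (n + 1)) => A (str i))).length = N := List.length_ofFn
      have h7 : diffN O A N ∈ P := by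
        rw [hP, Finset.mem_filter, Finset.mem_powerset]
        refine ⟨Finset.filter_subset _ _, (card_diffN O A n).trans ?_⟩
        rw [hd]
        refine Nat.add_le_add_right (Nat.le_floor ?_) 1
        exact (hdist n hn).trans (le_max_left _ _)
      refine Set.mem_iUnion₂.2 ⟨(_, diffN O A N), Finset.mem_product.2 ⟨h3, h7⟩, ?_⟩
      rw [h6] at h5
      exact h5
    refine (measure_mono h2).trans ((measure_biUnion_finset_le _ _).trans ?_)
    have h3 : ∀ q ∈ E ×ˢ P, randomOracle (N6.cyl (flip (List.ofFn q.1) q.2)) =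
        ENNReal.ofReal (2 ^ (-(N : ℝ))) := by
      intro q _
      rw [N6.meas_cyl, length_flip, List.length_ofFn, N6.half_pow]
    rw [Finset.sum_congr rfl h3, Finset.sum_const, nsmul_eq_mul, ← ENNReal.ofReal_natCast,
      ← ENNReal.ofReal_mul (by positivity)]
    refine ENNReal.ofReal_le_ofReal (le_trans ?_ hcard)
    have h4 : (P.card : ℝ) ≤ ((2 : ℝ) ^ (n + 1) + 1) ^ (max (g n) 0 + 1) := by
      have h5 : (P.card : ℝ) ≤ (((N + 1 : ℕ) : ℝ)) ^ d := by
        exact_mod_cast card_small N d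
      refine h5.trans ?_
      have h6 : ((N + 1 : ℕ) : ℝ) = (2 : ℝ) ^ (n + 1) + 1 := by
        rw [hN]; push_cast; rfl
      rw [h6, ← Real.rpow_natCast]
      apply Real.rpow_le_rpow_of_exponent_le
      · have : (0 : ℝ) < (2 : ℝ) ^ (n + 1) := by positivity
        linarith
      · rw [hd]
        push_cast
        have := Nat.floor_le (le_max_right (g n) 0)
        linarith
    have h5 : (2 : ℝ) ^ (-(N : ℝ)) = 2 ^ (-(2 : ℝ) ^ (n + 1)) := by
      congr 1
      rw [hN]; push_cast; rfl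
    rw [Finset.card_product, Nat.cast_mul, h5]
    calc (E.card : ℝ) * P.card * 2 ^ (-(2 : ℝ) ^ (n + 1))
        = (E.card : ℝ) * 2 ^ (-(2 : ℝ) ^ (n + 1)) * P.card := by ring
      _ ≤ _ := mul_le_mul_of_nonneg_left h4 (by positivity)
  by_contra hne
  have h3 := pos_iff_ne_zero.2 hne
  obtain ⟨δ, hδ0, hδ⟩ := ENNReal.lt_iff_exists_nnreal_btwn.1 h3
  have h4 : (0 : ℝ) < (δ : ℝ) := by exact_mod_cast hδ0
  have h5 := key δ h4
  rw [ENNReal.ofReal_coe_nnreal] at h5
  exact absurd (lt_of_lt_of_le hδ h5) (lt_irrefl _)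

end Pool.Agent.W391.LSMEAS

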