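import Pool.Agent.W894.MB.Defs2

/-!
# Countable intersections of coded sets of boards, and countable closedness (product forcing)
-/

set_option autoImplicit false

namespace Pool.Agent.W391.MCCL

open Set Pool.Agent.Helper669.Forcing Pool.Agent.H995R3.Boards Pool.Agent.W894.MB

universe u v w z

theorem desc {P : Type v} [Preorder P] {p : ℕ → P} (hp : ∀ n, p (n + 1) ≤ p n) {n m : ℕ}
    (h : n ≤ m) : p m ≤ p n := by
  induction h with
  | refl => exact le_rfl
  | step _ ih => exact (hp _).trans ih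

theorem smaller_of {T : Type v} {T' : Type w} {K : Type u} [LinearOrder K] (e : T ↪ T')
    (h : Smaller T' K) : Smaller T K := by
  obtain ⟨a, f, hf, hfa⟩ := h
  exact ⟨a, f ∘ e, hf.comp e.injective, fun t => hfa (e t)⟩

theorem main1 (h3 : G_LB.{u, max u w, 0}) (h4 : G_ARITH.{u, w}) : G_SC.{u, w} := by
  intro I _ F p hp
  have h5 : ∀ i : I, ∃ q : CondZ (F.Z i) (F.K i), (∀ a : ℕ, q ≤ (p a).1 i) ∧
      ∀ x, q.f x ≠ none → ∃ a : ℕ, ((p a).1 i).f x ≠ none := fun i =>
    h3 (F.Z i) (F.K i) ℕ (h4 I F i).2.1 (fun a => (p a).1 i) (fun a b hab => desc hp hab i)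
  choose q hq1 hq2 using h5
  have hsm : Small.{u} {i | ∃ x, (q i).f x ≠ none} := by
    have : ∀ n, Small.{u} {i | ∃ x, ((p n).1 i).f x ≠ none} := fun n => (p n).2
    have h6 : Small.{u} (⋃ n, {i | ∃ x, ((p n).1 i).f x ≠ none} : Set I) := inferInstance
    refine @small_subset _ _ _ ?_ h6
    rintro i ⟨x, hx⟩
    obtain ⟨a, ha⟩ := hq2 i x hx
    exact mem_iUnion.2 ⟨a, x, ha⟩
  exact ⟨⟨q, hsm⟩, fun n i => hq1 i n⟩

open Classical in
/-- `r` below `x` and `q` from `x` on -/
theorem glue {Z : Type v} {K : Type u} [LinearOrder K] (hZ : Nonempty (ℕ × Z ↪ Z))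
    (r q : CondZ Z K) (x : K) : ∃ s : CondZ Z K, ∀ y, s.f y = if y < x then r.f y else q.f y := by
  obtain ⟨e⟩ := hZ
  obtain ⟨er⟩ := r.small
  obtain ⟨eq⟩ := q.small
  refine ⟨⟨fun y => if y < x then r.f y else q.f y, ⟨⟨fun y => if h : y.1 < x then
    e (0, er ⟨y.1, ?_⟩) else e (1, eq ⟨y.1, ?_⟩), ?_⟩⟩, ?_⟩, fun y => rfl⟩
  · have := y.2
    rw [mem_ofPred_eq, if_pos h] at this
    exact this
  · have := y.2
    rw [mem_ofPred_eq, if_neg h] at this
    exact this
  · rintro ⟨a, ha⟩ ⟨b, hb⟩ hab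
    simp only at hab
    apply Subtype.ext
    by_cases h1 : a < x
    · by_cases h2 : b < x
      · rw [dif_pos h1, dif_pos h2] at hab
        have h3 := er.injective (Prod.ext_iff.1 (e.injective hab)).2
        have h4 := congrArg Subtype.val h3
        exact h4
      · rw [dif_pos h1, dif_neg h2] at hab
        have h3 := (Prod.ext_iff.1 (e.injective hab)).1
        simp at h3
    · by_cases h2 : b < x
      · rw [dif_neg h1, dif_pos h2] at hab
        have h3 := (Prod.ext_iff.1 (e.injective hab)).1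
        simp at h3
      · rw [dif_neg h1, dif_neg h2] at hab
        have h3 := eq.injective (Prod.ext_iff.1 (e.injective hab)).2
        have h4 := congrArg Subtype.val h3
        exact h4
  · intro y z h
    split_ifs at h with h'
    · exact r.regr y z h
    · exact q.regr y z h

theorem main2 (h1 : G_COMPL.{u, 0}) (h2 : G_BDD.{u, max u w}) (h3 : G_LB.{u, max u w, 0})
    (h4 : G_ARITH.{u, w}) : G_CLOSED.{u, w} := by
  classical
  intro I _ F i w hw r
  have hs := F.small i
  have hA : (⋂ n, (w n).A) ∈ F.U i := by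
    refine h1 (F.K i) (F.U i) (F.nm i) ℕ (smaller_of ?_ hs) _ (fun n => (w n).hA)
    exact (Equiv.natSumNatEquivNat.toEmbedding).trans Function.Embedding.inr
  have hB : {x | ∀ y, (r.1 i).f y ≠ none → y < x} ∈ F.U i := by
    refine h2 (F.Z i) (F.K i) (F.U i) (F.nm i) (smaller_of ?_ hs) (r.1 i)
    exact (Equiv.sumAssoc _ _ _).toEmbedding.trans
      (Function.Embedding.sumMap (Function.Embedding.refl _)
        Equiv.natSumNatEquivNat.toEmbedding)
  have hAB : (⋂ n, (w n).A) ∩ {x | ∀ y, (r.1 i).f y ≠ none → y < x} ∈ (F.U i : Filter (F.K i)) :=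
    Filter.inter_mem hA hB
  obtain ⟨x, hx1, hx2⟩ := Filter.nonempty_of_mem hAB
  have hx1' : ∀ n, x ∈ (w n).A := fun n => mem_iInter.1 hx1 n
  have hd : ∀ n, (w (n + 1)).q x ≤ (w n).q x := fun n => (hw n).2 x (hx1' (n + 1))
  obtain ⟨q, hq1, hq2⟩ := h3 (F.Z i) (F.K i) ℕ (h4 I F i).2.1 (fun n => (w n).q x)
    (fun a b hab => desc (p := fun n => (w n).q x) hd hab)
  obtain ⟨s, hsf⟩ := glue (h4 I F i).2.1 (r.1 i) q x
  have hsm : Small.{u} {j | ∃ y, (Function.update r.1 i s j).f y ≠ none} := by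
    have := r.2
    have h6 : Small.{u} (insert i {j | ∃ y, (r.1 j).f y ≠ none} : Set I) := inferInstance
    refine @small_subset _ _ _ ?_ h6
    rintro j ⟨y, hy⟩
    by_cases hj : j = i
    · exact Or.inl hj
    · rw [Function.update_of_ne hj] at hy
      exact Or.inr ⟨y, hy⟩
  refine ⟨⟨Function.update r.1 i s, hsm⟩, ?_, x, fun n => ⟨hx1' n, ?_⟩⟩
  · intro j
    change Function.update r.1 i s j ≤ r.1 j
    by_cases hj : j = i
    · subst hj
      rw [Function.update_self]
      intro y z h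
      have hy : y < x := hx2 y (by rw [h]; simp)
      rw [hsf, if_pos hy]
      exact h
    · rw [Function.update_of_ne hj]
  · change Function.update r.1 i s i ≤ (w n).q x
    rw [Function.update_self]
    intro y z h
    have hy : ¬ y < x := by
      intro hy
      rw [(w n).hq x y hy] at h
      exact absurd h (by simp)
    rw [hsf, if_neg hy]
    exact hq1 n y z h

end Pool.Agent.W391.MCCL

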